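import Mathlib

/-! # Affine systems and the words attached to them -/

set_option autoImplicit false

namespace IrrCay

/-- the commutator -/
def com {G : Type*} [Group G] (a b : G) : G := a * b * a⁻¹ * b⁻¹

/-- An affine system: rule `j` relates `(src j, a j + M j * u)` and `(tgt j, c j + N j * u)` for
all integer vectors `u`. -/
structure AffSys where
  k : ℕ
  Q : Type
  J : Type
  fQ : Finite Q
  fJ : Finite J
  src : J → Q
  tgt : J → Q
  a : J → Fin k → ℤ
  c : J → Fin k → ℤ
  M : J → Fin k → ℤ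
  N : J → Fin k → ℤ
  hM : ∀ j i, M j i ≠ 0
  hN : ∀ j i, N j i ≠ 0

namespace AffSys

variable (S : AffSys)

/-- the points of an affine system -/
abbrev Pt : Type := S.Q × (Fin S.k → ℤ)

/-- one application of a rule -/
def Rel (x y : S.Pt) : Prop :=
  ∃ (j : S.J) (u : Fin S.k → ℤ),
    x = (S.src j, S.a j + S.M j * u) ∧ y = (S.tgt j, S.c j + S.N j * u)

/-- the equivalence relation generated by the rules -/
def Eqv : S.Pt → S.Pt → Prop := Relation.EqvGen S.Rel

/-- the generators of the group -/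
abbrev Gen : Type := Fin S.k ⊕ S.Q ⊕ S.J ⊕ Unit

/-- commuting letters -/
def gx (i : Fin S.k) : FreeGroup S.Gen := FreeGroup.of (Sum.inl i)
/-- state letters -/
def gt (q : S.Q) : FreeGroup S.Gen := FreeGroup.of (Sum.inr (Sum.inl q))
/-- stable letters -/
def gr (j : S.J) : FreeGroup S.Gen := FreeGroup.of (Sum.inr (Sum.inr (Sum.inl j)))
/-- the last letter -/
def gk : FreeGroup S.Gen := FreeGroup.of (Sum.inr (Sum.inr (Sum.inr ())))

end AffSys

/-- the product of the powers `x i ^ α i` -/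
def Xpow {G : Type*} [Group G] {k : ℕ} (x : Fin k → G) (α : Fin k → ℤ) : G :=
  (List.ofFn fun i => x i ^ α i).prod

/-- `x^(-α) t x^α` -/
def Tconj {G : Type*} [Group G] {k : ℕ} (x : Fin k → G) (t : G) (α : Fin k → ℤ) : G :=
  (Xpow x α)⁻¹ * t * Xpow x α

namespace AffSys

variable (S : AffSys)

/-- the word attached to a point -/
def tw (p : S.Pt) : FreeGroup S.Gen := Tconj S.gx (S.gt p.1) p.2

/-- the test word attached to a point -/
def ww (p : S.Pt) : FreeGroup S.Gen := com S.gk (S.tw p)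

/-- the relators -/
def Rels (h : S.Q) : Set (FreeGroup S.Gen) :=
  {x | ∃ i i', x = com (S.gx i) (S.gx i')} ∪
  {x | ∃ j i, x = S.gr j * S.gx i ^ S.N j i * (S.gr j)⁻¹ * (S.gx i ^ S.M j i)⁻¹} ∪
  {x | ∃ j, x = S.gr j * S.tw (S.tgt j, S.c j) * (S.gr j)⁻¹ * (S.tw (S.src j, S.a j))⁻¹} ∪
  {x | ∃ j, x = com S.gk (S.gr j)} ∪
  {com S.gk (S.gt h)}

end AffSys

end IrrCay
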