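import Mathlib

/-! # The Baumslag–Solitar group with parameters 2 and 3 -/

set_option autoImplicit false

namespace IrrCay

open Multiplicative

/-- multiplication by `k` on the integers, written multiplicatively -/
def bsHom (k : ℤ) : Multiplicative ℤ →* Multiplicative ℤ :=
  AddMonoidHom.toMultiplicative (AddMonoidHom.mulLeft k)

theorem bsHom_apply (k n : ℤ) : bsHom k (ofAdd n) = ofAdd (k * n) := rfl

theorem bsHom_inj {k : ℤ} (hk : k ≠ 0) : Function.Injective (bsHom k) := by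
  intro a b h
  have h' : k * toAdd a = k * toAdd b := h
  exact toAdd.injective (mul_left_cancel₀ hk h')

theorem two_ne : (2 : ℤ) ≠ 0 := by norm_num
theorem three_ne : (3 : ℤ) ≠ 0 := by norm_num

/-- the isomorphism of the associated subgroups -/
noncomputable def bsIso : (bsHom 2).range ≃* (bsHom 3).range :=
  (MonoidHom.ofInjective (bsHom_inj two_ne)).symm.trans (MonoidHom.ofInjective (bsHom_inj three_ne))

/-- the relator `t a² t⁻¹ a⁻³`, with `a` the generator 0 and `t` the generator 1 -/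
def bsRel : FreeGroup (Fin 2) :=
  FreeGroup.of 1 * FreeGroup.of 0 ^ 2 * (FreeGroup.of 1)⁻¹ * (FreeGroup.of 0 ^ 3)⁻¹

/-- the commutator of `t a t⁻¹` and `a` -/
def bsElt : FreeGroup (Fin 2) :=
  FreeGroup.of 1 * FreeGroup.of 0 * (FreeGroup.of 1)⁻¹ * FreeGroup.of 0 *
    (FreeGroup.of 1 * (FreeGroup.of 0)⁻¹ * (FreeGroup.of 1)⁻¹) * (FreeGroup.of 0)⁻¹

theorem notMem_range (k n : ℤ) (h : ¬ k ∣ n) : ofAdd n ∉ (bsHom k).range := by
  rintro ⟨x, hx⟩
  apply h
  exact ⟨toAdd x, (congrArg toAdd hx).symm⟩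

open HNNExtension in
theorem bsElt_notMem : bsElt ∉ Subgroup.normalClosure ({bsRel} : Set (FreeGroup (Fin 2))) := by
  intro hmem
  let E := HNNExtension (Multiplicative ℤ) (bsHom 2).range (bsHom 3).range bsIso
  let a : E := of (ofAdd 1)
  let f : FreeGroup (Fin 2) →* E := FreeGroup.lift ![a, t]
  have f0 : f (FreeGroup.of 0) = a := by
    change FreeGroup.lift _ _ = _
    rw [FreeGroup.lift_apply_of]; rfl
  have f1 : f (FreeGroup.of 1) = t := by
    change FreeGroup.lift _ _ = _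
    rw [FreeGroup.lift_apply_of]; rfl
  have hrel : t * a ^ 2 = a ^ 3 * t := by
    have h1 : a ^ 2 = of (((⟨bsHom 2 (ofAdd 1), ⟨_, rfl⟩⟩ : (bsHom 2).range) :
        (bsHom 2).range) : Multiplicative ℤ) := by
      rw [← map_pow]; rfl
    have h2 : bsIso ⟨bsHom 2 (ofAdd 1), ⟨_, rfl⟩⟩ = ⟨bsHom 3 (ofAdd 1), ⟨_, rfl⟩⟩ := by
      have : (⟨bsHom 2 (ofAdd 1), ⟨_, rfl⟩⟩ : (bsHom 2).range) =
          MonoidHom.ofInjective (bsHom_inj two_ne) (ofAdd 1) := rfl
      rw [this, bsIso, MulEquiv.trans_apply, MulEquiv.symm_apply_apply]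
      rfl
    rw [h1, t_mul_of, h2, ← map_pow]
    rfl
  have hker : Subgroup.normalClosure ({bsRel} : Set (FreeGroup (Fin 2))) ≤ f.ker := by
    refine Subgroup.normalClosure_le_normal ?_
    rintro _ rfl
    rw [SetLike.mem_coe, MonoidHom.mem_ker]
    simp only [bsRel, map_mul, map_inv, map_pow, f0, f1]
    rw [hrel]; group
  have h1 := hker hmem
  rw [MonoidHom.mem_ker] at h1
  let w : NormalWord.ReducedWord (Multiplicative ℤ) (bsHom 2).range (bsHom 3).range :=
    { head := 1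
      toList := [(1, ofAdd 1), (-1, ofAdd 1), (1, ofAdd (-1)), (-1, ofAdd (-1))]
      chain := by
        simp only [List.isChain_cons_cons, List.isChain_singleton, and_true]
        refine ⟨fun h => ?_, fun h => ?_, fun h => ?_⟩
        · exact absurd h (notMem_range 2 1 (by norm_num))
        · exact absurd h (notMem_range 3 1 (by norm_num))
        · exact absurd h (notMem_range 2 (-1) (by norm_num)) }
  have hw : w.prod bsIso = f bsElt := by
    simp only [bsElt, map_mul, map_inv, f0, f1]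
    simp only [NormalWord.ReducedWord.prod, w, map_one, one_mul, List.map_cons, List.map_nil,
      List.prod_cons, List.prod_nil, mul_one, Units.val_one, zpow_one, Units.val_neg, zpow_neg]
    have : (of (ofAdd (-1)) : E) = a⁻¹ := by rw [← map_inv]; rfl
    change t * a * (t⁻¹ * a * (t * (of (ofAdd (-1)) : E) * (t⁻¹ * (of (ofAdd (-1)) : E)))) = _
    rw [this]; group
  have h2 : w.toList = [] := by
    apply ReducedWord.toList_eq_nil_of_mem_of_range bsIso w
    rw [hw, h1]
    exact one_mem _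
  simp [w] at h2

/-- in a finite group the relation of the group forces the commutator to be trivial -/
theorem bs_finite {G : Type*} [Group G] [Finite G] (f : FreeGroup (Fin 2) →* G)
    (hf : f bsRel = 1) : f bsElt = 1 := by
  set x := f (FreeGroup.of 0) with hx
  set y := f (FreeGroup.of 1) with hy
  have h1 : y * x ^ 2 * y⁻¹ = x ^ 3 := by
    have : y * x ^ 2 * y⁻¹ * (x ^ 3)⁻¹ = 1 := by
      rw [← hf]; simp only [bsRel, map_mul, map_inv, map_pow, hx, hy]
    exact mul_inv_eq_one.1 this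
  have h2 : orderOf (x ^ 2) = orderOf (x ^ 3) := by
    rw [← h1]
    exact (orderOf_injective (MulAut.conj y).toMonoidHom (MulAut.conj y).injective _).symm
  have hpos : 0 < orderOf x := orderOf_pos x
  rw [orderOf_pow, orderOf_pow] at h2
  have h3 : Nat.gcd (orderOf x) 2 = Nat.gcd (orderOf x) 3 := by
    have d2 : Nat.gcd (orderOf x) 2 ∣ orderOf x := Nat.gcd_dvd_left _ _
    have d3 : Nat.gcd (orderOf x) 3 ∣ orderOf x := Nat.gcd_dvd_left _ _
    have e2 := Nat.div_mul_cancel d2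
    have e3 := Nat.div_mul_cancel d3
    rw [h2] at e2
    have : 0 < orderOf x / Nat.gcd (orderOf x) 3 :=
      Nat.div_pos (Nat.le_of_dvd hpos d3) (Nat.gcd_pos_of_pos_left _ hpos)
    exact Nat.eq_of_mul_eq_mul_left this (e2.trans e3.symm)
  have h4 : Nat.gcd (orderOf x) 2 = 1 := by
    have k2 : Nat.gcd (orderOf x) 2 ∣ 2 := Nat.gcd_dvd_right _ _
    have k3 : Nat.gcd (orderOf x) 2 ∣ 3 := by rw [h3]; exact Nat.gcd_dvd_right _ _
    have := Nat.dvd_gcd k2 k3
    simpa using this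
  have h5 : x ∈ Subgroup.zpowers (x ^ 2) := by
    rw [mem_zpowers_pow_iff, Nat.gcd_comm]
    exact h4
  obtain ⟨n, hn⟩ := Subgroup.mem_zpowers_iff.1 h5
  have h6 : y * x * y⁻¹ = (x ^ 3) ^ n := by
    calc y * x * y⁻¹ = y * (x ^ 2) ^ n * y⁻¹ := by rw [hn]
      _ = (y * x ^ 2 * y⁻¹) ^ n := by rw [conj_zpow]
      _ = (x ^ 3) ^ n := by rw [h1]
  have h7 : y * x⁻¹ * y⁻¹ = ((x ^ 3) ^ n)⁻¹ := by
    rw [← h6]; group
  have h8 : f bsElt = y * x * y⁻¹ * x * (y * x⁻¹ * y⁻¹) * x⁻¹ := by
    simp only [bsElt, map_mul, map_inv, hx, hy]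
  have h9 : Commute ((x ^ 3) ^ n) x := ((Commute.refl x).pow_left 3).zpow_left n
  rw [h8, h6, h7, h9.eq]; group

end IrrCay
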