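import Pool.Agent.IrrCay.AffDefs

/-! # The base group of an affine system -/

set_option autoImplicit false

namespace IrrCay

section kill

variable {α β : Type}

open Classical in
/-- kill the generators outside `P` -/
noncomputable def bgKill (P : Set α) : FreeGroup α →* FreeGroup α :=
  FreeGroup.lift fun a => if a ∈ P then FreeGroup.of a else 1

theorem bgKill_of_mem {P : Set α} {a : α} (h : a ∈ P) :
    bgKill P (FreeGroup.of a) = FreeGroup.of a := by
  simp [bgKill, h]

theorem bgKill_of_not {P : Set α} {a : α} (h : a ∉ P) : bgKill P (FreeGroup.of a) = 1 := by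
  simp [bgKill, h]

theorem mem_bg (P : Set α) (w : FreeGroup α) :
    w ∈ Subgroup.closure (FreeGroup.of '' P) ↔ bgKill P w = w := by
  constructor
  · intro h
    have h2 : Subgroup.closure (FreeGroup.of '' P) ≤ (bgKill P).eqLocus (MonoidHom.id _) := by
      rw [Subgroup.closure_le]
      rintro _ ⟨a, ha, rfl⟩
      exact bgKill_of_mem ha
    exact h2 h
  · intro h
    have h2 : ∀ w : FreeGroup α, bgKill P w ∈ Subgroup.closure (FreeGroup.of '' P) := by
      intro w
      induction w using FreeGroup.induction_on with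
      | C1 => rw [map_one]; exact one_mem _
      | of a =>
        by_cases ha : a ∈ P
        · rw [bgKill_of_mem ha]
          exact Subgroup.subset_closure ⟨a, ha, rfl⟩
        · rw [bgKill_of_not ha]
          exact one_mem _
      | inv_of a ih => rw [map_inv]; exact inv_mem ih
      | mul x y hx hy => rw [map_mul]; exact mul_mem hx hy
    rw [← h]
    exact h2 w

theorem bgKill_map (f : α → β) (P : Set β) (w : FreeGroup α) :
    bgKill P (FreeGroup.map f w) = FreeGroup.map f (bgKill (f ⁻¹' P) w) := by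
  have : (bgKill P).comp (FreeGroup.map f) = (FreeGroup.map f).comp (bgKill (f ⁻¹' P)) := by
    ext a
    rw [MonoidHom.comp_apply, MonoidHom.comp_apply, FreeGroup.map.of]
    by_cases ha : f a ∈ P
    · rw [bgKill_of_mem ha, bgKill_of_mem (show a ∈ f ⁻¹' P from ha), FreeGroup.map.of]
    · rw [bgKill_of_not ha, bgKill_of_not (show a ∉ f ⁻¹' P from ha), map_one]
  exact DFunLike.congr_fun this w

theorem mem_bg_map (f : α → β) (hf : Function.Injective f) (P : Set β) (w : FreeGroup α) :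
    FreeGroup.map f w ∈ Subgroup.closure (FreeGroup.of '' P) ↔
      w ∈ Subgroup.closure (FreeGroup.of '' (f ⁻¹' P)) := by
  rw [mem_bg, mem_bg, bgKill_map, (FreeGroup.map_injective hf).eq_iff]

theorem of_mem_bg (P : Set α) (a : α) :
    FreeGroup.of a ∈ Subgroup.closure (FreeGroup.of '' P) ↔ a ∈ P := by
  constructor
  · intro h
    by_contra ha
    rw [mem_bg, bgKill_of_not ha] at h
    exact FreeGroup.of_ne_one a h.symm
  · exact fun h => Subgroup.subset_closure ⟨a, h, rfl⟩

end kill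

/-- the shift by `-v` in the second coordinate -/
def bgShift (k : ℕ) (Q : Type) : Multiplicative (Fin k → ℤ) →* Equiv.Perm (Q × (Fin k → ℤ)) where
  toFun v :=
    { toFun := fun p => (p.1, p.2 - v.toAdd)
      invFun := fun p => (p.1, p.2 + v.toAdd)
      left_inv := fun p => by simp
      right_inv := fun p => by simp }
  map_one' := by ext p <;> simp
  map_mul' u v := by
    ext p
    · simp
    · simp [sub_sub, add_comm]

/-- the action on the free group -/
def bgAct (k : ℕ) (Q : Type) :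
    Multiplicative (Fin k → ℤ) →* MulAut (FreeGroup (Q × (Fin k → ℤ))) where
  toFun v := FreeGroup.freeGroupCongr (bgShift k Q v)
  map_one' := by
    rw [map_one]
    exact FreeGroup.freeGroupCongr_refl
  map_mul' u v := by
    rw [map_mul]
    exact (FreeGroup.freeGroupCongr_trans (bgShift k Q v) (bgShift k Q u)).symm

theorem bgAct_of (k : ℕ) (Q : Type) (v : Multiplicative (Fin k → ℤ)) (q : Q) (α : Fin k → ℤ) :
    bgAct k Q v (FreeGroup.of (q, α)) = FreeGroup.of (q, α - v.toAdd) := by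
  show FreeGroup.map (bgShift k Q v) (FreeGroup.of (q, α)) = _
  rw [FreeGroup.map.of]
  rfl

/-- the base group -/
abbrev BG (k : ℕ) (Q : Type) : Type :=
  FreeGroup (Q × (Fin k → ℤ)) ⋊[bgAct k Q] Multiplicative (Fin k → ℤ)

/-- multiplication by `N` -/
def bgMul {k : ℕ} (N : Fin k → ℤ) : Multiplicative (Fin k → ℤ) →* Multiplicative (Fin k → ℤ) :=
  AddMonoidHom.toMultiplicative (AddMonoidHom.mulLeft N)

theorem bgMul_apply {k : ℕ} (N : Fin k → ℤ) (v : Multiplicative (Fin k → ℤ)) :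
    (bgMul N v).toAdd = N * v.toAdd := rfl

theorem bgMul_inj {k : ℕ} {N : Fin k → ℤ} (hN : ∀ i, N i ≠ 0) : Function.Injective (bgMul N) := by
  intro u v h
  have h2 := congrArg Multiplicative.toAdd h
  rw [bgMul_apply, bgMul_apply] at h2
  apply Multiplicative.toAdd.injective
  funext i
  have h3 := congrFun h2 i
  exact mul_left_cancel₀ (hN i) h3

/-- the map of indices -/
def bgF {k : ℕ} {Q' Q : Type} (g : Q' → Q) (c N : Fin k → ℤ) (p : Q' × (Fin k → ℤ)) :
    Q × (Fin k → ℤ) := (g p.1, c + N * p.2)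

theorem bgF_inj {k : ℕ} {Q : Type} (g : Unit → Q) (c : Fin k → ℤ) {N : Fin k → ℤ}
    (hN : ∀ i, N i ≠ 0) : Function.Injective (bgF g c N) := by
  rintro ⟨⟨⟩, u⟩ ⟨⟨⟩, v⟩ h
  have h2 : c + N * u = c + N * v := congrArg Prod.snd h
  have h3 := add_left_cancel h2
  congr 1
  funext i
  exact mul_left_cancel₀ (hN i) (congrFun h3 i)

/-- the homomorphism between base groups -/
def bgMap {k : ℕ} {Q' Q : Type} (g : Q' → Q) (c N : Fin k → ℤ) : BG k Q' →* BG k Q :=
  SemidirectProduct.map (FreeGroup.map (bgF g c N)) (bgMul N) (by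
    intro v
    ext ⟨q, α⟩
    show FreeGroup.map (bgF g c N) (bgAct k Q' v (FreeGroup.of (q, α))) =
      bgAct k Q (bgMul N v) (FreeGroup.map (bgF g c N) (FreeGroup.of (q, α)))
    rw [bgAct_of, FreeGroup.map.of, FreeGroup.map.of]
    show _ = bgAct k Q (bgMul N v) (FreeGroup.of (g q, c + N * α))
    rw [bgAct_of, bgMul_apply]
    congr 1
    show (g q, c + N * (α - v.toAdd)) = (g q, c + N * α - N * v.toAdd)
    rw [mul_sub, add_sub_assoc])

theorem bgMap_inj {k : ℕ} {Q : Type} (g : Unit → Q) (c : Fin k → ℤ) {N : Fin k → ℤ}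
    (hN : ∀ i, N i ≠ 0) : Function.Injective (bgMap g c N) := by
  intro x y h
  have h1 := congrArg SemidirectProduct.left h
  have h2 := congrArg SemidirectProduct.right h
  ext1
  · exact FreeGroup.map_injective (bgF_inj g c hN) h1
  · exact bgMul_inj hN h2

theorem bgMap_inr {k : ℕ} {Q' Q : Type} (g : Q' → Q) (c N : Fin k → ℤ)
    (v : Multiplicative (Fin k → ℤ)) :
    bgMap g c N (SemidirectProduct.inr v) = SemidirectProduct.inr (bgMul N v) :=
  SemidirectProduct.map_inr _ _ _ _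

theorem bgMap_inl {k : ℕ} {Q' Q : Type} (g : Q' → Q) (c N : Fin k → ℤ)
    (w : FreeGroup (Q' × (Fin k → ℤ))) :
    bgMap g c N (SemidirectProduct.inl w) = SemidirectProduct.inl (FreeGroup.map (bgF g c N) w) :=
  SemidirectProduct.map_inl _ _ _ _

/-- the subgroup -/
def bgS {k : ℕ} {Q : Type} (P : Set (Q × (Fin k → ℤ))) : Subgroup (BG k Q) :=
  (Subgroup.closure (FreeGroup.of '' P)).map SemidirectProduct.inl

theorem mem_bgS {k : ℕ} {Q : Type} (P : Set (Q × (Fin k → ℤ))) (z : BG k Q) :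
    z ∈ bgS P ↔ z.right = 1 ∧ z.left ∈ Subgroup.closure (FreeGroup.of '' P) := by
  constructor
  · rintro ⟨w, hw, rfl⟩
    exact ⟨rfl, hw⟩
  · rintro ⟨h1, h2⟩
    refine ⟨z.left, h2, ?_⟩
    ext1
    · rfl
    · exact h1.symm

theorem bgMap_mem {k : ℕ} {Q : Type} (g : Unit → Q) (c : Fin k → ℤ) {N : Fin k → ℤ}
    (hN : ∀ i, N i ≠ 0) (P : Set (Q × (Fin k → ℤ))) (z : BG k Unit) :
    bgMap g c N z ∈ bgS P ↔ z ∈ bgS (bgF g c N ⁻¹' P) := by
  rw [mem_bgS, mem_bgS]
  show bgMul N z.right = 1 ∧ FreeGroup.map (bgF g c N) z.left ∈ _ ↔ _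
  rw [mem_bg_map _ (bgF_inj g c hN)]
  refine and_congr_left fun _ => ?_
  constructor
  · intro h
    exact bgMul_inj hN (h.trans (map_one _).symm)
  · intro h
    rw [h, map_one]

/-- the generators of `ℤ ^ k` -/
def bgx (k : ℕ) (Q : Type) (i : Fin k) : BG k Q :=
  SemidirectProduct.inr (Multiplicative.ofAdd (Pi.single i 1))

/-- the state letters -/
def bgt (k : ℕ) (Q : Type) (q : Q) : BG k Q := SemidirectProduct.inl (FreeGroup.of (q, 0))

theorem bgx_pow (k : ℕ) (Q : Type) (i : Fin k) (n : ℤ) :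
    bgx k Q i ^ n = SemidirectProduct.inr (Multiplicative.ofAdd (Pi.single i n)) := by
  rw [bgx, ← map_zpow, ← ofAdd_zsmul]
  congr 2
  rw [← Pi.single_smul]
  simp

theorem bgx_Xpow (k : ℕ) (Q : Type) (α : Fin k → ℤ) :
    Xpow (bgx k Q) α = SemidirectProduct.inr (Multiplicative.ofAdd α) := by
  rw [Xpow]
  simp only [bgx_pow]
  have h0 : (List.ofFn fun i : Fin k => (SemidirectProduct.inr
      (Multiplicative.ofAdd (Pi.single i (α i) : Fin k → ℤ)) : BG k Q)) =
      (List.ofFn fun i : Fin k => Multiplicative.ofAdd (Pi.single i (α i) : Fin k → ℤ)).map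
        (SemidirectProduct.inr : _ →* BG k Q) := by
    rw [List.map_ofFn]
    rfl
  rw [h0, ← map_list_prod, List.prod_ofFn]
  congr 1
  rw [← ofAdd_sum]
  congr 1
  exact Finset.univ_sum_single α

theorem bg_Tconj (k : ℕ) (Q : Type) (q : Q) (α : Fin k → ℤ) :
    Tconj (bgx k Q) (bgt k Q q) α = SemidirectProduct.inl (FreeGroup.of (q, α)) := by
  rw [Tconj, bgx_Xpow, ← map_inv, bgt]
  have h := SemidirectProduct.inl_aut (φ := bgAct k Q) (Multiplicative.ofAdd α)⁻¹
    (FreeGroup.of (q, 0))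
  rw [bgAct_of] at h
  rw [inv_inv] at h
  rw [← h]
  congr 2
  show (q, (0 : Fin k → ℤ) - -α) = (q, α)
  rw [zero_sub, neg_neg]

theorem base_group (S : AffSys) (h : S.Q) :
    ∃ (B₀ : Type) (_ : Group B₀) (S₀ : Subgroup B₀) (x : Fin S.k → B₀) (t : S.Q → B₀)
      (D : S.J → Type) (_ : ∀ j, Group (D j)) (θ θ' : ∀ j, D j →* B₀),
      (∀ j, Function.Injective (θ j)) ∧ (∀ j, Function.Injective (θ' j)) ∧
      (∀ j y, θ j y ∈ S₀ ↔ θ' j y ∈ S₀) ∧
      (∀ i i', Commute (x i) (x i')) ∧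
      (∀ q α, Tconj x (t q) α ∈ S₀ ↔ S.Eqv (q, α) (h, 0)) ∧
      (∀ j i, ∃ y, θ j y = x i ^ S.N j i ∧ θ' j y = x i ^ S.M j i) ∧
      (∀ j, ∃ y, θ j y = Tconj x (t (S.tgt j)) (S.c j) ∧
        θ' j y = Tconj x (t (S.src j)) (S.a j)) := by
  refine ⟨BG S.k S.Q, inferInstance, bgS {p | S.Eqv p (h, 0)}, bgx S.k S.Q, bgt S.k S.Q,
    fun _ => BG S.k Unit, fun _ => inferInstance,
    fun j => bgMap (fun _ => S.tgt j) (S.c j) (S.N j),
    fun j => bgMap (fun _ => S.src j) (S.a j) (S.M j), ?_, ?_, ?_, ?_, ?_, ?_, ?_⟩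
  · exact fun j => bgMap_inj _ _ (S.hN j)
  · exact fun j => bgMap_inj _ _ (S.hM j)
  · intro j y
    rw [bgMap_mem _ _ (S.hN j), bgMap_mem _ _ (S.hM j)]
    have e : bgF (fun _ : Unit => S.tgt j) (S.c j) (S.N j) ⁻¹' {p | S.Eqv p (h, 0)} =
        bgF (fun _ : Unit => S.src j) (S.a j) (S.M j) ⁻¹' {p | S.Eqv p (h, 0)} := by
      ext ⟨_, u⟩
      have hr : S.Rel (S.src j, S.a j + S.M j * u) (S.tgt j, S.c j + S.N j * u) :=
        ⟨j, u, rfl, rfl⟩
      have h1 : S.Eqv (S.src j, S.a j + S.M j * u) (S.tgt j, S.c j + S.N j * u) :=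
        Relation.EqvGen.rel _ _ hr
      show S.Eqv (S.tgt j, S.c j + S.N j * u) (h, 0) ↔ S.Eqv (S.src j, S.a j + S.M j * u) (h, 0)
      exact ⟨fun h2 => Relation.EqvGen.trans _ _ _ h1 h2,
        fun h2 => Relation.EqvGen.trans _ _ _ (Relation.EqvGen.symm _ _ h1) h2⟩
    rw [e]
  · intro i i'
    rw [bgx, bgx]
    exact (Commute.all (Multiplicative.ofAdd (Pi.single i 1 : Fin S.k → ℤ)) _).map
      (SemidirectProduct.inr : _ →* BG S.k S.Q)
  · intro q α
    rw [bg_Tconj, mem_bgS]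
    show (1 : Multiplicative (Fin S.k → ℤ)) = 1 ∧ FreeGroup.of (q, α) ∈ _ ↔ _
    rw [of_mem_bg]
    exact ⟨fun h => h.2, fun h => ⟨rfl, h⟩⟩
  · intro j i
    refine ⟨SemidirectProduct.inr (Multiplicative.ofAdd (Pi.single i 1)), ?_, ?_⟩
    · rw [bgx_pow, bgMap_inr]
      congr 1
      apply Multiplicative.toAdd.injective
      show S.N j * Pi.single i 1 = Pi.single i (S.N j i)
      funext l
      by_cases hl : l = i
      · subst hl; simp
      · simp [hl]
    · rw [bgx_pow, bgMap_inr]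
      congr 1
      apply Multiplicative.toAdd.injective
      show S.M j * Pi.single i 1 = Pi.single i (S.M j i)
      funext l
      by_cases hl : l = i
      · subst hl; simp
      · simp [hl]
  · intro j
    refine ⟨SemidirectProduct.inl (FreeGroup.of ((), 0)), ?_, ?_⟩
    · rw [bg_Tconj, bgMap_inl, FreeGroup.map.of]
      congr 2
      show (S.tgt j, S.c j + S.N j * 0) = (S.tgt j, S.c j)
      rw [mul_zero, add_zero]
    · rw [bg_Tconj, bgMap_inl, FreeGroup.map.of]
      congr 2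
      show (S.src j, S.a j + S.M j * 0) = (S.src j, S.a j)
      rw [mul_zero, add_zero]

end IrrCay
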