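import Mathlib

/-! # The block group `A₄ × Z₃`

`A4` is the alternating group on four letters, presented as `V₄ ⋊ Z₃` by tables. -/

set_option autoImplicit false

namespace IrrCay

/-- addition in the Klein four group `Fin 4` -/
def vadd : Fin 4 → Fin 4 → Fin 4 :=
  ![![0, 1, 2, 3], ![1, 0, 3, 2], ![2, 3, 0, 1], ![3, 2, 1, 0]]

/-- the cyclic permutation of the three involutions -/
def vrot : Fin 3 → Fin 4 → Fin 4 :=
  ![![0, 1, 2, 3], ![0, 2, 3, 1], ![0, 3, 1, 2]]

/-- the alternating group on four letters -/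
@[ext]
structure A4 where
  v : Fin 4
  a : Fin 3
deriving DecidableEq, Fintype

instance : Mul A4 := ⟨fun x y => ⟨vadd x.v (vrot x.a y.v), x.a + y.a⟩⟩
instance : One A4 := ⟨⟨0, 0⟩⟩
instance : Inv A4 := ⟨fun x => ⟨vrot (-x.a) x.v, -x.a⟩⟩

set_option maxRecDepth 100000 in
instance : Group A4 where
  mul_assoc := by decide +kernel
  one_mul := by decide +kernel
  mul_one := by decide +kernel
  inv_mul_cancel := by decide +kernel

/-- the projection of `A4` to `Z₃` -/
def A4.chi : A4 →* Multiplicative (ZMod 3) where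
  toFun x := Multiplicative.ofAdd (x.a : ZMod 3)
  map_one' := rfl
  map_mul' := by decide +kernel

/-- the group of order 36 -/
abbrev B : Type := A4 × Multiplicative (ZMod 3)

def aP : A4 := ⟨0, 1⟩
def aQ : A4 := ⟨1, 2⟩

def bP : B := (aP, 1)
def bQ : B := (aQ, 1)
def bR : B := (1, Multiplicative.ofAdd 1)
/-- the transport element -/
def bz : B := bP * bQ⁻¹ * bR

theorem aP_cube : aP ^ 3 = 1 := by decide +kernel
theorem aQ_cube : aQ ^ 3 = 1 := by decide +kernel
theorem aPQ_sq : (aP * aQ) ^ 2 = 1 := by decide +kernel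
theorem chi_aP : A4.chi aP = Multiplicative.ofAdd 1 := by decide +kernel
theorem chi_aQ : A4.chi aQ = Multiplicative.ofAdd (-1) := by decide +kernel
theorem bP_cube : bP ^ 3 = 1 := by decide +kernel
theorem bQ_cube : bQ ^ 3 = 1 := by decide +kernel
theorem bR_cube : bR ^ 3 = 1 := by decide +kernel
theorem bPQ_sq : (bP * bQ) ^ 2 = 1 := by decide +kernel
theorem bz_cube : bz ^ 3 = 1 := by decide +kernel
theorem bPR : bP * bR = bR * bP := by decide +kernel
theorem bQR : bQ * bR = bR * bQ := by decide +kernel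

/-- words for the elements of `B` -/
theorem B_word : ∀ g : B, ∃ i j k l m : Fin 3,
    g = bP ^ (i : ℕ) * bQ ^ (j : ℕ) * bP ^ (k : ℕ) * bQ ^ (l : ℕ) * bR ^ (m : ℕ) := by
  decide +kernel

theorem B_ind {p : B → Prop} (h1 : p 1) (hP : ∀ g, p g → p (bP * g))
    (hQ : ∀ g, p g → p (bQ * g)) (hR : ∀ g, p g → p (bR * g)) : ∀ g, p g := by
  have hpow : ∀ s : B, (∀ g, p g → p (s * g)) → ∀ (n : ℕ) g, p g → p (s ^ n * g) := by
    intro s hs n
    induction n with
    | zero => intro g hg; simpa using hg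
    | succ n ih => intro g hg; rw [pow_succ', mul_assoc]; exact hs _ (ih g hg)
  intro g
  obtain ⟨i, j, k, l, m, rfl⟩ := B_word g
  have := hpow bP hP i _ (hpow bQ hQ j _ (hpow bP hP k _ (hpow bQ hQ l _ (hpow bR hR m _ h1))))
  simpa [mul_assoc] using this

end IrrCay
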