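import Pool.Agent.IrrCay.WalkDefs
import Pool.Agent.MP_abf483_lc.RE

/-! # The pattern is recursively enumerable -/

set_option autoImplicit false

namespace IrrCay

open Pool.Agent.MP_abf483_lc

/-- the coded graph on the natural numbers -/
def YN (p : ℕ × List (ℕ × ℕ)) : SimpleGraph ℕ where
  Adj i j := i < p.1 ∧ j < p.1 ∧ i ≠ j ∧ ((i, j) ∈ p.2 ∨ (j, i) ∈ p.2)
  symm := ⟨fun _ _ h => ⟨h.2.1, h.1, h.2.2.1.symm, h.2.2.2.symm⟩⟩
  loopless := ⟨fun _ h => h.2.2.1 rfl⟩

noncomputable instance primB : Primcodable (B → ℕ) :=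
  Primcodable.ofEquiv (Fin (Fintype.card B) → ℕ)
    (Equiv.arrowCongr (Fintype.equivFin B) (Equiv.refl ℕ))

section cp

variable {α : Type} [Primcodable α]

theorem cp_true (c : Prop) : ComputablePred fun _ : α => c := by
  classical
  by_cases hc : c
  · exact (cp_bool (Computable.const true)).of_eq fun a => by simp [hc]
  · exact (cp_bool (Computable.const false)).of_eq fun a => by simp [hc]

theorem cp_imp_const {c : Prop} {p : α → Prop} (h : c → ComputablePred p) :
    ComputablePred fun a => c → p a := by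
  by_cases hc : c
  · exact (h hc).of_eq fun a => ⟨fun h _ => h, fun h => h hc⟩
  · exact (cp_true True).of_eq fun a => ⟨fun _ h => absurd h hc, fun _ => trivial⟩

theorem cp_fin {ι : Type} [Finite ι] {p : ι → α → Prop} (h : ∀ i, ComputablePred (p i)) :
    ComputablePred fun a => ∀ i, p i a := by
  classical
  have := Fintype.ofFinite ι
  have key : ∀ s : Finset ι, ComputablePred fun a => ∀ i ∈ s, p i a := by
    intro s
    induction s using Finset.induction_on with
    | empty => exact (cp_true True).of_eq fun a => by simp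
    | insert i s hi ih =>
      exact (cp_and (h i) ih).of_eq fun a => by simp
  exact (key Finset.univ).of_eq fun a => by simp

theorem cp_mem {β : Type} [Primcodable β] {u : α → β} {L : α → List β}
    (hu : Computable u) (hL : Computable L) : ComputablePred fun a => u a ∈ L a := by
  classical
  have h1 : ComputablePred fun a => ∃ i < (L a).length, (L a)[i]? = some (u a) := by
    refine cp_bex (p := fun a i => (L a)[i]? = some (u a)) ?_
      ((Primrec.list_length.to_comp).comp hL)
    exact cp_eq ((Primrec.list_getElem?.to_comp).comp (hL.comp Computable.fst) Computable.snd)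
      (Computable.option_some.comp (hu.comp Computable.fst))
  refine h1.of_eq fun a => ?_
  rw [List.mem_iff_getElem?]
  constructor
  · rintro ⟨i, _, h⟩
    exact ⟨i, h⟩
  · rintro ⟨i, h⟩
    refine ⟨i, ?_, h⟩
    by_contra h2
    rw [List.getElem?_eq_none (by omega)] at h
    exact absurd h (by simp)

theorem cp_adj {P : α → ℕ × List (ℕ × ℕ)} {u v : α → ℕ} (hP : Computable P)
    (hu : Computable u) (hv : Computable v) :
    ComputablePred fun a => (YN (P a)).Adj (u a) (v a) := by
  have h1 : Computable fun a => (P a).1 := Computable.fst.comp hP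
  have h2 : Computable fun a => (P a).2 := Computable.snd.comp hP
  exact cp_and (cp_lt hu h1) (cp_and (cp_lt hv h1) (cp_and (cp_not (cp_eq hu hv))
    (cp_or (cp_mem (Computable.pair hu hv) h2) (cp_mem (Computable.pair hv hu) h2))))

theorem ev {m : ℕ} {x : α → Fin m → B → ℕ} (hx : Computable x) (i : Fin m) (g : B) :
    Computable fun a => x a i g := by
  have h1 : Primrec fun f : Fin m → B → ℕ => f i :=
    Primrec.fin_app.comp Primrec.id (Primrec.const i)
  have h2 : Primrec fun f : B → ℕ => f g := by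
    have h3 : Primrec (Equiv.arrowCongr (Fintype.equivFin B) (Equiv.refl ℕ)) := Primrec.of_equiv
    have h4 : Primrec fun f : Fin (Fintype.card B) → ℕ => f (Fintype.equivFin B g) :=
      Primrec.fin_app.comp Primrec.id (Primrec.const _)
    refine (h4.comp h3).of_eq fun f => ?_
    simp
  exact (h2.comp h1).to_comp.comp hx

theorem cp_row {m : ℕ} {P : α → ℕ × List (ℕ × ℕ)} {x : α → Fin m → B → ℕ} (hP : Computable P)
    (hx : Computable x) : ComputablePred fun a => RowOK (YN (P a)) (x a) := by
  have h1 : ComputablePred fun a => ∀ (i : Fin m) (g g' : B), x a i g = x a i g' → g = g' :=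
    cp_fin fun i => cp_fin fun g => cp_fin fun g' => cp_imp (cp_eq (ev hx i g) (ev hx i g'))
      (cp_true _)
  have h2 : ComputablePred fun a => ∀ (i : Fin m) (s : B), s ∈ [bP, bQ, bR] → ∀ g : B,
      (YN (P a)).Adj (x a i g) (x a i (s * g)) :=
    cp_fin fun i => cp_fin fun s => cp_imp_const fun _ => cp_fin fun g =>
      cp_adj hP (ev hx i g) (ev hx i (s * g))
  have h3 : ComputablePred fun a => ∀ i i' : Fin m, x a i 1 = x a i' 1 :=
    cp_fin fun i => cp_fin fun i' => cp_eq (ev hx i 1) (ev hx i' 1)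
  refine (cp_and h1 (cp_and h2 h3)).of_eq fun a => ?_
  constructor
  · rintro ⟨a1, a2, a3⟩
    exact ⟨fun i g g' h => a1 i g g' h, a2, a3⟩
  · intro h
    exact ⟨fun i g g' e => h.inj i e, h.adj, h.base⟩

theorem cp_tri {m : ℕ} (j : Fin m) {P : α → ℕ × List (ℕ × ℕ)} {x y w : α → Fin m → B → ℕ}
    (hP : Computable P) (hx : Computable x) (hy : Computable y) (hw : Computable w) :
    ComputablePred fun a => TriOK (YN (P a)) j (x a) (y a) (w a) := by
  have h1 : ComputablePred fun a => ∀ g : B, y a j g = x a j (g * bR) :=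
    cp_fin fun g => cp_eq (ev hy j g) (ev hx j _)
  have h2 : ComputablePred fun a => ∀ g : B, w a j g = x a j (g * bR * bR) :=
    cp_fin fun g => cp_eq (ev hw j g) (ev hx j _)
  have h3 : ComputablePred fun a => ∀ i : Fin m, i ≠ j → ∀ s : B, s ∈ pos →
      (YN (P a)).Adj (x a i s) (y a i s) ∧ (YN (P a)).Adj (y a i s) (w a i s) ∧
        (YN (P a)).Adj (w a i s) (x a i s) :=
    cp_fin fun i => cp_imp_const fun _ => cp_fin fun s => cp_imp_const fun _ =>
      cp_and (cp_adj hP (ev hx i s) (ev hy i s)) (cp_and (cp_adj hP (ev hy i s) (ev hw i s))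
        (cp_adj hP (ev hw i s) (ev hx i s)))
  have h4 : ComputablePred fun a => ∀ i : Fin m, i ≠ j → ∀ s : B, s ∈ pos →
      ∀ c : B, c ∈ nbs → x a i (c * s) ≠ y a i s ∧ x a i (c * s) ≠ w a i s ∧
      y a i (c * s) ≠ x a i s ∧
      y a i (c * s) ≠ w a i s ∧ w a i (c * s) ≠ x a i s ∧ w a i (c * s) ≠ y a i s :=
    cp_fin fun i => cp_imp_const fun _ => cp_fin fun s => cp_imp_const fun _ =>
      cp_fin fun c => cp_imp_const fun _ =>
      cp_and (cp_not (cp_eq (ev hx i (c * s)) (ev hy i s)))
        (cp_and (cp_not (cp_eq (ev hx i (c * s)) (ev hw i s)))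
          (cp_and (cp_not (cp_eq (ev hy i (c * s)) (ev hx i s)))
            (cp_and (cp_not (cp_eq (ev hy i (c * s)) (ev hw i s)))
              (cp_and (cp_not (cp_eq (ev hw i (c * s)) (ev hx i s)))
                (cp_not (cp_eq (ev hw i (c * s)) (ev hy i s)))))))
  refine (cp_and h1 (cp_and h2 (cp_and h3 h4))).of_eq fun a => ?_
  constructor
  · rintro ⟨a1, a2, a3, a4⟩
    exact ⟨a1, a2, a3, a4⟩
  · intro h
    exact ⟨h.self1, h.self2, h.adj, h.dist⟩

end cp

/-- a step with its witness -/
def StepW {m : ℕ} {V : Type} (Y : SimpleGraph V) (a : Fin m × Bool) (x y w : Fin m → B → V) :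
    Prop :=
  RowOK Y y ∧ RowOK Y w ∧
    ((a.2 = true ∧ TriOK Y a.1 x y w) ∨ (a.2 = false ∧ TriOK Y a.1 y x w))

theorem cp_step {α : Type} [Primcodable α] {m : ℕ} (b : Fin m × Bool)
    {P : α → ℕ × List (ℕ × ℕ)} {x y w : α → Fin m → B → ℕ}
    (hP : Computable P) (hx : Computable x) (hy : Computable y) (hw : Computable w) :
    ComputablePred fun a => StepW (YN (P a)) b (x a) (y a) (w a) :=
  cp_and (cp_row hP hy) (cp_and (cp_row hP hw) (cp_or (cp_and (cp_true _) (cp_tri b.1 hP hx hy hw))
    (cp_and (cp_true _) (cp_tri b.1 hP hy hx hw))))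

/-- a walk given by a function -/
theorem walk_iff {m : ℕ} {V : Type} (Y : SimpleGraph V) (x : Fin m → B → V)
    (l : List (Fin m × Bool)) (y : Fin m → B → V) :
    Walk Y x l y ↔ ∃ f : ℕ → (Fin m → B → V) × (Fin m → B → V), RowOK Y x ∧ y = (f 0).1 ∧
      x = (f l.length).1 ∧ ∀ j < l.length, ∀ a, l[j]? = some a →
        StepW Y a (f (j + 1)).1 (f j).1 (f j).2 := by
  constructor
  · intro h
    induction h with
    | nil hx => exact ⟨fun _ => (x, x), hx, rfl, rfl, fun j hj => absurd hj (Nat.not_lt_zero j)⟩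
    | @cons l y a z h1 h2 h3 ih =>
      obtain ⟨f, f1, f2, f3, f4⟩ := ih
      obtain ⟨w, hw, h4⟩ := h3
      refine ⟨fun n => Nat.casesOn n (z, w) f, f1, rfl, f3, ?_⟩
      intro j hj b hb
      cases j with
      | zero =>
        rw [List.getElem?_cons_zero] at hb
        cases hb
        show StepW Y a (f 0).1 z w
        rw [← f2]
        exact ⟨h2, hw, h4⟩
      | succ j =>
        rw [List.getElem?_cons_succ] at hb
        exact f4 j (by simpa using hj) b hb
  · rintro ⟨f, f1, f2, f3, f4⟩
    induction l generalizing f y with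
    | nil =>
      have : y = x := by rw [f2, f3]; rfl
      rw [this]
      exact Walk.nil f1
    | cons a l ih =>
      have h1 : Walk Y x l (f 1).1 := by
        refine ih (f 1).1 (fun n => f (n + 1)) rfl f3 ?_
        intro j hj b hb
        exact f4 (j + 1) (by simpa using hj) b (by rw [List.getElem?_cons_succ]; exact hb)
      have h2 := f4 0 (by simp) a (by simp)
      rw [f2]
      exact Walk.cons h1 h2.1 ⟨_, h2.2.1, h2.2.2⟩

/-- a walk given by a list -/
theorem walk_iff' {m : ℕ} {V : Type} (Y : SimpleGraph V) (x : Fin m → B → V)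
    (r0 : (Fin m → B → V) × (Fin m → B → V))
    (l : List (Fin m × Bool)) (y : Fin m → B → V) :
    Walk Y x l y ↔ ∃ c : List ((Fin m → B → V) × (Fin m → B → V)), RowOK Y x ∧
      y = (c.getD 0 r0).1 ∧
      x = (c.getD l.length r0).1 ∧ ∀ j < l.length, ∀ a, l[j]? = some a →
        StepW Y a (c.getD (j + 1) r0).1 (c.getD j r0).1 (c.getD j r0).2 := by
  rw [walk_iff]
  constructor
  · rintro ⟨f, f1, f2, f3, f4⟩
    have key : ∀ j, j ≤ l.length → ((List.range (l.length + 1)).map f).getD j r0 = f j := by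
      intro j hj
      rw [List.getD_eq_getElem?_getD, List.getElem?_map, List.getElem?_range (by omega)]
      rfl
    refine ⟨(List.range (l.length + 1)).map f, f1, ?_, ?_, ?_⟩
    · rw [key 0 (by omega)]; exact f2
    · rw [key _ le_rfl]; exact f3
    · intro j hj a ha
      rw [key _ (by omega), key _ (by omega)]
      exact f4 j hj a ha
  · rintro ⟨c, c1, c2, c3, c4⟩
    exact ⟨fun j => c.getD j r0, c1, c2, c3, c4⟩

section re

variable {α : Type} [Primcodable α]

theorem re_walk {m : ℕ} {P : α → ℕ × List (ℕ × ℕ)} {x y : α → Fin m → B → ℕ}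
    {l : α → List (Fin m × Bool)} (hP : Computable P) (hx : Computable x) (hl : Computable l)
    (hy : Computable y) : REPred fun a => Walk (YN (P a)) (x a) (l a) (y a) := by
  set r0 : (Fin m → B → ℕ) × (Fin m → B → ℕ) := (fun _ _ => 0, fun _ _ => 0) with hr0
  have h1 : REPred fun a => ∃ c : List ((Fin m → B → ℕ) × (Fin m → B → ℕ)),
      RowOK (YN (P a)) (x a) ∧ y a = (c.getD 0 r0).1 ∧
      x a = (c.getD (l a).length r0).1 ∧ ∀ j < (l a).length, ∀ b, (l a)[j]? = some b →
        StepW (YN (P a)) b (c.getD (j + 1) r0).1 (c.getD j r0).1 (c.getD j r0).2 := by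
    refine re_ex (p := fun a (c : List ((Fin m → B → ℕ) × (Fin m → B → ℕ))) =>
      RowOK (YN (P a)) (x a) ∧ y a = (c.getD 0 r0).1 ∧
      x a = (c.getD (l a).length r0).1 ∧ ∀ j < (l a).length, ∀ b, (l a)[j]? = some b →
        StepW (YN (P a)) b (c.getD (j + 1) r0).1 (c.getD j r0).1 (c.getD j r0).2) ?_
    refine ComputablePred.to_re ?_
    have g1 : Computable₂ fun (c : List ((Fin m → B → ℕ) × (Fin m → B → ℕ))) (j : ℕ) =>
        c.getD j r0 := (Primrec.list_getD r0).to_comp
    have hc : Computable fun z : α × List ((Fin m → B → ℕ) × (Fin m → B → ℕ)) => z.2 :=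
      Computable.snd
    have hlen : Computable fun z : α × List ((Fin m → B → ℕ) × (Fin m → B → ℕ)) =>
        (l z.1).length := (Primrec.list_length.to_comp).comp (hl.comp Computable.fst)
    refine cp_and (cp_row (hP.comp Computable.fst) (hx.comp Computable.fst)) (cp_and
      (cp_eq (hy.comp Computable.fst) (Computable.fst.comp (g1.comp hc (Computable.const 0))))
      (cp_and (cp_eq (hx.comp Computable.fst) (Computable.fst.comp (g1.comp hc hlen))) ?_))
    refine cp_ball (p := fun (z : α × List ((Fin m → B → ℕ) × (Fin m → B → ℕ))) j =>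
      ∀ b, (l z.1)[j]? = some b →
        StepW (YN (P z.1)) b (z.2.getD (j + 1) r0).1 (z.2.getD j r0).1 (z.2.getD j r0).2) ?_ hlen
    refine cp_fin fun b => cp_imp ?_ ?_
    · exact cp_eq ((Primrec.list_getElem?.to_comp).comp
        (hl.comp (Computable.fst.comp Computable.fst)) Computable.snd) (Computable.const _)
    · have k1 : Computable fun z : (α × List ((Fin m → B → ℕ) × (Fin m → B → ℕ))) × ℕ =>
          z.1.2.getD z.2 r0 := g1.comp (Computable.snd.comp Computable.fst) Computable.snd
      have k2 : Computable fun z : (α × List ((Fin m → B → ℕ) × (Fin m → B → ℕ))) × ℕ =>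
          z.1.2.getD (z.2 + 1) r0 := g1.comp (Computable.snd.comp Computable.fst)
            (Computable.succ.comp Computable.snd)
      exact cp_step b (hP.comp (Computable.fst.comp Computable.fst)) (Computable.fst.comp k2)
        (Computable.fst.comp k1) (Computable.snd.comp k1)
  refine h1.of_eq fun a => (walk_iff' _ _ r0 _ _).symm

theorem re_list {β : Type} (rels : List β) {p : β → α → Prop} (h : ∀ ρ, REPred (p ρ)) :
    REPred fun a => ∀ ρ ∈ rels, p ρ a := by
  induction rels with
  | nil => exact (re_const True).of_eq fun a => by simp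
  | cons ρ l ih => exact (re_and (h ρ) ih).of_eq fun a => by simp

theorem re_pat {m : ℕ} (rels : List (List (Fin m × Bool))) {P : α → ℕ × List (ℕ × ℕ)}
    {l : α → List (Fin m × Bool)} (hP : Computable P) (hl : Computable l) :
    REPred fun a => Pat rels (l a) (YN (P a)) := by
  refine re_ex (p := fun a (x : Fin m → B → ℕ) => RowOK (YN (P a)) x ∧
    (∀ ρ ∈ rels, Walk (YN (P a)) x ρ x) ∧
    ∃ z, Walk (YN (P a)) x (l a) z ∧ ∀ i, z i 1 ≠ x i 1) ?_
  refine re_and (cp_row (hP.comp Computable.fst) Computable.snd).to_re (re_and ?_ ?_)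
  · refine re_list rels fun ρ => ?_
    exact re_walk (hP.comp Computable.fst) Computable.snd (Computable.const ρ) Computable.snd
  · refine re_ex (p := fun (q : α × (Fin m → B → ℕ)) (z : Fin m → B → ℕ) =>
      Walk (YN (P q.1)) q.2 (l q.1) z ∧ ∀ i, z i 1 ≠ q.2 i 1) ?_
    refine re_and (re_walk (hP.comp (Computable.fst.comp Computable.fst))
      (Computable.snd.comp Computable.fst) (hl.comp (Computable.fst.comp Computable.fst))
      Computable.snd) ?_
    refine (cp_fin fun i => cp_not (cp_eq (ev Computable.snd i 1)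
      (ev (Computable.snd.comp Computable.fst) i 1))).to_re

end re

section transfer

variable {m : ℕ} {V W : Type} {Y : SimpleGraph V} {Z : SimpleGraph W} (f : Y ↪g Z)

/-- composition of a row with a map -/
def rowMap (f : V → W) (x : Fin m → B → V) : Fin m → B → W := fun i g => f (x i g)

theorem rowOK_map (x : Fin m → B → V) : RowOK Z (rowMap f x) ↔ RowOK Y x := by
  constructor
  · intro h
    refine ⟨fun i g g' e => h.inj i (congrArg f e), fun i s hs g => ?_, fun i i' => ?_⟩
    · exact f.map_adj_iff.1 (h.adj i s hs g)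
    · exact f.injective (h.base i i')
  · intro h
    refine ⟨fun i g g' e => h.inj i (f.injective e), fun i s hs g => ?_, fun i i' => ?_⟩
    · exact f.map_adj_iff.2 (h.adj i s hs g)
    · exact congrArg f (h.base i i')

theorem triOK_map (j : Fin m) (x y w : Fin m → B → V) :
    TriOK Z j (rowMap f x) (rowMap f y) (rowMap f w) ↔ TriOK Y j x y w := by
  constructor
  · intro h
    refine ⟨fun g => f.injective (h.self1 g), fun g => f.injective (h.self2 g),
      fun i hi s hs => ?_, fun i hi s hs c hc => ?_⟩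
    · obtain ⟨a1, a2, a3⟩ := h.adj i hi s hs
      exact ⟨f.map_adj_iff.1 a1, f.map_adj_iff.1 a2, f.map_adj_iff.1 a3⟩
    · obtain ⟨a1, a2, a3, a4, a5, a6⟩ := h.dist i hi s hs c hc
      exact ⟨fun e => a1 (congrArg f e), fun e => a2 (congrArg f e), fun e => a3 (congrArg f e),
        fun e => a4 (congrArg f e), fun e => a5 (congrArg f e), fun e => a6 (congrArg f e)⟩
  · intro h
    refine ⟨fun g => congrArg f (h.self1 g), fun g => congrArg f (h.self2 g),
      fun i hi s hs => ?_, fun i hi s hs c hc => ?_⟩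
    · obtain ⟨a1, a2, a3⟩ := h.adj i hi s hs
      exact ⟨f.map_adj_iff.2 a1, f.map_adj_iff.2 a2, f.map_adj_iff.2 a3⟩
    · obtain ⟨a1, a2, a3, a4, a5, a6⟩ := h.dist i hi s hs c hc
      exact ⟨fun e => a1 (f.injective e), fun e => a2 (f.injective e), fun e => a3 (f.injective e),
        fun e => a4 (f.injective e), fun e => a5 (f.injective e), fun e => a6 (f.injective e)⟩

theorem walk_map {x : Fin m → B → V} {l : List (Fin m × Bool)} {y : Fin m → B → V}
    (h : Walk Y x l y) : Walk Z (rowMap f x) l (rowMap f y) := by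
  induction h with
  | nil hx => exact Walk.nil ((rowOK_map f x).2 hx)
  | cons h1 h2 h3 ih =>
    obtain ⟨w, hw, h4⟩ := h3
    refine Walk.cons ih ((rowOK_map f _).2 h2) ⟨rowMap f w, (rowOK_map f _).2 hw, ?_⟩
    rw [triOK_map, triOK_map]
    exact h4

theorem row_lift (hf : ∀ a b, Z.Adj a b → ∃ v, f v = a) (z : Fin m → B → W) (hz : RowOK Z z) :
    ∃ x : Fin m → B → V, rowMap f x = z := by
  have h1 : ∀ i g, ∃ v, f v = z i g := fun i g => hf _ _ (hz.adj i bP (by simp) g)
  choose x hx using h1
  exact ⟨x, by funext i g; exact hx i g⟩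

theorem walk_lift (hf : ∀ a b, Z.Adj a b → ∃ v, f v = a) {x : Fin m → B → V}
    {l : List (Fin m × Bool)} {z : Fin m → B → W}
    (h : Walk Z (rowMap f x) l z) : ∃ y, z = rowMap f y ∧ Walk Y x l y := by
  induction h with
  | nil hx => exact ⟨x, rfl, Walk.nil ((rowOK_map f x).1 hx)⟩
  | @cons l z a z' h1 h2 h3 ih =>
    obtain ⟨y, rfl, hy⟩ := ih
    obtain ⟨y', rfl⟩ := row_lift f hf z' h2
    obtain ⟨w, hw, h4⟩ := h3
    obtain ⟨w', rfl⟩ := row_lift f hf w hw
    rw [triOK_map, triOK_map] at h4
    exact ⟨y', rfl, Walk.cons hy ((rowOK_map f y').1 h2) ⟨w', (rowOK_map f w').1 hw, h4⟩⟩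

theorem rowMap_inj {x y : Fin m → B → V} (h : rowMap f x = rowMap f y) : x = y := by
  funext i g
  exact f.injective (congrFun (congrFun h i) g)

theorem pat_iff (hf : ∀ a b, Z.Adj a b → ∃ v, f v = a) (rels : List (List (Fin m × Bool)))
    (w : List (Fin m × Bool)) : Pat rels w Z ↔ Pat rels w Y := by
  constructor
  · rintro ⟨x, h1, h2, z, h3, h4⟩
    obtain ⟨x', rfl⟩ := row_lift f hf x h1
    obtain ⟨z', rfl, h5⟩ := walk_lift f hf h3
    refine ⟨x', (rowOK_map f x').1 h1, ?_, z', h5, fun i e => h4 i (congrArg f e)⟩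
    intro ρ hρ
    obtain ⟨y, hy, h6⟩ := walk_lift f hf (h2 ρ hρ)
    rw [← rowMap_inj f hy] at h6
    exact h6
  · rintro ⟨x, h1, h2, z, h3, h4⟩
    exact ⟨rowMap f x, (rowOK_map f x).2 h1, fun ρ hρ => walk_map f (h2 ρ hρ), rowMap f z,
      walk_map f h3, fun i e => h4 i (f.injective e)⟩

end transfer

/-- the embedding of the coded graph -/
def toYN (p : ℕ × List (ℕ × ℕ)) : ofCode p ↪g YN p where
  toFun i := i
  inj' i j h := Fin.ext h
  map_rel_iff' {i j} := by
    show ((i : ℕ) < p.1 ∧ (j : ℕ) < p.1 ∧ (i : ℕ) ≠ j ∧ _) ↔ i ≠ j ∧ _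
    constructor
    · rintro ⟨_, _, h, h'⟩
      exact ⟨fun e => h (congrArg Fin.val e), h'⟩
    · rintro ⟨h, h'⟩
      exact ⟨i.2, j.2, fun e => h (Fin.ext e), h'⟩

theorem pat_re {m : ℕ} (rels : List (List (Fin m × Bool))) :
    REPred (fun q : List (Fin m × Bool) × (ℕ × List (ℕ × ℕ)) => Pat rels q.1 (ofCode q.2)) := by
  refine (re_pat rels Computable.snd Computable.fst).of_eq fun q => ?_
  exact pat_iff (toYN q.2) (fun a b h => ⟨⟨a, h.1⟩, rfl⟩) rels q.1

end IrrCay
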