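import Pool.Agent.IrrCay.FinCrit
import Pool.Agent.IrrCay.PatRE
import Pool.Agent.MP_abf483_lc.RE

/-! # Non-embeddability of finite graphs is recursively enumerable -/

set_option autoImplicit false

namespace IrrCay

universe u

open Pool.Agent.MP_abf483_lc

/-- words in numerical letters -/
abbrev NW : Type := List (ℕ × Bool)

/-! ### primitive recursive tools -/

section prim

theorem prim_pow : Primrec₂ (fun a b : ℕ => a ^ b) :=
  Primrec₂.unpaired'.1 Nat.Primrec.pow

theorem prim_reduce : Primrec (FreeGroup.reduce : NW → NW) := by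
  have h : Primrec fun L : NW => L.foldr (fun (x : ℕ × Bool) (ih : NW) =>
      (List.casesOn ih [x] fun hd tl =>
        if x.1 = hd.1 ∧ x.2 = not hd.2 then tl else x :: hd :: tl : NW)) ([] : NW) := by
    refine Primrec.list_foldr (h := fun (_ : NW) (q : (ℕ × Bool) × NW) =>
      (List.casesOn q.2 [q.1] fun hd tl =>
        if q.1.1 = hd.1 ∧ q.1.2 = not hd.2 then tl else q.1 :: hd :: tl : NW))
      Primrec.id (Primrec.const []) ?_
    have hq1 : Primrec fun a : NW × ((ℕ × Bool) × NW) => a.2.1 := Primrec.fst.comp Primrec.snd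
    have hq2 : Primrec fun a : NW × ((ℕ × Bool) × NW) => a.2.2 := Primrec.snd.comp Primrec.snd
    refine Primrec.list_casesOn (f := fun a : NW × ((ℕ × Bool) × NW) => a.2.2)
      (g := fun a => [a.2.1])
      (h := fun a b => if a.2.1.1 = b.1.1 ∧ a.2.1.2 = not b.1.2 then b.2
        else a.2.1 :: b.1 :: b.2) hq2 (Primrec.list_cons.comp hq1 (Primrec.const [])) ?_
    have k1 : Primrec fun z : (NW × ((ℕ × Bool) × NW)) × ((ℕ × Bool) × NW) => z.1.2.1 :=
      hq1.comp Primrec.fst
    have k2 : Primrec fun z : (NW × ((ℕ × Bool) × NW)) × ((ℕ × Bool) × NW) => z.2.1 :=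
      Primrec.fst.comp Primrec.snd
    have k3 : Primrec fun z : (NW × ((ℕ × Bool) × NW)) × ((ℕ × Bool) × NW) => z.2.2 :=
      Primrec.snd.comp Primrec.snd
    refine Primrec.ite (PrimrecPred.and (Primrec.eq.comp (Primrec.fst.comp k1)
      (Primrec.fst.comp k2)) (Primrec.eq.comp (Primrec.snd.comp k1)
      (Primrec.not.comp (Primrec.snd.comp k2)))) k3
      (Primrec.list_cons.comp k1 (Primrec.list_cons.comp k2 k3))
  refine h.of_eq fun L => ?_
  induction L with
  | nil => rfl
  | cons x L ih => rw [List.foldr_cons, ih, FreeGroup.reduce.cons]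

theorem prim_invRev : Primrec (FreeGroup.invRev : NW → NW) := by
  refine Primrec.list_reverse.comp (Primrec.list_map Primrec.id
    (g := fun (_ : NW) (z : ℕ × Bool) => (z.1, not z.2)) ?_)
  exact Primrec.pair (Primrec.fst.comp Primrec.snd) (Primrec.not.comp (Primrec.snd.comp Primrec.snd))

end prim

/-- the numerical letter of a pair -/
def lett (n m x y : ℕ) : ℕ × Bool :=
  (dig (2 * n * n) m (x * n + y) / 2, decide (dig (2 * n * n) m (x * n + y) % 2 = 0))

theorem numLab_eq (n m : ℕ) (x y : Fin n) : numLab n m x y = FreeGroup.mk [lett n m x y] := by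
  simp only [numLab, lett]
  by_cases h : dig (2 * n * n) m (x * n + y) % 2 = 0
  · rw [if_pos h, decide_eq_true h]; rfl
  · rw [if_neg h, decide_eq_false h]; rfl

theorem prim_lett : Primrec fun z : (ℕ × ℕ) × (ℕ × ℕ) => lett z.1.1 z.1.2 z.2.1 z.2.2 := by
  have h1 : Primrec fun z : (ℕ × ℕ) × (ℕ × ℕ) => 2 * z.1.1 * z.1.1 :=
    Primrec.nat_mul.comp (Primrec.nat_mul.comp (Primrec.const 2) (Primrec.fst.comp Primrec.fst))
      (Primrec.fst.comp Primrec.fst)
  have h2 : Primrec fun z : (ℕ × ℕ) × (ℕ × ℕ) => z.2.1 * z.1.1 + z.2.2 :=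
    Primrec.nat_add.comp (Primrec.nat_mul.comp (Primrec.fst.comp Primrec.snd)
      (Primrec.fst.comp Primrec.fst)) (Primrec.snd.comp Primrec.snd)
  have h3 : Primrec fun z : (ℕ × ℕ) × (ℕ × ℕ) =>
      dig (2 * z.1.1 * z.1.1) z.1.2 (z.2.1 * z.1.1 + z.2.2) :=
    Primrec.nat_mod.comp (Primrec.nat_div.comp (Primrec.snd.comp Primrec.fst)
      (prim_pow.comp h1 h2)) h1
  refine Primrec.pair (Primrec.nat_div.comp h3 (Primrec.const 2)) ?_
  exact PrimrecPred.decide (Primrec.eq.comp (Primrec.nat_mod.comp h3 (Primrec.const 2))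
    (Primrec.const 0))

/-- the word of a vertex sequence -/
def wword (n m : ℕ) (f : ℕ → ℕ) (k : ℕ) : NW :=
  ((List.range k).reverse).map fun i => lett n m (f i) (f (i + 1))

theorem wword_succ (n m : ℕ) (f : ℕ → ℕ) (k : ℕ) :
    wword n m f (k + 1) = wword n m (fun i => f (i + 1)) k ++ [lett n m (f 0) (f 1)] := by
  rw [wword, wword, List.range_succ_eq_map, List.reverse_cons, List.map_append, ← List.map_reverse,
    List.map_map]
  rfl

theorem walk_lab (P : ℕ × List (ℕ × ℕ)) (m : ℕ) (x y : Fin P.1) (g : FreeGroup ℕ) :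
    (∃ p : (ofCode P).Walk x y, g = lab (ofCode P) (numLab P.1 m) p) ↔
      ∃ (k : ℕ) (f : ℕ → ℕ), f 0 = x ∧ f k = y ∧ (∀ i < k, (YN P).Adj (f i) (f (i + 1))) ∧
        g = FreeGroup.mk (wword P.1 m f k) := by
  constructor
  · rintro ⟨p, rfl⟩
    induction p with
    | @nil u => exact ⟨0, fun _ => u, rfl, rfl, fun i hi => absurd hi (Nat.not_lt_zero i), rfl⟩
    | @cons u v w h p ih =>
      obtain ⟨k, f, h1, h2, h3, h4⟩ := ih
      refine ⟨k + 1, fun n => Nat.casesOn n u f, rfl, h2, ?_, ?_⟩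
      · intro i hi
        cases i with
        | zero =>
          show (YN P).Adj u (f 0)
          rw [h1]
          exact (toYN P).map_rel_iff.2 h
        | succ i => exact h3 i (by omega)
      · rw [lab, h4, wword_succ, numLab_eq, FreeGroup.mul_mk]
        show FreeGroup.mk (wword P.1 m f k ++ [lett P.1 m u v]) =
          FreeGroup.mk (wword P.1 m f k ++ [lett P.1 m u (f 0)])
        rw [h1]
  · rintro ⟨k, f, h1, h2, h3, rfl⟩
    induction k generalizing x f with
    | zero =>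
      have : x = y := Fin.ext (h1.symm.trans h2)
      subst this
      exact ⟨SimpleGraph.Walk.nil, rfl⟩
    | succ k ih =>
      have h4 : (YN P).Adj (f 0) (f 1) := h3 0 (by omega)
      let v : Fin P.1 := ⟨f 1, h4.2.1⟩
      obtain ⟨p, hp⟩ := ih v (fun i => f (i + 1)) rfl h2 fun i hi => h3 (i + 1) (by omega)
      have h5 : (ofCode P).Adj x v := by
        apply (toYN P).map_rel_iff.1
        show (YN P).Adj x (f 1)
        rw [← h1]
        exact h4
      refine ⟨SimpleGraph.Walk.cons h5 p, ?_⟩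
      rw [lab, ← hp, wword_succ, numLab_eq, FreeGroup.mul_mk]
      show _ = FreeGroup.mk (wword P.1 m (fun i => f (i + 1)) k ++ [lett P.1 m x (f 1)])
      rw [h1]

/-- the coded walk condition: `v` is the list of the vertices, `k` the number of steps -/
def Chain (P : ℕ × List (ℕ × ℕ)) (v : List ℕ) (k : ℕ) : Prop :=
  ∀ i < k, (YN P).Adj (v.getD i 0) (v.getD (i + 1) 0)

theorem walk_lab' (P : ℕ × List (ℕ × ℕ)) (m : ℕ) (x y : Fin P.1) (g : FreeGroup ℕ) :
    (∃ p : (ofCode P).Walk x y, g = lab (ofCode P) (numLab P.1 m) p) ↔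
      ∃ (k : ℕ) (v : List ℕ), v.getD 0 0 = x ∧ v.getD k 0 = y ∧ Chain P v k ∧
        g = FreeGroup.mk (wword P.1 m (fun i => v.getD i 0) k) := by
  rw [walk_lab]
  constructor
  · rintro ⟨k, f, h1, h2, h3, h4⟩
    have key : ∀ j, j ≤ k → ((List.range (k + 1)).map f).getD j 0 = f j := by
      intro j hj
      rw [List.getD_eq_getElem?_getD, List.getElem?_map, List.getElem?_range (by omega)]
      rfl
    refine ⟨k, (List.range (k + 1)).map f, ?_, ?_, ?_, ?_⟩
    · rw [key 0 (by omega)]; exact h1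
    · rw [key k le_rfl]; exact h2
    · intro i hi
      rw [key i (by omega), key (i + 1) (by omega)]
      exact h3 i hi
    · rw [h4]
      congr 1
      rw [wword, wword]
      apply List.map_congr_left
      intro i hi
      rw [List.mem_reverse, List.mem_range] at hi
      rw [key i (by omega), key (i + 1) (by omega)]
  · rintro ⟨k, v, h1, h2, h3, h4⟩
    exact ⟨k, fun i => v.getD i 0, h1, h2, h3, h4⟩

/-! ### membership in the kernel -/

/-- the generators of the kernel, as a subset of a free group: conjugates of closed walks -/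
def kgen (n m : ℕ) (q : NW × (List ℕ × ℕ)) : NW :=
  q.1 ++ (wword n m (fun i => q.2.1.getD i 0) q.2.2 ++ FreeGroup.invRev q.1)

/-- a signed conjugate -/
def kgenS (n m : ℕ) (q : (NW × (List ℕ × ℕ)) × Bool) : NW :=
  if q.2 = true then kgen n m q.1 else FreeGroup.invRev (kgen n m q.1)

/-- the condition on the generators -/
def kcond (P : ℕ × List (ℕ × ℕ)) (q : NW × (List ℕ × ℕ)) : Prop :=
  q.2.1.getD 0 0 < P.1 ∧ q.2.1.getD 0 0 = q.2.1.getD q.2.2 0 ∧ Chain P q.2.1 q.2.2

theorem mk_kgenS_flip (n m : ℕ) (q : (NW × (List ℕ × ℕ)) × Bool) :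
    FreeGroup.mk (kgenS n m (q.1, not q.2)) = (FreeGroup.mk (kgenS n m q))⁻¹ := by
  obtain ⟨q, b⟩ := q
  cases b
  · simp only [kgenS, Bool.not_false, if_true, Bool.false_eq_true, if_false]
    rw [FreeGroup.inv_mk, FreeGroup.invRev_invRev]
  · simp only [kgenS, Bool.not_true, if_true, Bool.false_eq_true, if_false]
    rw [FreeGroup.inv_mk]

theorem mk_flatMap_inv (n m : ℕ) (L : List ((NW × (List ℕ × ℕ)) × Bool)) :
    (FreeGroup.mk (L.flatMap (kgenS n m)))⁻¹ =
      FreeGroup.mk ((L.reverse.map fun q => (q.1, not q.2)).flatMap (kgenS n m)) := by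
  induction L with
  | nil => exact inv_one
  | cons q L ih =>
    rw [List.reverse_cons, List.map_append, List.flatMap_append, List.flatMap_cons,
      ← FreeGroup.mul_mk, ← FreeGroup.mul_mk, mul_inv_rev, ih]
    congr 1
    rw [List.map_cons, List.map_nil, List.flatMap_singleton, mk_kgenS_flip]

theorem ker_iff (P : ℕ × List (ℕ × ℕ)) (m : ℕ) (w : NW) :
    FreeGroup.mk w ∈ Ker (ofCode P) (numLab P.1 m) ↔
      ∃ L : List ((NW × (List ℕ × ℕ)) × Bool), (∀ i < L.length,
        kcond P (L.getD i default).1) ∧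
        FreeGroup.reduce w = FreeGroup.reduce (L.flatMap (kgenS P.1 m)) := by
  have hgen : ∀ q, kcond P q → FreeGroup.mk (kgen P.1 m q) ∈ Ker (ofCode P) (numLab P.1 m) := by
    rintro ⟨u, v, k⟩ ⟨h1, h2, h3⟩
    have e : FreeGroup.mk (kgen P.1 m (u, v, k)) =
        FreeGroup.mk u * FreeGroup.mk (wword P.1 m (fun i => v.getD i 0) k) *
          (FreeGroup.mk u)⁻¹ := by
      rw [kgen, FreeGroup.inv_mk, FreeGroup.mul_mk, FreeGroup.mul_mk, List.append_assoc]
    rw [e]
    refine Subgroup.Normal.conj_mem inferInstance _ ?_ _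
    refine Subgroup.subset_normalClosure ⟨⟨v.getD 0 0, h1⟩, ?_⟩
    exact (walk_lab' P m ⟨v.getD 0 0, h1⟩ ⟨v.getD 0 0, h1⟩ _).2 ⟨k, v, rfl, h2.symm, h3, rfl⟩
  have hgenS : ∀ q, kcond P q.1 → FreeGroup.mk (kgenS P.1 m q) ∈
      Ker (ofCode P) (numLab P.1 m) := by
    intro q hq
    rw [kgenS]
    split_ifs with h
    · exact hgen _ hq
    · rw [← FreeGroup.inv_mk]
      exact inv_mem (hgen _ hq)
  constructor
  · intro h
    have key : ∀ g ∈ Ker (ofCode P) (numLab P.1 m),
        ∃ L : List ((NW × (List ℕ × ℕ)) × Bool), (∀ q ∈ L, kcond P q.1) ∧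
          g = FreeGroup.mk (L.flatMap (kgenS P.1 m)) := by
      intro g hg
      refine Subgroup.closure_induction (p := fun g _ =>
        ∃ L : List ((NW × (List ℕ × ℕ)) × Bool), (∀ q ∈ L, kcond P q.1) ∧
          g = FreeGroup.mk (L.flatMap (kgenS P.1 m))) ?_ ?_ ?_ ?_ hg
      · intro g hg
        obtain ⟨s, ⟨x, p, rfl⟩, hs⟩ := Group.mem_conjugatesOfSet_iff.1 hg
        obtain ⟨c, hc⟩ := isConj_iff.1 hs
        obtain ⟨k, v, h1, h2, h3, h4⟩ := (walk_lab' P m x x _).1 ⟨p, rfl⟩
        refine ⟨[((c.toWord, v, k), true)], ?_, ?_⟩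
        · intro q hq
          rw [List.mem_singleton] at hq
          subst hq
          exact ⟨by show v.getD 0 0 < P.1; rw [h1]; exact x.2,
            by show v.getD 0 0 = v.getD k 0; rw [h1, h2], h3⟩
        · rw [← hc, h4, List.flatMap_singleton, kgenS, if_pos rfl, kgen]
          conv_lhs => rw [← FreeGroup.mk_toWord (x := c)]
          rw [FreeGroup.inv_mk, FreeGroup.mul_mk, FreeGroup.mul_mk, List.append_assoc]
      · exact ⟨[], by simp, rfl⟩
      · rintro g g' _ _ ⟨L, h1, rfl⟩ ⟨L', h1', rfl⟩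
        refine ⟨L ++ L', ?_, ?_⟩
        · intro q hq
          rcases List.mem_append.1 hq with h | h
          · exact h1 q h
          · exact h1' q h
        · rw [FreeGroup.mul_mk, List.flatMap_append]
      · rintro g _ ⟨L, h1, rfl⟩
        refine ⟨L.reverse.map fun q => (q.1, not q.2), ?_, ?_⟩
        · intro q hq
          obtain ⟨q', hq', rfl⟩ := List.mem_map.1 hq
          exact h1 q' (List.mem_reverse.1 hq')
        · exact mk_flatMap_inv _ _ _
    obtain ⟨L, h1, h2⟩ := key _ h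
    refine ⟨L, ?_, FreeGroup.reduce.sound h2⟩
    intro i hi
    rw [List.getD_eq_getElem _ _ hi]
    exact h1 _ (List.getElem_mem hi)
  · rintro ⟨L, h1, h2⟩
    rw [FreeGroup.reduce.exact h2]
    have h3 : ∀ q ∈ L, kcond P q.1 := by
      intro q hq
      obtain ⟨i, hi, rfl⟩ := List.mem_iff_getElem.1 hq
      have h4 := h1 i hi
      rw [List.getD_eq_getElem _ _ hi] at h4
      exact h4
    clear h1 h2
    induction L with
    | nil => exact one_mem _
    | cons q L ih =>
      rw [List.flatMap_cons, ← FreeGroup.mul_mk]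
      exact mul_mem (hgenS q (h3 q List.mem_cons_self))
        (ih fun q' hq' => h3 q' (List.mem_cons_of_mem _ hq'))

section re

variable {α : Type} [Primcodable α]

theorem cp_chain {P : α → ℕ × List (ℕ × ℕ)} {v : α → List ℕ} {k : α → ℕ} (hP : Computable P)
    (hv : Computable v) (hk : Computable k) : ComputablePred fun a => Chain (P a) (v a) (k a) := by
  refine cp_ball (p := fun a i => (YN (P a)).Adj ((v a).getD i 0) ((v a).getD (i + 1) 0)) ?_ hk
  have g1 : Computable₂ fun (c : List ℕ) (j : ℕ) => c.getD j 0 := (Primrec.list_getD 0).to_comp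
  exact cp_adj (hP.comp Computable.fst) (g1.comp (hv.comp Computable.fst) Computable.snd)
    (g1.comp (hv.comp Computable.fst) (Computable.succ.comp Computable.snd))

theorem cp_kcond {P : α → ℕ × List (ℕ × ℕ)} {q : α → NW × (List ℕ × ℕ)} (hP : Computable P)
    (hq : Computable q) : ComputablePred fun a => kcond (P a) (q a) := by
  have g1 : Computable₂ fun (c : List ℕ) (j : ℕ) => c.getD j 0 := (Primrec.list_getD 0).to_comp
  have hv : Computable fun a => (q a).2.1 := Computable.fst.comp (Computable.snd.comp hq)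
  have hk : Computable fun a => (q a).2.2 := Computable.snd.comp (Computable.snd.comp hq)
  exact cp_and (cp_lt (g1.comp hv (Computable.const 0)) (Computable.fst.comp hP))
    (cp_and (cp_eq (g1.comp hv (Computable.const 0)) (g1.comp hv hk)) (cp_chain hP hv hk))

theorem prim_wword {n m : α → ℕ} {v : α → List ℕ} {k : α → ℕ} (hn : Primrec n) (hm : Primrec m)
    (hv : Primrec v) (hk : Primrec k) :
    Primrec fun a => wword (n a) (m a) (fun i => (v a).getD i 0) (k a) := by
  refine Primrec.list_map (Primrec.list_reverse.comp (Primrec.list_range.comp hk))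
    (g := fun a i => lett (n a) (m a) ((v a).getD i 0) ((v a).getD (i + 1) 0)) ?_
  have g1 : Primrec₂ fun (c : List ℕ) (j : ℕ) => c.getD j 0 := Primrec.list_getD 0
  exact prim_lett.comp (Primrec.pair (Primrec.pair (hn.comp Primrec.fst) (hm.comp Primrec.fst))
    (Primrec.pair (g1.comp (hv.comp Primrec.fst) Primrec.snd)
      (g1.comp (hv.comp Primrec.fst) (Primrec.succ.comp Primrec.snd))))

theorem prim_kgenS {n m : α → ℕ} {q : α → (NW × (List ℕ × ℕ)) × Bool} (hn : Primrec n)
    (hm : Primrec m) (hq : Primrec q) : Primrec fun a => kgenS (n a) (m a) (q a) := by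
  have h1 : Primrec fun a => (q a).1.1 := Primrec.fst.comp (Primrec.fst.comp hq)
  have h2 : Primrec fun a => (q a).1.2.1 :=
    Primrec.fst.comp (Primrec.snd.comp (Primrec.fst.comp hq))
  have h3 : Primrec fun a => (q a).1.2.2 :=
    Primrec.snd.comp (Primrec.snd.comp (Primrec.fst.comp hq))
  have h4 : Primrec fun a => kgen (n a) (m a) (q a).1 :=
    Primrec.list_append.comp h1 (Primrec.list_append.comp (prim_wword hn hm h2 h3)
      (prim_invRev.comp h1))
  exact Primrec.ite (Primrec.eq.comp (Primrec.snd.comp hq) (Primrec.const true)) h4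
    (prim_invRev.comp h4)

theorem re_ker {P : α → ℕ × List (ℕ × ℕ)} {m : α → ℕ} {w : α → NW} (hP : Primrec P)
    (hm : Primrec m) (hw : Computable w) :
    REPred fun a => FreeGroup.mk (w a) ∈ Ker (ofCode (P a)) (numLab (P a).1 (m a)) := by
  have h1 : REPred fun a => ∃ L : List ((NW × (List ℕ × ℕ)) × Bool), (∀ i < L.length,
        kcond (P a) (L.getD i default).1) ∧
        FreeGroup.reduce (w a) = FreeGroup.reduce (L.flatMap (kgenS (P a).1 (m a))) := by
    refine re_ex (p := fun a (L : List ((NW × (List ℕ × ℕ)) × Bool)) => (∀ i < L.length,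
        kcond (P a) (L.getD i default).1) ∧
        FreeGroup.reduce (w a) = FreeGroup.reduce (L.flatMap (kgenS (P a).1 (m a)))) ?_
    refine ComputablePred.to_re (cp_and ?_ ?_)
    · refine cp_ball (p := fun (z : α × List ((NW × (List ℕ × ℕ)) × Bool)) i =>
        kcond (P z.1) (z.2.getD i default).1) ?_ (Primrec.list_length.to_comp.comp Computable.snd)
      have g1 : Computable₂ fun (c : List ((NW × (List ℕ × ℕ)) × Bool)) (j : ℕ) =>
        c.getD j default := (Primrec.list_getD default).to_comp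
      exact cp_kcond (hP.to_comp.comp (Computable.fst.comp Computable.fst))
        (Computable.fst.comp (g1.comp (Computable.snd.comp Computable.fst) Computable.snd))
    · refine cp_eq (prim_reduce.to_comp.comp (hw.comp Computable.fst)) (prim_reduce.comp ?_).to_comp
      refine Primrec.list_flatMap Primrec.snd
        (g := fun (z : α × List ((NW × (List ℕ × ℕ)) × Bool)) q =>
          kgenS (P z.1).1 (m z.1) q) ?_
      exact prim_kgenS (Primrec.fst.comp (hP.comp (Primrec.fst.comp Primrec.fst)))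
        (hm.comp (Primrec.fst.comp Primrec.fst)) Primrec.snd
  exact h1.of_eq fun a => (ker_iff _ _ _).symm

end re

theorem avoid_iff (c : ℕ) (g : FreeGroup ℕ) :
    g ∈ Subgroup.closure {g | ∃ c', c' ≠ c ∧ g = FreeGroup.of c'} ↔
      ∃ w : NW, (∀ i < w.length, (w.getD i default).1 ≠ c) ∧ g = FreeGroup.mk w := by
  have hiff : ∀ w : NW, (∀ i < w.length, (w.getD i default).1 ≠ c) ↔ ∀ z ∈ w, z.1 ≠ c := by
    intro w
    constructor
    · intro h z hz
      obtain ⟨i, hi, rfl⟩ := List.mem_iff_getElem.1 hz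
      have h2 := h i hi
      rw [List.getD_eq_getElem _ _ hi] at h2
      exact h2
    · intro h i hi
      rw [List.getD_eq_getElem _ _ hi]
      exact h _ (List.getElem_mem hi)
  simp only [hiff]
  constructor
  · intro h
    refine Subgroup.closure_induction (p := fun g _ =>
      ∃ w : NW, (∀ z ∈ w, z.1 ≠ c) ∧ g = FreeGroup.mk w) ?_ ?_ ?_ ?_ h
    · rintro _ ⟨c', hc', rfl⟩
      refine ⟨[(c', true)], ?_, rfl⟩
      intro z hz
      rw [List.mem_singleton] at hz
      subst hz
      exact hc'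
    · exact ⟨[], by simp, rfl⟩
    · rintro _ _ _ _ ⟨w, h1, rfl⟩ ⟨w', h1', rfl⟩
      refine ⟨w ++ w', ?_, FreeGroup.mul_mk⟩
      intro z hz
      rcases List.mem_append.1 hz with h | h
      · exact h1 z h
      · exact h1' z h
    · rintro _ _ ⟨w, h1, rfl⟩
      refine ⟨FreeGroup.invRev w, ?_, FreeGroup.inv_mk⟩
      intro z hz
      rw [FreeGroup.invRev, List.mem_reverse, List.mem_map] at hz
      obtain ⟨z', hz', rfl⟩ := hz
      exact h1 z' hz'
  · rintro ⟨w, h1, rfl⟩
    induction w with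
    | nil => exact one_mem _
    | cons z w ih =>
      have e : FreeGroup.mk (z :: w) = FreeGroup.mk [z] * FreeGroup.mk w := by
        rw [FreeGroup.mul_mk]; rfl
      rw [e]
      refine mul_mem ?_ (ih fun z' hz' => h1 z' (List.mem_cons_of_mem _ hz'))
      have h2 : FreeGroup.of z.1 ∈ Subgroup.closure {g | ∃ c', c' ≠ c ∧ g = FreeGroup.of c'} :=
        Subgroup.subset_closure ⟨z.1, h1 z List.mem_cons_self, rfl⟩
      obtain ⟨a, b⟩ := z
      cases b
      · have e2 : FreeGroup.mk [(a, false)] = (FreeGroup.of a)⁻¹ := rfl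
        rw [e2]
        exact inv_mem h2
      · exact h2

/-- the three ways in which a labelling fails to be good -/
theorem notGood_iff (P : ℕ × List (ℕ × ℕ)) (m : ℕ) :
    (¬ GoodLab (ofCode P) (numLab P.1 m)) ↔
      (∃ cw : ℕ × NW, (∀ i < cw.2.length, (cw.2.getD i default).1 ≠ cw.1) ∧
        FreeGroup.mk ([(cw.1, true)] ++ FreeGroup.invRev cw.2) ∈
          Ker (ofCode P) (numLab P.1 m)) ∨
      (∃ vk : List ℕ × ℕ, vk.1.getD 0 0 ≠ vk.1.getD vk.2 0 ∧ Chain P vk.1 vk.2 ∧
        FreeGroup.mk (wword P.1 m (fun i => vk.1.getD i 0) vk.2) ∈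
          Ker (ofCode P) (numLab P.1 m)) ∨
      (∃ q : (List ℕ × ℕ) × (ℕ × Bool), q.1.1.getD 0 0 ≠ q.1.1.getD q.1.2 0 ∧
        Chain P q.1.1 q.1.2 ∧ ¬ (YN P).Adj (q.1.1.getD 0 0) (q.1.1.getD q.1.2 0) ∧
        FreeGroup.mk (wword P.1 m (fun i => q.1.1.getD i 0) q.1.2 ++ [q.2]) ∈
          Ker (ofCode P) (numLab P.1 m)) := by
  have hends : ∀ (v : List ℕ) (k : ℕ), v.getD 0 0 ≠ v.getD k 0 → Chain P v k →
      v.getD 0 0 < P.1 ∧ v.getD k 0 < P.1 := by
    intro v k h1 h2
    cases k with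
    | zero => exact absurd rfl h1
    | succ k => exact ⟨(h2 0 (by omega)).1, (h2 k (by omega)).2.1⟩
  constructor
  · intro h
    by_contra hn
    push Not at hn
    obtain ⟨n1, n2, n3⟩ := hn
    apply h
    refine ⟨?_, ?_, ?_, ?_⟩
    · intro x y _
      simp only [numLab]
      split_ifs
      · exact ⟨_, Or.inl rfl⟩
      · exact ⟨_, Or.inr rfl⟩
    · intro c hc
      rw [Subgroup.mem_sup_of_normal_left] at hc
      obtain ⟨g, hg, t, ht, hgt⟩ := hc
      obtain ⟨w, hw, rfl⟩ := (avoid_iff c t).1 ht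
      apply n1 (c, w) hw
      have e : FreeGroup.mk ([(c, true)] ++ FreeGroup.invRev w) =
          FreeGroup.of c * (FreeGroup.mk w)⁻¹ := by
        rw [FreeGroup.inv_mk, ← FreeGroup.mul_mk]; rfl
      rw [e, ← hgt, mul_inv_cancel_right]
      exact hg
    · intro x y p hxy hp
      obtain ⟨k, v, h1, h2, h3, h4⟩ := (walk_lab' P m x y _).1 ⟨p, rfl⟩
      refine n2 (v, k) ?_ h3 ?_
      · show v.getD 0 0 ≠ v.getD k 0
        rw [h1, h2]
        exact fun e => hxy (Fin.ext e)
      · rw [h4] at hp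
        exact hp
    · intro x y p hxy hadj c
      obtain ⟨k, v, h1, h2, h3, h4⟩ := (walk_lab' P m x y _).1 ⟨p, rfl⟩
      have h5 : v.getD 0 0 ≠ v.getD k 0 := by
        rw [h1, h2]
        exact fun e => hxy (Fin.ext e)
      have h6 : ¬ (YN P).Adj (v.getD 0 0) (v.getD k 0) := by
        rw [h1, h2]
        exact fun e => hadj ((toYN P).map_rel_iff.1 e)
      constructor
      · intro h7
        apply n3 ((v, k), (c, false)) h5 h3 h6
        rw [h4] at h7
        rw [← FreeGroup.mul_mk]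
        exact h7
      · intro h7
        apply n3 ((v, k), (c, true)) h5 h3 h6
        rw [h4] at h7
        rw [← FreeGroup.mul_mk]
        exact h7
  · rintro (⟨⟨c, w⟩, h1, h2⟩ | ⟨⟨v, k⟩, h1, h2, h3⟩ | ⟨⟨⟨v, k⟩, c, b⟩, h1, h2, h3, h4⟩) h
    · apply h.indep c
      have e : FreeGroup.of c = FreeGroup.mk ([(c, true)] ++ FreeGroup.invRev w) *
          FreeGroup.mk w := by
        rw [← FreeGroup.mul_mk, ← FreeGroup.inv_mk, inv_mul_cancel_right]; rfl
      rw [e]
      refine mul_mem (Subgroup.mem_sup_left h2) (Subgroup.mem_sup_right ?_)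
      exact (avoid_iff c _).2 ⟨w, h1, rfl⟩
    · obtain ⟨l1, l2⟩ := hends v k h1 h2
      obtain ⟨p, hp⟩ := (walk_lab' P m ⟨_, l1⟩ ⟨_, l2⟩ _).2 ⟨k, v, rfl, rfl, h2, rfl⟩
      apply h.inj _ _ p
      · exact fun e => h1 (congrArg Fin.val e)
      · rw [← hp]; exact h3
    · obtain ⟨l1, l2⟩ := hends v k h1 h2
      obtain ⟨p, hp⟩ := (walk_lab' P m ⟨_, l1⟩ ⟨_, l2⟩ _).2 ⟨k, v, rfl, rfl, h2, rfl⟩
      have h5 := h.induced _ _ p (fun e => h1 (congrArg Fin.val e))
        (fun e => h3 ((toYN P).map_rel_iff.2 e)) c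
      rw [← hp] at h5
      rw [← FreeGroup.mul_mk] at h4
      cases b
      · exact h5.1 h4
      · exact h5.2 h4

theorem notGood_re : REPred (fun x : (ℕ × List (ℕ × ℕ)) × ℕ =>
    ¬ GoodLab (ofCode x.1) (numLab x.1.1 x.2)) := by
  have g1 : Computable₂ fun (c : List ℕ) (j : ℕ) => c.getD j 0 := (Primrec.list_getD 0).to_comp
  have p1 : Primrec₂ fun (c : List ℕ) (j : ℕ) => c.getD j 0 := Primrec.list_getD 0
  refine REPred.of_eq ?_ fun x => (notGood_iff x.1 x.2).symm
  refine re_or ?_ (re_or ?_ ?_)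
  · refine re_ex (p := fun (x : (ℕ × List (ℕ × ℕ)) × ℕ) (cw : ℕ × NW) =>
      (∀ i < cw.2.length, (cw.2.getD i default).1 ≠ cw.1) ∧
        FreeGroup.mk ([(cw.1, true)] ++ FreeGroup.invRev cw.2) ∈
          Ker (ofCode x.1) (numLab x.1.1 x.2)) ?_
    have c1 : Computable fun z : ((ℕ × List (ℕ × ℕ)) × ℕ) × (ℕ × NW) => z.2.1 :=
      Computable.fst.comp Computable.snd
    have c2 : Computable fun z : ((ℕ × List (ℕ × ℕ)) × ℕ) × (ℕ × NW) => z.2.2 :=
      Computable.snd.comp Computable.snd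
    refine re_and (ComputablePred.to_re ?_) ?_
    · refine cp_ball (p := fun (z : ((ℕ × List (ℕ × ℕ)) × ℕ) × (ℕ × NW)) i =>
        (z.2.2.getD i default).1 ≠ z.2.1) ?_ (Primrec.list_length.to_comp.comp c2)
      have g2 : Computable₂ fun (c : NW) (j : ℕ) => c.getD j default :=
        (Primrec.list_getD default).to_comp
      exact cp_not (cp_eq (Computable.fst.comp (g2.comp (c2.comp Computable.fst) Computable.snd))
        (c1.comp Computable.fst))
    · refine re_ker (Primrec.fst.comp Primrec.fst) (Primrec.snd.comp Primrec.fst) ?_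
      refine (Primrec.list_append.comp (Primrec.list_cons.comp (Primrec.pair
        (Primrec.fst.comp Primrec.snd) (Primrec.const true)) (Primrec.const []))
        (prim_invRev.comp (Primrec.snd.comp Primrec.snd))).to_comp
  · refine re_ex (p := fun (x : (ℕ × List (ℕ × ℕ)) × ℕ) (vk : List ℕ × ℕ) =>
      vk.1.getD 0 0 ≠ vk.1.getD vk.2 0 ∧ Chain x.1 vk.1 vk.2 ∧
        FreeGroup.mk (wword x.1.1 x.2 (fun i => vk.1.getD i 0) vk.2) ∈
          Ker (ofCode x.1) (numLab x.1.1 x.2)) ?_
    have c1 : Primrec fun z : ((ℕ × List (ℕ × ℕ)) × ℕ) × (List ℕ × ℕ) => z.2.1 :=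
      Primrec.fst.comp Primrec.snd
    have c2 : Primrec fun z : ((ℕ × List (ℕ × ℕ)) × ℕ) × (List ℕ × ℕ) => z.2.2 :=
      Primrec.snd.comp Primrec.snd
    have c3 : Primrec fun z : ((ℕ × List (ℕ × ℕ)) × ℕ) × (List ℕ × ℕ) => z.1.1 :=
      Primrec.fst.comp Primrec.fst
    have c4 : Primrec fun z : ((ℕ × List (ℕ × ℕ)) × ℕ) × (List ℕ × ℕ) => z.1.2 :=
      Primrec.snd.comp Primrec.fst
    refine re_and (ComputablePred.to_re (cp_not (cp_eq (p1.comp c1 (Primrec.const 0)).to_comp
      (p1.comp c1 c2).to_comp))) (re_and (ComputablePred.to_re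
      (cp_chain c3.to_comp c1.to_comp c2.to_comp)) ?_)
    exact re_ker c3 c4 (prim_wword (Primrec.fst.comp c3) c4 c1 c2).to_comp
  · refine re_ex (p := fun (x : (ℕ × List (ℕ × ℕ)) × ℕ) (q : (List ℕ × ℕ) × (ℕ × Bool)) =>
      q.1.1.getD 0 0 ≠ q.1.1.getD q.1.2 0 ∧
        Chain x.1 q.1.1 q.1.2 ∧ ¬ (YN x.1).Adj (q.1.1.getD 0 0) (q.1.1.getD q.1.2 0) ∧
        FreeGroup.mk (wword x.1.1 x.2 (fun i => q.1.1.getD i 0) q.1.2 ++ [q.2]) ∈
          Ker (ofCode x.1) (numLab x.1.1 x.2)) ?_
    have c1 : Primrec fun z : ((ℕ × List (ℕ × ℕ)) × ℕ) × ((List ℕ × ℕ) × (ℕ × Bool)) =>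
      z.2.1.1 := Primrec.fst.comp (Primrec.fst.comp Primrec.snd)
    have c2 : Primrec fun z : ((ℕ × List (ℕ × ℕ)) × ℕ) × ((List ℕ × ℕ) × (ℕ × Bool)) =>
      z.2.1.2 := Primrec.snd.comp (Primrec.fst.comp Primrec.snd)
    have c3 : Primrec fun z : ((ℕ × List (ℕ × ℕ)) × ℕ) × ((List ℕ × ℕ) × (ℕ × Bool)) =>
      z.1.1 := Primrec.fst.comp Primrec.fst
    have c4 : Primrec fun z : ((ℕ × List (ℕ × ℕ)) × ℕ) × ((List ℕ × ℕ) × (ℕ × Bool)) =>
      z.1.2 := Primrec.snd.comp Primrec.fst
    have c5 : Primrec fun z : ((ℕ × List (ℕ × ℕ)) × ℕ) × ((List ℕ × ℕ) × (ℕ × Bool)) =>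
      z.2.2 := Primrec.snd.comp Primrec.snd
    refine re_and (ComputablePred.to_re (cp_not (cp_eq (p1.comp c1 (Primrec.const 0)).to_comp
      (p1.comp c1 c2).to_comp))) (re_and (ComputablePred.to_re
      (cp_chain c3.to_comp c1.to_comp c2.to_comp)) (re_and (ComputablePred.to_re (cp_not
      (cp_adj c3.to_comp (p1.comp c1 (Primrec.const 0)).to_comp (p1.comp c1 c2).to_comp))) ?_))
    exact re_ker c3 c4 (Primrec.list_append.comp (prim_wword (Primrec.fst.comp c3) c4 c1 c2)
      (Primrec.list_cons.comp c5 (Primrec.const []))).to_comp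

theorem re_ball {α : Type} [Primcodable α] {p : α → ℕ → Prop} {f : α → ℕ}
    (hp : REPred fun x : α × ℕ => p x.1 x.2) (hf : Computable f) :
    REPred fun a => ∀ i < f a, p a i := by
  obtain ⟨R, hR, h⟩ := re_iff_exists.1 hp
  have h' : ∀ a i, p a i ↔ ∃ n, R (a, i) n = true := fun a i => h (a, i)
  have h1 : REPred fun a => ∃ K : List ℕ, ∀ i < f a, R (a, i) (K.getD i 0) = true := by
    refine re_ex (p := fun a (K : List ℕ) => ∀ i < f a, R (a, i) (K.getD i 0) = true) ?_
    refine ComputablePred.to_re (cp_ball (p := fun (z : α × List ℕ) i =>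
      R (z.1, i) (z.2.getD i 0) = true) ?_ (hf.comp Computable.fst))
    have g1 : Computable₂ fun (c : List ℕ) (j : ℕ) => c.getD j 0 := (Primrec.list_getD 0).to_comp
    exact cp_bool (hR.comp (Computable.pair (Computable.fst.comp Computable.fst) Computable.snd)
      (g1.comp (Computable.snd.comp Computable.fst) Computable.snd))
  refine h1.of_eq fun a => ?_
  constructor
  · rintro ⟨K, hK⟩ i hi
    exact (h' a i).2 ⟨_, hK i hi⟩
  · intro h2
    have h3 : ∀ i, ∃ n, i < f a → R (a, i) n = true := by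
      intro i
      by_cases hi : i < f a
      · obtain ⟨n, hn⟩ := (h' a i).1 (h2 i hi)
        exact ⟨n, fun _ => hn⟩
      · exact ⟨0, fun h => absurd h hi⟩
    choose g hg using h3
    refine ⟨(List.range (f a)).map g, fun i hi => ?_⟩
    rw [List.getD_eq_getElem?_getD, List.getElem?_map, List.getElem?_range hi]
    exact hg i hi

theorem emb_co_re : REPred (fun p : ℕ × List (ℕ × ℕ) => ¬ Emb.{u} (ofCode p)) := by
  have h1 : REPred fun p : ℕ × List (ℕ × ℕ) => ∀ m < (2 * p.1 * p.1) ^ (p.1 * p.1),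
      ¬ GoodLab (ofCode p) (numLab p.1 m) := by
    refine re_ball (p := fun p m => ¬ GoodLab (ofCode p) (numLab p.1 m)) notGood_re ?_
    have k : Primrec fun p : ℕ × List (ℕ × ℕ) => p.1 := Primrec.fst
    exact (prim_pow.comp (Primrec.nat_mul.comp (Primrec.nat_mul.comp (Primrec.const 2) k) k)
      (Primrec.nat_mul.comp k k)).to_comp
  refine h1.of_eq fun p => ?_
  rw [fin_crit]
  push Not
  rfl

end IrrCay
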