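import Pool.Agent.IrrCay.EmbBasic

/-! # Compactness of embeddability -/

set_option autoImplicit false

namespace IrrCay

universe u

section ultra

variable {ι : Type u} (U : Ultrafilter ι) (G : ι → Type u) [∀ s, Group (G s)]

/-- the functions equal to 1 almost everywhere -/
def upN : Subgroup (∀ s, G s) where
  carrier := {g | ∀ᶠ s in (U : Filter ι), g s = 1}
  mul_mem' := by
    intro a b ha hb
    filter_upwards [ha, hb] with s h1 h2
    rw [Pi.mul_apply, h1, h2, one_mul]
  one_mem' := Filter.Eventually.of_forall fun _ => rfl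
  inv_mem' := by
    intro a ha
    filter_upwards [ha] with s h1
    rw [Pi.inv_apply, h1, inv_one]

instance upN_normal : (upN U G).Normal := ⟨by
  intro a ha g
  filter_upwards [ha] with s h1
  show g s * a s * (g s)⁻¹ = 1
  rw [h1, mul_one, mul_inv_cancel]⟩

/-- the ultraproduct -/
abbrev UP : Type u := (∀ s, G s) ⧸ upN U G

/-- the class of a function -/
def upmk : (∀ s, G s) →* UP U G := QuotientGroup.mk' (upN U G)

theorem upmk_surj (x : UP U G) : ∃ a, upmk U G a = x := QuotientGroup.mk'_surjective _ x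

theorem up_eq (a b : ∀ s, G s) :
    upmk U G a = upmk U G b ↔ ∀ᶠ s in (U : Filter ι), a s = b s := by
  refine (QuotientGroup.eq (s := upN U G) (a := a) (b := b)).trans ?_
  show (∀ᶠ s in (U : Filter ι), (a s)⁻¹ * b s = 1) ↔ _
  refine Filter.eventually_congr (Filter.Eventually.of_forall fun s => ?_)
  exact inv_mul_eq_one

/-- the ultraproduct of subsets -/
def upH (H : ∀ s, Set (G s)) : Set (UP U G) :=
  {x | ∃ a, upmk U G a = x ∧ ∀ᶠ s in (U : Filter ι), a s ∈ H s}

theorem mem_upH (H : ∀ s, Set (G s)) (a : ∀ s, G s) :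
    upmk U G a ∈ upH U G H ↔ ∀ᶠ s in (U : Filter ι), a s ∈ H s := by
  constructor
  · rintro ⟨b, hb, hb2⟩
    rw [up_eq] at hb
    filter_upwards [hb, hb2] with s h1 h2
    rw [← h1]; exact h2
  · exact fun h => ⟨a, rfl, h⟩

/-- the ultraproduct of subgroups -/
def upK (K : ∀ s, Subgroup (G s)) : Subgroup (UP U G) where
  carrier := upH U G fun s => (K s : Set (G s))
  mul_mem' := by
    rintro _ _ ⟨a, rfl, ha⟩ ⟨b, rfl, hb⟩
    refine ⟨a * b, map_mul _ _ _, ?_⟩
    filter_upwards [ha, hb] with s h1 h2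
    exact mul_mem h1 h2
  one_mem' := ⟨1, map_one _, Filter.Eventually.of_forall fun s => one_mem (K s)⟩
  inv_mem' := by
    rintro _ ⟨a, rfl, ha⟩
    refine ⟨a⁻¹, map_inv _ _, ?_⟩
    filter_upwards [ha] with s h1
    exact inv_mem h1

theorem up_indep (H : ∀ s, Set (G s)) (h : ∀ s, Indep (H s)) : Indep (upH U G H) := by
  rintro _ ⟨a, rfl, ha⟩ hc
  have hle : Subgroup.closure (upH U G H \ {upmk U G a}) ≤
      upK U G fun s => Subgroup.closure (H s \ {a s}) := by
    rw [Subgroup.closure_le]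
    rintro _ ⟨⟨b, rfl, hb⟩, hne⟩
    refine ⟨b, rfl, ?_⟩
    have h1 : ∀ᶠ s in (U : Filter ι), b s ≠ a s := by
      have h2 : ¬ ∀ᶠ s in (U : Filter ι), b s = a s := fun h3 => hne ((up_eq U G b a).2 h3)
      exact Ultrafilter.eventually_not.2 h2
    filter_upwards [hb, h1] with s h3 h4
    exact Subgroup.subset_closure ⟨h3, h4⟩
  have h1 := (mem_upH U G (fun s => (Subgroup.closure (H s \ {a s}) : Set (G s))) a).1 (hle hc)
  obtain ⟨s, h2, h3⟩ := (ha.and h1).exists
  exact h s _ h2 h3

end ultra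

theorem emb_compact {V : Type u} (Y : SimpleGraph V)
    (h : ∀ s : Finset V, Emb.{u} (Y.induce (s : Set V))) : Emb.{u} Y := by
  classical
  choose G hG H h1 hI he using h
  let e := fun s => (he s).some
  let U : Ultrafilter (Finset V) := Ultrafilter.of Filter.atTop
  have hU : ∀ v, ∀ᶠ s in (U : Filter (Finset V)), v ∈ s := by
    intro v
    have h2 : ∀ᶠ s in (Filter.atTop : Filter (Finset V)), v ∈ s := by
      filter_upwards [Filter.eventually_ge_atTop {v}] with s hs
      exact hs (Finset.mem_singleton_self v)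
    exact Ultrafilter.of_le _ h2
  let f : V → ∀ s, G s := fun v s => if hv : v ∈ s then e s ⟨v, hv⟩ else 1
  have hf : ∀ v s (hv : v ∈ s), f v s = e s ⟨v, hv⟩ := fun v s hv => dif_pos hv
  have hinj : ∀ v w, upmk U G (f v) = upmk U G (f w) → v = w := by
    intro v w hvw
    rw [up_eq] at hvw
    obtain ⟨s, ⟨h2, h3⟩, h4⟩ := ((hvw.and (hU v)).and (hU w)).exists
    rw [hf v s h3, hf w s h4] at h2
    exact congrArg Subtype.val ((e s).injective h2)
  have hadj : ∀ v w, (X (UP U G) (upH U G H)).Adj (upmk U G (f v)) (upmk U G (f w)) ↔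
      Y.Adj v w := by
    intro v w
    constructor
    · rintro ⟨hne, hvw⟩
      have hne' : v ≠ w := fun h => hne (by rw [h])
      have key : ∀ᶠ s in (U : Filter (Finset V)), (∃ a ∈ H s, f w s = a * f v s) ∨
          (∃ a ∈ H s, f v s = a * f w s) := by
        rcases hvw with ⟨_, ⟨a, rfl, ha⟩, h2⟩ | ⟨_, ⟨a, rfl, ha⟩, h2⟩
        · rw [← map_mul, up_eq] at h2
          filter_upwards [ha, h2] with s h3 h4
          exact Or.inl ⟨a s, h3, h4⟩
        · rw [← map_mul, up_eq] at h2
          filter_upwards [ha, h2] with s h3 h4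
          exact Or.inr ⟨a s, h3, h4⟩
      obtain ⟨s, ⟨h2, h3⟩, h4⟩ := ((key.and (hU v)).and (hU w)).exists
      rw [hf v s h3, hf w s h4] at h2
      have h5 : (X (G s) (H s)).Adj (e s ⟨v, h3⟩) (e s ⟨w, h4⟩) :=
        ⟨fun h6 => hne' (congrArg Subtype.val ((e s).injective h6)), h2⟩
      rw [(e s).map_adj_iff] at h5
      exact h5
    · intro hvw
      refine ⟨fun h2 => hvw.ne (hinj v w h2), ?_⟩
      have key : ∀ᶠ s in (U : Filter (Finset V)), (∃ a ∈ H s, f w s = a * f v s) ∨
          (∃ a ∈ H s, f v s = a * f w s) := by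
        filter_upwards [hU v, hU w] with s h3 h4
        have h5 : (X (G s) (H s)).Adj (e s ⟨v, h3⟩) (e s ⟨w, h4⟩) :=
          ((e s).map_adj_iff).2 hvw
        rw [hf v s h3, hf w s h4]
        exact h5.2
      rw [Ultrafilter.eventually_or] at key
      rcases key with key | key
      · left
        refine ⟨upmk U G (f w * (f v)⁻¹), ⟨_, rfl, ?_⟩, ?_⟩
        · filter_upwards [key] with s h2
          obtain ⟨a, ha, h3⟩ := h2
          show f w s * (f v s)⁻¹ ∈ H s
          rw [h3, mul_inv_cancel_right]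
          exact ha
        · rw [← map_mul, inv_mul_cancel_right]
      · right
        refine ⟨upmk U G (f v * (f w)⁻¹), ⟨_, rfl, ?_⟩, ?_⟩
        · filter_upwards [key] with s h2
          obtain ⟨a, ha, h3⟩ := h2
          show f v s * (f w s)⁻¹ ∈ H s
          rw [h3, mul_inv_cancel_right]
          exact ha
        · rw [← map_mul, inv_mul_cancel_right]
  exact emb_of_indep Y (upH U G H) (up_indep U G H fun s => (hI s).indep)
    ⟨⟨fun v => upmk U G (f v), fun v w h => hinj v w h⟩, fun {v w} => hadj v w⟩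

end IrrCay
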