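import Pool.Agent.IrrCay.Defs

/-! # Basic facts on embeddability -/

set_option autoImplicit false

namespace IrrCay

universe u v w

/-- independence is reflected by homomorphisms which are injective on the set of letters -/
theorem Indep.of_hom {G : Type u} [Group G] {H : Set G} (hH : Indep H) {E : Type w} [Group E]
    (f : E →* G) {H' : Set E} (hinj : Set.InjOn f H') (hmap : ∀ h ∈ H', f h ∈ H) :
    Indep H' := by
  intro h hh hc
  apply hH (f h) (hmap h hh)
  have h1 : f h ∈ (Subgroup.closure (H' \ {h})).map f := Subgroup.mem_map_of_mem f hc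
  rw [MonoidHom.map_closure] at h1
  refine Subgroup.closure_mono ?_ h1
  rintro _ ⟨x, ⟨hx, hxh⟩, rfl⟩
  refine ⟨hmap x hx, ?_⟩
  intro he
  exact hxh (hinj hx hh he)

theorem Indep.one_notMem {G : Type u} [Group G] {H : Set G} (hH : Indep H) : (1 : G) ∉ H := by
  intro h
  exact hH 1 h (Subgroup.one_mem _)

/-- the simplest form of adjacency -/
theorem X_adj {G : Type u} [Group G] {H : Set G} (h1 : (1 : G) ∉ H) (g g' : G) :
    (X G H).Adj g g' ↔ (g' * g⁻¹ ∈ H ∨ g * g'⁻¹ ∈ H) := by
  constructor
  · rintro ⟨_, ⟨a, ha, rfl⟩ | ⟨a, ha, rfl⟩⟩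
    · left; simpa using ha
    · right; simpa using ha
  · rintro (h | h)
    · refine ⟨?_, Or.inl ⟨_, h, by simp⟩⟩
      rintro rfl
      exact h1 (by simpa using h)
    · refine ⟨?_, Or.inr ⟨_, h, by simp⟩⟩
      rintro rfl
      exact h1 (by simpa using h)

section indep

variable {E : Type u} [Group E] (H : Set E)

/-- the set of right cosets -/
abbrev Cos : Type u := Quotient (QuotientGroup.rightRel (Subgroup.closure H))

/-- the ambient group: the generated subgroup times a free group on the cosets -/
abbrev Amb : Type u := (Subgroup.closure H) × FreeGroup (Cos H)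

/-- the letters -/
def ambH : Set (Amb H) :=
  {x | (x.1 : E) ∈ H ∧ x.2 = 1} ∪ {x | x.1 = 1 ∧ ∃ c, x.2 = FreeGroup.of c}

theorem ambH_closure : Subgroup.closure (ambH H) = ⊤ := by
  rw [eq_top_iff]
  rintro ⟨⟨g, hg⟩, w⟩ -
  have h1 : ∀ w : FreeGroup (Cos H), ((1, w) : Amb H) ∈ Subgroup.closure (ambH H) := by
    intro w
    induction w using FreeGroup.induction_on with
    | C1 => exact Subgroup.one_mem _
    | of c => exact Subgroup.subset_closure (Or.inr ⟨rfl, c, rfl⟩)
    | inv_of c _ =>
      have : ((1, (FreeGroup.of c)⁻¹) : Amb H) = ((1, FreeGroup.of c) : Amb H)⁻¹ := by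
        ext <;> simp
      rw [this]
      exact Subgroup.inv_mem _ (Subgroup.subset_closure (Or.inr ⟨rfl, c, rfl⟩))
    | mul x y hx hy =>
      have : ((1, x * y) : Amb H) = (1, x) * (1, y) := by ext <;> simp
      rw [this]
      exact Subgroup.mul_mem _ hx hy
  have h2 : ∀ (g : E) (hg : g ∈ Subgroup.closure H),
      (((⟨g, hg⟩ : Subgroup.closure H), (1 : FreeGroup (Cos H))) : Amb H) ∈
        Subgroup.closure (ambH H) := by
    intro g hg
    induction hg using Subgroup.closure_induction with
    | mem x hx => exact Subgroup.subset_closure (Or.inl ⟨hx, rfl⟩)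
    | one => exact Subgroup.one_mem _
    | mul x y hx hy ihx ihy =>
      have := Subgroup.mul_mem _ ihx ihy
      simpa using this
    | inv x hx ih =>
      have := Subgroup.inv_mem _ ih
      convert this using 1
      ext <;> simp
  have h3 := Subgroup.mul_mem _ (h2 g hg) (h1 w)
  simpa using h3

theorem ambH_notMem (hH : Indep H) : Indep (ambH H) := by
  classical
  rintro ⟨g, w⟩ hx hc
  rcases hx with ⟨h1, h2⟩ | ⟨h1, c, h2⟩
  · simp only at h1 h2
    subst h2
    -- project to `E`
    let f : Amb H →* E := (Subgroup.closure H).subtype.comp (MonoidHom.fst _ _)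
    have h3 : f (g, 1) ∈ (Subgroup.closure (ambH H \ {((g, 1) : Amb H)})).map f :=
      Subgroup.mem_map_of_mem f hc
    rw [MonoidHom.map_closure] at h3
    apply hH g h1
    have h4 : Subgroup.closure (f '' (ambH H \ {((g, 1) : Amb H)})) ≤
        Subgroup.closure (H \ {(g : E)}) := by
      rw [Subgroup.closure_le]
      rintro _ ⟨⟨a, b⟩, ⟨hab, hne⟩, rfl⟩
      rcases hab with ⟨h5, h6⟩ | ⟨h5, d, h6⟩
      · simp only at h5 h6
        subst h6
        refine Subgroup.subset_closure ⟨h5, ?_⟩
        intro he
        apply hne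
        have : a = g := Subtype.ext he
        simp [this]
      · simp only at h5
        subst h5
        exact Subgroup.one_mem _
    exact h4 h3
  · simp only at h1 h2
    subst h1
    subst h2
    let f : Amb H →* Multiplicative ℤ :=
      (FreeGroup.lift fun d => Multiplicative.ofAdd (if d = c then (1 : ℤ) else 0)).comp
        (MonoidHom.snd _ _)
    have h3 : f (1, FreeGroup.of c) ∈
        (Subgroup.closure (ambH H \ {((1, FreeGroup.of c) : Amb H)})).map f :=
      Subgroup.mem_map_of_mem f hc
    rw [MonoidHom.map_closure] at h3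
    have h4 : Subgroup.closure (f '' (ambH H \ {((1, FreeGroup.of c) : Amb H)})) ≤ ⊥ := by
      rw [Subgroup.closure_le]
      rintro _ ⟨⟨a, b⟩, ⟨hab, hne⟩, rfl⟩
      rcases hab with ⟨h5, h6⟩ | ⟨h5, d, h6⟩
      · simp only at h5 h6
        subst h6
        simp [f]
      · simp only at h5 h6
        subst h5
        subst h6
        have hdc : d ≠ c := by
          rintro rfl
          exact hne rfl
        simp [f, hdc]
    have h5 := h4 h3
    simp [f] at h5

end indep

/-- it is enough to embed into the Cayley graph of an independent set, generating or not -/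
theorem emb_of_indep {V : Type v} (Y : SimpleGraph V) {E : Type u} [Group E] (H : Set E)
    (hH : Indep H) (e : Y ↪g X E H) : Emb.{u} Y := by
  classical
  have hA := ambH_notMem H hH
  have h1E : (1 : E) ∉ H := hH.one_notMem
  have h1A := hA.one_notMem
  refine ⟨Amb H, inferInstance, ambH H, h1A, ⟨ambH_closure H, ?_⟩, ?_⟩
  · intro h hh hc
    apply hA h hh
    rw [hc]
    trivial
  · -- representatives of the cosets
    let q : E → Cos H := fun g => Quotient.mk _ g
    let r : E → E := fun g => (q g).out
    have hr : ∀ g, g * (r g)⁻¹ ∈ Subgroup.closure H := by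
      intro g
      have : (QuotientGroup.rightRel (Subgroup.closure H)) (r g) g :=
        Quotient.exact (Quotient.out_eq (q g))
      rwa [QuotientGroup.rightRel_apply] at this
    let F : E → Amb H := fun g => (⟨g * (r g)⁻¹, hr g⟩, FreeGroup.of (q g))
    have hFinj : Function.Injective F := by
      intro g g' h
      have h1 : q g = q g' := FreeGroup.of_injective (congrArg Prod.snd h)
      have h2 : g * (r g)⁻¹ = g' * (r g')⁻¹ := congrArg (fun x => (x.1 : E)) h
      have h3 : r g = r g' := by simp [r, h1]
      rw [h3] at h2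
      exact mul_right_cancel h2
    have hF : ∀ g g', (X E H).Adj g g' ↔ (X (Amb H) (ambH H)).Adj (F g) (F g') := by
      intro g g'
      rw [X_adj h1E, X_adj h1A]
      have key : ∀ g g' : E, g' * g⁻¹ ∈ H ↔ F g' * (F g)⁻¹ ∈ ambH H := by
        intro g g'
        constructor
        · intro h
          have hq : q g = q g' := by
            apply Quotient.sound
            change (QuotientGroup.rightRel (Subgroup.closure H)) g g'
            rw [QuotientGroup.rightRel_apply]
            exact Subgroup.subset_closure h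
          left
          refine ⟨?_, ?_⟩
          · have : r g = r g' := by simp [r, hq]
            simpa [F, this] using h
          · simp [F, hq]
        · rintro (⟨h1, h2⟩ | ⟨h1, c, h2⟩)
          · have h3 : FreeGroup.of (q g') * (FreeGroup.of (q g))⁻¹ = 1 := h2
            have h4 : q g' = q g := FreeGroup.of_injective (mul_inv_eq_one.1 h3)
            have : r g' = r g := by simp [r, h4]
            simpa [F, this] using h1
          · exfalso
            have h3 : FreeGroup.of (q g') * (FreeGroup.of (q g))⁻¹ = FreeGroup.of c := h2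
            have h4 := congrArg
              (FreeGroup.lift fun _ : Cos H => Multiplicative.ofAdd (1 : ℤ)) h3
            simp at h4
            have h5 : (0 : ℤ) = 1 := h4
            omega
      rw [key g g', key g' g]
    exact ⟨⟨⟨fun v => F (e v), fun a b h => e.injective (hFinj h)⟩, by
      intro a b
      show (X (Amb H) (ambH H)).Adj (F (e a)) (F (e b)) ↔ Y.Adj a b
      rw [← hF]
      exact e.map_rel_iff⟩⟩

/-- transfer of an embedding through an injective homomorphism -/
theorem emb_of_hom {V : Type v} (Y : SimpleGraph V) {G : Type w} [Group G] {H : Set G}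
    (hH : Indep H) (e : Y ↪g X G H) {E : Type u} [Group E] (f : E →* G)
    (hf : Function.Injective f) (hr : ∀ v, ∃ x, f x = e v) : Emb.{u} Y := by
  have hI : Indep (f ⁻¹' H) := hH.of_hom f hf.injOn (fun h hh => hh)
  choose s hs using hr
  refine emb_of_indep Y (f ⁻¹' H) hI ⟨⟨s, ?_⟩, ?_⟩
  · intro a b h
    apply e.injective
    rw [← hs a, ← hs b, h]
  · intro a b
    show (X E (f ⁻¹' H)).Adj (s a) (s b) ↔ Y.Adj a b
    rw [← e.map_rel_iff]
    show _ ↔ (X G H).Adj (e a) (e b)
    rw [X_adj hI.one_notMem, X_adj hH.one_notMem, ← hs a, ← hs b]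
    simp

theorem emb_ulift {V : Type v} (Y : SimpleGraph V) (h : Emb.{0} Y) : Emb.{u} Y := by
  obtain ⟨G, hG, H, h1, h2, ⟨e⟩⟩ := h
  let f : ULift.{u} G →* G := (MulEquiv.ulift (α := G)).toMonoidHom
  have hf : Function.Injective f := (MulEquiv.ulift (α := G)).injective
  exact emb_of_hom Y h2.indep e f hf (fun v => ⟨ULift.up (e v), rfl⟩)

/-- a countable graph needs only countable groups -/
theorem emb_down {V : Type v} [Countable V] (Y : SimpleGraph V) (h : Emb.{u} Y) :
    Emb.{0} Y := by
  obtain ⟨G, hG, H, h1, h2, ⟨e⟩⟩ := h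
  let φ : FreeGroup V →* G := FreeGroup.lift (fun v => e v)
  have hc : Countable (FreeGroup V) := by
    unfold FreeGroup
    infer_instance
  have hK : Countable φ.range := φ.rangeRestrict_surjective.countable
  have : Small.{0} φ.range := inferInstance
  let f : Shrink.{0} φ.range →* G := φ.range.subtype.comp (Shrink.mulEquiv.toMonoidHom)
  refine emb_of_hom Y h2.indep e f ?_ ?_
  · exact Subtype.val_injective.comp Shrink.mulEquiv.injective
  · intro v
    have hv : e v ∈ φ.range := ⟨FreeGroup.of v, by simp [φ]⟩
    refine ⟨Shrink.mulEquiv.symm ⟨e v, hv⟩, ?_⟩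
    simp [f]

theorem emb_iso {V : Type v} {W : Type w} {Y : SimpleGraph V} {Z : SimpleGraph W}
    (f : Z ↪g Y) (h : Emb.{u} Y) : Emb.{u} Z := by
  obtain ⟨G, hG, H, h1, h2, ⟨e⟩⟩ := h
  exact ⟨G, hG, H, h1, h2, ⟨e.comp f⟩⟩

end IrrCay
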