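import Pool.Agent.IrrCay.EGroup
import Pool.Agent.IrrCay.EmbBasic

/-! # Completeness of the pattern -/

set_option autoImplicit false

namespace IrrCay

universe u v w

/-- every finite induced subgraph has a code -/
theorem exists_code {V : Type v} (Y : SimpleGraph V) (T : Set V) (hT : T.Finite) :
    ∃ p : ℕ × List (ℕ × ℕ), Nonempty (Y.induce T ≃g ofCode p) := by
  classical
  have := hT.fintype
  let n := Fintype.card T
  let e : T ≃ Fin n := Fintype.equivFin T
  let L : List (ℕ × ℕ) := ((Finset.univ : Finset (Fin n × Fin n)).filter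
    fun q => Y.Adj (e.symm q.1) (e.symm q.2)).toList.map fun q => ((q.1 : ℕ), (q.2 : ℕ))
  have hL : ∀ i j : Fin n, ((i : ℕ), (j : ℕ)) ∈ L ↔ Y.Adj (e.symm i) (e.symm j) := by
    intro i j
    simp only [L, List.mem_map, Finset.mem_toList, Finset.mem_filter, Finset.mem_univ, true_and]
    constructor
    · rintro ⟨⟨a, b⟩, h, h2⟩
      rw [Prod.mk.injEq] at h2
      have h3 : a = i := Fin.ext h2.1
      have h4 : b = j := Fin.ext h2.2
      rw [← h3, ← h4]
      exact h
    · intro h
      exact ⟨(i, j), h, rfl⟩
  refine ⟨(n, L), ⟨⟨e, ?_⟩⟩⟩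
  intro a b
  change (e a ≠ e b ∧ (((e a : ℕ), (e b : ℕ)) ∈ L ∨ ((e b : ℕ), (e a : ℕ)) ∈ L)) ↔ Y.Adj a b
  rw [hL, hL, Equiv.symm_apply_apply, Equiv.symm_apply_apply]
  constructor
  · rintro ⟨-, h | h⟩
    · exact h
    · exact h.symm
  · intro h
    refine ⟨fun h2 => ?_, Or.inl h⟩
    have := e.injective h2
    rw [this] at h
    exact h.ne rfl

theorem complete_row {I : Type} {V : Type v} {W : Type w} {Y : SimpleGraph V}
    {Z : SimpleGraph W} (f : Y ↪g Z) {x : I → B → V} (h : RowOK Y x) :
    RowOK Z fun i g => f (x i g) :=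
  ⟨fun i _ _ hab => h.inj i (f.injective hab), fun i s hs g => f.map_adj_iff.2 (h.adj i s hs g),
    fun i i' => by rw [h.base i i']⟩

theorem complete_tri {I : Type} {V : Type v} {W : Type w} {Y : SimpleGraph V}
    {Z : SimpleGraph W} (f : Y ↪g Z) {j : I} {x y w : I → B → V} (h : TriOK Y j x y w) :
    TriOK Z j (fun i g => f (x i g)) (fun i g => f (y i g)) fun i g => f (w i g) := by
  refine ⟨fun g => by rw [h.self1 g], fun g => by rw [h.self2 g], fun i hij s hs => ?_,
    fun i hij s hs c hc => ?_⟩
  · obtain ⟨h1, h2, h3⟩ := h.adj i hij s hs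
    exact ⟨f.map_adj_iff.2 h1, f.map_adj_iff.2 h2, f.map_adj_iff.2 h3⟩
  · obtain ⟨h1, h2, h3, h4, h5, h6⟩ := h.dist i hij s hs c hc
    exact ⟨fun h => h1 (f.injective h), fun h => h2 (f.injective h), fun h => h3 (f.injective h),
      fun h => h4 (f.injective h), fun h => h5 (f.injective h), fun h => h6 (f.injective h)⟩

theorem complete_walk {I : Type} {V : Type v} {W : Type w} {Y : SimpleGraph V}
    {Z : SimpleGraph W} (f : Y ↪g Z) {x : I → B → V} {l : List (I × Bool)} {z : I → B → V}
    (h : Walk Y x l z) : Walk Z (fun i g => f (x i g)) l fun i g => f (z i g) := by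
  induction h with
  | nil h => exact Walk.nil (complete_row f h)
  | cons hw hz hs ih =>
    refine Walk.cons ih (complete_row f hz) ?_
    obtain ⟨w, hwr, ⟨hb, ht⟩ | ⟨hb, ht⟩⟩ := hs
    · exact ⟨_, complete_row f hwr, Or.inl ⟨hb, complete_tri f ht⟩⟩
    · exact ⟨_, complete_row f hwr, Or.inr ⟨hb, complete_tri f ht⟩⟩

theorem Pat.iso {I : Type} {V : Type v} {W : Type w} {Y : SimpleGraph V} {Z : SimpleGraph W}
    (f : Y ≃g Z) (rels : List (List (I × Bool))) (l : List (I × Bool)) (h : Pat rels l Y) :
    Pat rels l Z := by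
  obtain ⟨x, hx, hrel, z, hz, hne⟩ := h
  exact ⟨fun i g => f (x i g), complete_row f.toEmbedding hx,
    fun ρ hρ => complete_walk f.toEmbedding (hrel ρ hρ), fun i g => f (z i g),
    complete_walk f.toEmbedding hz, fun i h => hne i (f.injective h)⟩

theorem complete_lift {I : Type} {G : Type u} [Group G] (r : I → G) (a : I × Bool)
    (l : List (I × Bool)) : FreeGroup.lift r (FreeGroup.mk (a :: l)) =
      (if a.2 = true then r a.1 else (r a.1)⁻¹) * FreeGroup.lift r (FreeGroup.mk l) := by
  obtain ⟨i, b⟩ := a
  rw [FreeGroup.lift_mk, FreeGroup.lift_mk, List.map_cons, List.prod_cons]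
  cases b <;> simp

theorem complete_theta {I : Type} (rels : List (List (I × Bool))) (x : FreeGroup I) :
    FreeGroup.lift (eR rels) x = ((QuotientGroup.mk x : Gam rels), (1 : I → A4)) := by
  have h : FreeGroup.lift (eR rels) =
      MonoidHom.prod (QuotientGroup.mk' (NC rels)) (1 : FreeGroup I →* (I → A4)) := by
    refine FreeGroup.ext_hom _ _ fun i => ?_
    rw [FreeGroup.lift_apply_of]
    rfl
  rw [h]
  rfl

section

variable {I : Type} (rels : List (List (I × Bool))) (β : I → B →* EG rels)

/-- the vertices used -/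
def completeT (N : ℕ) : Set (EG rels) :=
  {y | ∃ (i : I) (g : B) (l : List (I × Bool)), l.length ≤ N ∧
    y = β i g * FreeGroup.lift (eR rels) (FreeGroup.mk l)}

theorem completeT_finite [Finite I] (N : ℕ) : (completeT rels β N).Finite := by
  have h1 : {l : List (I × Bool) | l.length ≤ N}.Finite := List.finite_length_le _ _
  have h2 : ((fun q : I × B × List (I × Bool) =>
      β q.1 q.2.1 * FreeGroup.lift (eR rels) (FreeGroup.mk q.2.2)) ''
      (Set.univ ×ˢ (Set.univ ×ˢ {l : List (I × Bool) | l.length ≤ N}))).Finite := by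
    refine Set.Finite.image _ ?_
    exact Set.finite_univ.prod (Set.finite_univ.prod h1)
  refine h2.subset ?_
  rintro _ ⟨i, g, l, hl, rfl⟩
  exact ⟨(i, g, l), ⟨trivial, trivial, hl⟩, rfl⟩

open Classical in
/-- the row at a point -/
noncomputable def completeRow (N : ℕ) (t₀ : completeT rels β N) (y : EG rels) :
    I → B → completeT rels β N :=
  fun i g => if h : β i g * y ∈ completeT rels β N then ⟨β i g * y, h⟩ else t₀

variable {rels β}

theorem completeRow_val {N : ℕ} (t₀ : completeT rels β N) {l : List (I × Bool)}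
    (hl : l.length ≤ N) (i : I) (g : B) :
    (completeRow rels β N t₀ (FreeGroup.lift (eR rels) (FreeGroup.mk l)) i g : EG rels) =
      β i g * FreeGroup.lift (eR rels) (FreeGroup.mk l) := by
  rw [completeRow, dif_pos ⟨i, g, l, hl, rfl⟩]

variable (hinj : ∀ i, Function.Injective (β i)) (hP : ∀ i, β i bP = eP rels i)
  (hQ : ∀ i, β i bQ = eQ rels i) (hR : ∀ i, β i bR = eR rels i)
  (hz : ∀ i j, Commute (β i bz) (eR rels j)) (hρ : ExpOK rels)

include hinj hP hQ hR in
theorem completeRow_ok {N : ℕ} (t₀ : completeT rels β N) {l : List (I × Bool)}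
    (hl : l.length ≤ N) : RowOK ((X (EG rels) (eH rels)).induce (completeT rels β N))
      (completeRow rels β N t₀ (FreeGroup.lift (eR rels) (FreeGroup.mk l))) := by
  refine ⟨fun i a b h => ?_, fun i s hs g => ?_, fun i i' => ?_⟩
  · have h2 := congrArg Subtype.val h
    rw [completeRow_val t₀ hl, completeRow_val t₀ hl] at h2
    exact hinj i (mul_right_cancel h2)
  · rw [SimpleGraph.comap_adj]
    change (X (EG rels) (eH rels)).Adj (completeRow rels β N t₀ _ i g : EG rels)
      (completeRow rels β N t₀ _ i (s * g) : EG rels)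
    rw [completeRow_val t₀ hl, completeRow_val t₀ hl, map_mul, mul_assoc]
    have hs1 : s ≠ 1 := by
      rintro rfl
      revert hs
      decide +kernel
    have hmem : β i s ∈ eH rels := by
      rcases List.mem_cons.1 hs with rfl | hs
      · rw [hP]; exact Or.inl (Or.inl ⟨i, rfl⟩)
      rcases List.mem_cons.1 hs with rfl | hs
      · rw [hQ]; exact Or.inl (Or.inr ⟨i, rfl⟩)
      rcases List.mem_cons.1 hs with rfl | hs
      · rw [hR]; exact Or.inr ⟨i, rfl⟩
      · exact absurd hs List.not_mem_nil
    refine ⟨fun h => ?_, Or.inl ⟨_, hmem, rfl⟩⟩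
    have h2 : β i s = 1 := by
      rw [eq_comm, mul_eq_right] at h
      exact h
    exact hs1 (hinj i (by rw [h2, map_one]))
  · apply Subtype.ext
    rw [completeRow_val t₀ hl, completeRow_val t₀ hl, map_one, map_one]

include hR in
theorem complete_cube (j : I) : eR rels j * (eR rels j * eR rels j) = 1 := by
  rw [← hR, ← map_mul, ← map_mul]
  have : bR * (bR * bR) = 1 := by decide +kernel
  rw [this, map_one]

include hz in
theorem complete_comm {i : I} {s : B} (hs : s ∈ pos) (j : I) : Commute (β i s) (eR rels j) := by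
  rcases List.mem_cons.1 hs with rfl | hs
  · rw [map_one]
    exact Commute.one_left _
  rcases List.mem_cons.1 hs with rfl | hs
  · exact hz i j
  rcases List.mem_cons.1 hs with rfl | hs
  · rw [map_inv]
    exact (hz i j).inv_left
  · exact absurd hs List.not_mem_nil

include hinj hP hQ hR hz hρ in
theorem completeRow_tri {N : ℕ} (t₀ : completeT rels β N) {j : I} {u : EG rels}
    {l0 l1 l2 : List (I × Bool)} (hl0 : l0.length ≤ N) (hl1 : l1.length ≤ N)
    (hl2 : l2.length ≤ N) (e0 : FreeGroup.lift (eR rels) (FreeGroup.mk l0) = u)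
    (e1 : FreeGroup.lift (eR rels) (FreeGroup.mk l1) = eR rels j * u)
    (e2 : FreeGroup.lift (eR rels) (FreeGroup.mk l2) = eR rels j * (eR rels j * u)) :
    TriOK ((X (EG rels) (eH rels)).induce (completeT rels β N)) j
      (completeRow rels β N t₀ u) (completeRow rels β N t₀ (eR rels j * u))
      (completeRow rels β N t₀ (eR rels j * (eR rels j * u))) := by
  have v0 : ∀ i g, (completeRow rels β N t₀ u i g : EG rels) = β i g * u := by
    intro i g
    rw [← e0]
    exact completeRow_val t₀ hl0 i g
  have v1 : ∀ i g, (completeRow rels β N t₀ (eR rels j * u) i g : EG rels) =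
      β i g * (eR rels j * u) := by
    intro i g
    rw [← e1]
    exact completeRow_val t₀ hl1 i g
  have v2 : ∀ i g, (completeRow rels β N t₀ (eR rels j * (eR rels j * u)) i g : EG rels) =
      β i g * (eR rels j * (eR rels j * u)) := by
    intro i g
    rw [← e2]
    exact completeRow_val t₀ hl2 i g
  have hcube := complete_cube hR j
  have hR1 : eR rels j ≠ 1 := by
    intro h
    rw [← hR] at h
    have : bR = 1 := hinj j (by rw [h, map_one])
    revert this
    decide +kernel
  have hmem : eR rels j ∈ eH rels := Or.inr ⟨j, rfl⟩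
  refine ⟨fun g => ?_, fun g => ?_, fun i hij s hs => ?_, fun i hij s hs c hc => ?_⟩
  · apply Subtype.ext
    rw [v1, v0, map_mul, hR, mul_assoc]
  · apply Subtype.ext
    rw [v2, v0, map_mul, map_mul, hR]
    group
  · have hc := complete_comm hz (i := i) hs j
    have w1 : (completeRow rels β N t₀ (eR rels j * u) i s : EG rels) =
        eR rels j * (completeRow rels β N t₀ u i s : EG rels) := by
      rw [v1, v0, ← mul_assoc, hc.eq, mul_assoc]
    have w2 : (completeRow rels β N t₀ (eR rels j * (eR rels j * u)) i s : EG rels) =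
        eR rels j * (completeRow rels β N t₀ (eR rels j * u) i s : EG rels) := by
      rw [v2, v1, ← mul_assoc, hc.eq, mul_assoc]
    have w3 : (completeRow rels β N t₀ u i s : EG rels) =
        eR rels j * (completeRow rels β N t₀ (eR rels j * (eR rels j * u)) i s : EG rels) := by
      rw [w2, w1, ← mul_assoc, ← mul_assoc, mul_assoc (eR rels j), hcube, one_mul]
    have key : ∀ a b : completeT rels β N, (b : EG rels) = eR rels j * a →
        ((X (EG rels) (eH rels)).induce (completeT rels β N)).Adj a b := by
      intro a b hab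
      rw [SimpleGraph.comap_adj]
      change (X (EG rels) (eH rels)).Adj (a : EG rels) (b : EG rels)
      rw [hab]
      refine ⟨fun h => ?_, Or.inl ⟨_, hmem, rfl⟩⟩
      rw [eq_comm, mul_eq_right] at h
      exact hR1 h
    exact ⟨key _ _ w1, key _ _ w2, key _ _ w3⟩
  · have hcm := complete_comm hz (i := i) hs j
    obtain ⟨n1, n2⟩ := eR_ne rels hρ β hP hQ hR hij c hc
    -- everything in terms of `a = β i s * u`
    have y0 : (completeRow rels β N t₀ u i s : EG rels) = β i s * u := v0 i s
    have y1 : (completeRow rels β N t₀ (eR rels j * u) i s : EG rels) =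
        eR rels j * (β i s * u) := by
      rw [v1, ← mul_assoc, hcm.eq, mul_assoc]
    have y2 : (completeRow rels β N t₀ (eR rels j * (eR rels j * u)) i s : EG rels) =
        (eR rels j)⁻¹ * (β i s * u) := by
      have h3 : eR rels j * eR rels j = (eR rels j)⁻¹ := by
        rw [eq_inv_iff_mul_eq_one, mul_assoc]
        exact hcube
      rw [v2, ← mul_assoc (eR rels j), h3, ← mul_assoc, hcm.inv_right.eq, mul_assoc]
    have x0 : (completeRow rels β N t₀ u i (c * s) : EG rels) = β i c * (β i s * u) := by
      rw [v0, map_mul, mul_assoc]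
    have x1 : (completeRow rels β N t₀ (eR rels j * u) i (c * s) : EG rels) =
        β i c * (eR rels j * (β i s * u)) := by
      rw [← y1, v1, v1, map_mul, mul_assoc]
    have x2 : (completeRow rels β N t₀ (eR rels j * (eR rels j * u)) i (c * s) : EG rels) =
        β i c * ((eR rels j)⁻¹ * (β i s * u)) := by
      rw [← y2, v2, v2, map_mul, mul_assoc]
    have h3 : (eR rels j)⁻¹ * (eR rels j)⁻¹ = eR rels j := by
      rw [← _root_.mul_inv_rev, inv_eq_iff_mul_eq_one, mul_assoc]
      exact hcube
    refine ⟨fun h => ?_, fun h => ?_, fun h => ?_, fun h => ?_, fun h => ?_, fun h => ?_⟩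
    · have h := congrArg Subtype.val h
      rw [x0, y1] at h
      exact n1 (mul_right_cancel h)
    · have h := congrArg Subtype.val h
      rw [x0, y2] at h
      exact n2 (mul_right_cancel h)
    · have h := congrArg Subtype.val h
      rw [x1, y0, ← mul_assoc, mul_eq_right] at h
      exact n2 (eq_inv_of_mul_eq_one_left h)
    · have h := congrArg Subtype.val h
      rw [x1, y2, ← mul_assoc] at h
      have h := mul_right_cancel h
      rw [← eq_mul_inv_iff_mul_eq, h3] at h
      exact n1 h
    · have h := congrArg Subtype.val h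
      rw [x2, y0, ← mul_assoc, mul_eq_right] at h
      have := eq_inv_of_mul_eq_one_left h
      rw [inv_inv] at this
      exact n1 this
    · have h := congrArg Subtype.val h
      rw [x2, y1, ← mul_assoc] at h
      have h := mul_right_cancel h
      rw [← eq_mul_inv_iff_mul_eq, inv_inv] at h
      apply n2
      rw [h, eq_inv_iff_mul_eq_one, mul_assoc]
      exact hcube

include hinj hP hQ hR hz hρ in
theorem complete_reads {N : ℕ} (t₀ : completeT rels β N) (l : List (I × Bool))
    (hl : l.length + 1 ≤ N) : Walk ((X (EG rels) (eH rels)).induce (completeT rels β N))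
      (completeRow rels β N t₀ 1) l
      (completeRow rels β N t₀ (FreeGroup.lift (eR rels) (FreeGroup.mk l))) := by
  induction l with
  | nil =>
    have h1 : FreeGroup.lift (eR rels) (FreeGroup.mk ([] : List (I × Bool))) = 1 := by
      rw [FreeGroup.lift_mk]
      simp
    have := completeRow_ok hinj hP hQ hR t₀ (l := []) (Nat.zero_le N)
    rw [h1] at this ⊢
    exact Walk.nil this
  | cons a l ih =>
    have hl' : l.length + 1 + 1 ≤ N := by simpa using hl
    have ih := ih (by omega)
    refine Walk.cons ih (completeRow_ok hinj hP hQ hR t₀ (by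
      rw [List.length_cons]; omega)) ?_
    obtain ⟨j, b⟩ := a
    set u := FreeGroup.lift (eR rels) (FreeGroup.mk l) with hu
    have et : FreeGroup.lift (eR rels) (FreeGroup.mk ((j, true) :: l)) = eR rels j * u := by
      rw [complete_lift, if_pos rfl]
    have ef : FreeGroup.lift (eR rels) (FreeGroup.mk ((j, false) :: l)) =
        (eR rels j)⁻¹ * u := by
      rw [complete_lift, if_neg (by simp)]
    have hcube := complete_cube hR j
    have h3 : eR rels j * (eR rels j * u) = (eR rels j)⁻¹ * u := by
      rw [← mul_assoc]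
      congr 1
      rw [eq_inv_iff_mul_eq_one, mul_assoc]
      exact hcube
    have hlen : ∀ b, ((j, b) :: l).length ≤ N := by
      intro b
      rw [List.length_cons]
      omega
    have oF := completeRow_ok hinj hP hQ hR t₀ (hlen false)
    have oT := completeRow_ok hinj hP hQ hR t₀ (hlen true)
    rw [et] at oT
    rw [ef] at oF
    cases b
    · -- from `u` to `R_j⁻¹ u`
      rw [ef]
      refine ⟨completeRow rels β N t₀ (eR rels j * u), oT, Or.inr ⟨rfl, ?_⟩⟩
      have h4 : eR rels j * ((eR rels j)⁻¹ * u) = u := mul_inv_cancel_left _ _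
      have := completeRow_tri hinj hP hQ hR hz hρ t₀ (j := j) (u := (eR rels j)⁻¹ * u)
        (hlen false) (by omega : l.length ≤ N) (hlen true) ef (by rw [h4]) (by rw [h4, et])
      rw [h4] at this
      exact this
    · rw [et]
      refine ⟨completeRow rels β N t₀ ((eR rels j)⁻¹ * u), oF, Or.inl ⟨rfl, ?_⟩⟩
      have := completeRow_tri hinj hP hQ hR hz hρ t₀ (j := j) (u := u)
        (by omega : l.length ≤ N) (hlen true) (hlen false) hu.symm et (by rw [h3, ef])
      rw [h3] at this
      exact this

end

theorem pat_complete {I : Type} [Finite I] [Nonempty I] (rels : List (List (I × Bool)))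
    (l : List (I × Bool)) (hρ : ExpOK rels) (hw : FreeGroup.mk l ∉ NC rels) :
    ∃ p : ℕ × List (ℕ × ℕ), Emb.{u} (ofCode p) ∧ Pat rels l (ofCode p) := by
  obtain ⟨β, hinj, hP, hQ, hR, hz⟩ := exists_block rels hρ
  obtain ⟨i₀⟩ := ‹Nonempty I›
  let N : ℕ := ((l :: rels).map List.length).sum + 1
  have hN : ∀ ρ ∈ l :: rels, ρ.length + 1 ≤ N := by
    intro ρ hρ
    have : ρ.length ≤ ((l :: rels).map List.length).sum :=
      List.single_le_sum (fun _ _ => Nat.zero_le _) _ (List.mem_map.2 ⟨ρ, hρ, rfl⟩)
    omega
  let t₀ : completeT rels β N := ⟨β i₀ 1 * FreeGroup.lift (eR rels) (FreeGroup.mk []),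
    i₀, 1, [], Nat.zero_le _, rfl⟩
  have h1 : FreeGroup.lift (eR rels) (FreeGroup.mk ([] : List (I × Bool))) = 1 := by
    rw [FreeGroup.lift_mk]
    simp
  have hrow1 : RowOK ((X (EG rels) (eH rels)).induce (completeT rels β N))
      (completeRow rels β N t₀ 1) := by
    have := completeRow_ok hinj hP hQ hR t₀ (l := []) (Nat.zero_le N)
    rwa [h1] at this
  have hpat : Pat rels l ((X (EG rels) (eH rels)).induce (completeT rels β N)) := by
    refine ⟨completeRow rels β N t₀ 1, hrow1, ?_, _,
      complete_reads hinj hP hQ hR hz hρ t₀ l (hN l List.mem_cons_self), ?_⟩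
    · intro ρ hmem
      have h2 := complete_reads hinj hP hQ hR hz hρ t₀ ρ (hN ρ (List.mem_cons_of_mem _ hmem))
      have h3 : FreeGroup.lift (eR rels) (FreeGroup.mk ρ) = 1 := by
        rw [complete_theta]
        have : (QuotientGroup.mk (FreeGroup.mk ρ) : Gam rels) = 1 := by
          rw [QuotientGroup.eq_one_iff]
          exact Subgroup.subset_normalClosure (Or.inl ⟨ρ, hmem, rfl⟩)
        rw [this]
        rfl
      rw [h3] at h2
      exact h2
    · intro i h
      have h2 := congrArg Subtype.val h
      have v1 := completeRow_val (β := β) t₀ (l := []) (Nat.zero_le N) i 1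
      rw [h1] at v1
      rw [v1, completeRow_val t₀ (by have := hN l List.mem_cons_self; omega), map_one, one_mul,
        one_mul, complete_theta] at h2
      apply hw
      rw [← QuotientGroup.eq_one_iff]
      exact congrArg Prod.fst h2
  obtain ⟨p, ⟨f⟩⟩ := exists_code (X (EG rels) (eH rels)) _ (completeT_finite rels β N)
  refine ⟨p, ?_, hpat.iso f rels l⟩
  apply emb_ulift
  refine emb_iso f.symm.toEmbedding ?_
  exact emb_of_indep _ (eH rels) (eH_indep rels hρ) (SimpleGraph.Embedding.induce _)

end IrrCay
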