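import Pool.Agent.IrrCay.EmbBasic

/-! # A criterion for embeddability by labellings -/

set_option autoImplicit false

namespace IrrCay

universe u

variable {V : Type u} {C : Type u}

/-- The label of a walk: the product of the labels of its steps, the last step first. -/
def lab (Y : SimpleGraph V) (l : V → V → FreeGroup C) : ∀ {x y : V}, Y.Walk x y → FreeGroup C
  | _, _, .nil => 1
  | _, _, .cons (u := x) (v := y) _ p => lab Y l p * l x y

/-- The normal subgroup generated by the labels of all closed walks. -/
def Ker (Y : SimpleGraph V) (l : V → V → FreeGroup C) : Subgroup (FreeGroup C) :=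
  Subgroup.normalClosure {g | ∃ (x : V) (p : Y.Walk x x), g = lab Y l p}

/-- A good labelling of the graph `Y` by the colours `C`: every ordered pair of adjacent vertices
is labelled by a colour or by the inverse of a colour, such that in the group with generators `C`
and with the labels of the closed walks as relators
* no colour lies in the subgroup generated by the other colours,
* the label of a walk with different ends is not trivial,
* the label of a walk whose ends are different and not adjacent is neither a colour nor the inverse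
  of a colour. -/
structure GoodLab (Y : SimpleGraph V) (l : V → V → FreeGroup C) : Prop where
  letter : ∀ x y, Y.Adj x y → ∃ c, l x y = FreeGroup.of c ∨ l x y = (FreeGroup.of c)⁻¹
  indep : ∀ c, FreeGroup.of c ∉
    Ker Y l ⊔ Subgroup.closure {g | ∃ c', c' ≠ c ∧ g = FreeGroup.of c'}
  inj : ∀ x y (p : Y.Walk x y), x ≠ y → lab Y l p ∉ Ker Y l
  induced : ∀ x y (p : Y.Walk x y), x ≠ y → ¬ Y.Adj x y → ∀ c,
    lab Y l p * (FreeGroup.of c)⁻¹ ∉ Ker Y l ∧ lab Y l p * FreeGroup.of c ∉ Ker Y l

instance (Y : SimpleGraph V) (l : V → V → FreeGroup C) : (Ker Y l).Normal :=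
  Subgroup.normalClosure_normal

theorem lab_append (Y : SimpleGraph V) (l : V → V → FreeGroup C) {x y z : V}
    (p : Y.Walk x y) (q : Y.Walk y z) : lab Y l (p.append q) = lab Y l q * lab Y l p := by
  induction p with
  | nil => simp [lab]
  | cons h p ih => rw [SimpleGraph.Walk.cons_append, lab, lab, ih, mul_assoc]

theorem lab_closed (Y : SimpleGraph V) (l : V → V → FreeGroup C) {x : V} (p : Y.Walk x x) :
    lab Y l p ∈ Ker Y l := Subgroup.subset_normalClosure ⟨x, p, rfl⟩

theorem exists_pos (Y : SimpleGraph V) (l : V → V → FreeGroup C) :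
    ∃ g : V → FreeGroup C ⧸ Ker Y l, ∀ v v' (p : Y.Walk v v'),
      g v' = QuotientGroup.mk (lab Y l p) * g v := by
  classical
  have hr : ∀ v : V, Nonempty (Y.Walk (Quot.out (Y.connectedComponentMk v)) v) := by
    intro v
    exact SimpleGraph.ConnectedComponent.exact (Quot.out_eq _)
  let P : ∀ v : V, Y.Walk (Quot.out (Y.connectedComponentMk v)) v := fun v => (hr v).some
  refine ⟨fun v => QuotientGroup.mk (lab Y l (P v)), ?_⟩
  have key : ∀ (x x' v v' : V) (p : Y.Walk x v) (q : Y.Walk x' v') (w : Y.Walk v v'), x = x' →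
      (QuotientGroup.mk (lab Y l q) : FreeGroup C ⧸ Ker Y l) =
        QuotientGroup.mk (lab Y l w) * QuotientGroup.mk (lab Y l p) := by
    intro x x' v v' p q w hx
    subst hx
    have h1 : lab Y l (q.append q.reverse) ∈ Ker Y l := lab_closed Y l _
    have h2 : lab Y l ((p.append w).append q.reverse) ∈ Ker Y l := lab_closed Y l _
    rw [lab_append] at h1
    rw [lab_append, lab_append] at h2
    rw [← QuotientGroup.eq_one_iff, QuotientGroup.mk_mul] at h1 h2
    rw [QuotientGroup.mk_mul] at h2
    exact mul_left_cancel (h1.trans h2.symm)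
  intro v v' p
  refine key _ _ _ _ _ _ _ ?_
  have : Y.connectedComponentMk v = Y.connectedComponentMk v' :=
    SimpleGraph.ConnectedComponent.sound ⟨p⟩
  rw [this]

theorem criterion (Y : SimpleGraph V) :
    Emb.{u} Y ↔ ∃ (C : Type u) (l : V → V → FreeGroup C), GoodLab Y l := by
  classical
  constructor
  · rintro ⟨G, hG, H, h1, hirr, ⟨e⟩⟩
    have hind := hirr.indep
    let l : V → V → FreeGroup H := fun x y =>
      if h : e y * (e x)⁻¹ ∈ H then FreeGroup.of ⟨_, h⟩
      else if h : (e y * (e x)⁻¹)⁻¹ ∈ H then (FreeGroup.of ⟨_, h⟩)⁻¹ else 1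
    let f : FreeGroup H →* G := FreeGroup.lift fun h => (h : G)
    have hl : ∀ x y, Y.Adj x y → (∃ c, l x y = FreeGroup.of c ∨ l x y = (FreeGroup.of c)⁻¹) ∧
        f (l x y) = e y * (e x)⁻¹ := by
      intro x y hxy
      have hadj : (X G H).Adj (e x) (e y) := e.map_rel_iff.2 hxy
      rcases adj_ltr hadj with h | h
      · have : l x y = FreeGroup.of ⟨_, h⟩ := dif_pos h
        refine ⟨⟨_, Or.inl this⟩, ?_⟩
        rw [this]; simp [f]
      · by_cases h' : e y * (e x)⁻¹ ∈ H
        · have : l x y = FreeGroup.of ⟨_, h'⟩ := dif_pos h'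
          refine ⟨⟨_, Or.inl this⟩, ?_⟩
          rw [this]; simp [f]
        · have : l x y = (FreeGroup.of ⟨_, h⟩)⁻¹ := by
            simp only [l]
            rw [dif_neg h', dif_pos h]
          refine ⟨⟨_, Or.inr this⟩, ?_⟩
          rw [this]; simp [f]
    have hf : ∀ {x y : V} (p : Y.Walk x y), f (lab Y l p) = e y * (e x)⁻¹ := by
      intro x y p
      induction p with
      | nil => simp [lab]
      | cons h p ih => rw [lab, map_mul, ih, (hl _ _ h).2]; group
    have hker : Ker Y l ≤ f.ker := by
      refine Subgroup.normalClosure_le_normal ?_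
      rintro g ⟨x, p, rfl⟩
      rw [SetLike.mem_coe, MonoidHom.mem_ker, hf]; group
    refine ⟨H, l, ?_, ?_, ?_, ?_⟩
    · intro x y h
      exact (hl x y h).1
    · intro c hc
      have hmap : Ker Y l ⊔ Subgroup.closure {g | ∃ c', c' ≠ c ∧ g = FreeGroup.of c'} ≤
          (Subgroup.closure (H \ {(c : G)})).comap f := by
        refine sup_le ?_ ?_
        · intro g hg
          rw [Subgroup.mem_comap, MonoidHom.mem_ker.1 (hker hg)]
          exact one_mem _
        · rw [Subgroup.closure_le]
          rintro g ⟨c', hc', rfl⟩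
          rw [SetLike.mem_coe, Subgroup.mem_comap]
          simp only [f, FreeGroup.lift_apply_of]
          refine Subgroup.subset_closure ⟨c'.2, ?_⟩
          intro h
          exact hc' (Subtype.ext h)
      have := hmap hc
      rw [Subgroup.mem_comap] at this
      simp only [f, FreeGroup.lift_apply_of] at this
      exact hind _ c.2 this
    · intro x y p hxy h
      have h2 := hker h
      rw [MonoidHom.mem_ker, hf, mul_inv_eq_one] at h2
      exact hxy (e.injective h2.symm)
    · intro x y p hxy hn c
      constructor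
      · intro h
        have h2 := hker h
        rw [MonoidHom.mem_ker, map_mul, hf, map_inv] at h2
        simp only [f, FreeGroup.lift_apply_of] at h2
        apply hn
        apply e.map_rel_iff.1
        refine ⟨fun h' => hxy (e.injective h'), Or.inl ⟨c, c.2, ?_⟩⟩
        rw [mul_inv_eq_one, mul_inv_eq_iff_eq_mul] at h2
        exact h2
      · intro h
        have h2 := hker h
        rw [MonoidHom.mem_ker, map_mul, hf] at h2
        simp only [f, FreeGroup.lift_apply_of] at h2
        apply hn
        apply e.map_rel_iff.1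
        refine ⟨fun h' => hxy (e.injective h'), Or.inr ⟨c, c.2, ?_⟩⟩
        have h3 : e y * (e x)⁻¹ = (c : G)⁻¹ := eq_inv_of_mul_eq_one_left h2
        rw [mul_inv_eq_iff_eq_mul] at h3
        rw [h3]; group
  · rintro ⟨C, l, hl⟩
    let Γ := FreeGroup C ⧸ Ker Y l
    let E := Γ × Multiplicative (Y.ConnectedComponent →₀ ℤ)
    let H : Set E := Set.range fun c : C => ((QuotientGroup.mk (FreeGroup.of c) : Γ), 1)
    obtain ⟨g, hg⟩ := exists_pos Y l
    have hH : Indep H := by
      rintro _ ⟨c, rfl⟩ hc
      have h1 : H \ {((QuotientGroup.mk (FreeGroup.of c) : Γ), 1)} ⊆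
          ((Subgroup.comap (MonoidHom.fst Γ (Multiplicative (Y.ConnectedComponent →₀ ℤ)))
            ((Subgroup.closure {g | ∃ c', c' ≠ c ∧ g = FreeGroup.of c'}).map
            (QuotientGroup.mk' (Ker Y l))) : Subgroup E) : Set E) := by
        rintro _ ⟨⟨c', rfl⟩, h⟩
        refine ⟨FreeGroup.of c', Subgroup.subset_closure ⟨c', ?_, rfl⟩, rfl⟩
        rintro rfl
        exact h rfl
      have h2 := (Subgroup.closure_le _).2 h1 hc
      rw [Subgroup.mem_comap] at h2
      obtain ⟨x, hx, hx2⟩ := h2
      have h3 : (QuotientGroup.mk x : Γ) = QuotientGroup.mk (FreeGroup.of c) := hx2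
      rw [QuotientGroup.eq] at h3
      apply hl.indep c
      have h4 : FreeGroup.of c = x * (x⁻¹ * FreeGroup.of c) := by group
      rw [h4]
      exact mul_mem (Subgroup.mem_sup_right hx) (Subgroup.mem_sup_left h3)
    let pt : V → E := fun v =>
      (g v, Multiplicative.ofAdd (Finsupp.single (Y.connectedComponentMk v) 1))
    have hcomp : ∀ v v', (pt v).2 = (pt v').2 → Nonempty (Y.Walk v v') := by
      intro v v' h
      have h1 : (Finsupp.single (Y.connectedComponentMk v) (1 : ℤ)) =
          Finsupp.single (Y.connectedComponentMk v') 1 := Multiplicative.ofAdd.injective h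
      have h2 := (Finsupp.single_eq_single_iff _ _ _ _).1 h1
      rcases h2 with h2 | h2
      · exact SimpleGraph.ConnectedComponent.exact h2.1
      · exact absurd h2.1 one_ne_zero
    have hwalk : ∀ v v' (p : Y.Walk v v'), (pt v).2 = (pt v').2 := by
      intro v v' p
      have : Y.connectedComponentMk v = Y.connectedComponentMk v' :=
        SimpleGraph.ConnectedComponent.sound ⟨p⟩
      simp only [pt, this]
    have hinj : Function.Injective pt := by
      intro v v' h
      by_contra hne
      obtain ⟨p⟩ := hcomp v v' (congrArg Prod.snd h)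
      have h1 := hg v v' p
      have h2 : g v = g v' := congrArg Prod.fst h
      rw [h2] at h1
      have h3 : (QuotientGroup.mk (lab Y l p) : Γ) = 1 := by
        exact (mul_eq_right.1 h1.symm)
      rw [QuotientGroup.eq_one_iff] at h3
      exact hl.inj v v' p hne h3
    refine emb_of_indep Y H hH ⟨⟨pt, hinj⟩, ?_⟩
    intro v v'
    constructor
    · rintro ⟨hne, h⟩
      have hne' : v ≠ v' := fun h' => hne (congrArg pt h')
      by_contra hn
      have h2 : (pt v).2 = (pt v').2 := by
        rcases h with ⟨_, ⟨c, rfl⟩, h⟩ | ⟨_, ⟨c, rfl⟩, h⟩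
        · have h5 : (pt v').2 = 1 * (pt v).2 := congrArg Prod.snd h
          rw [h5, one_mul]
        · have h5 : (pt v).2 = 1 * (pt v').2 := congrArg Prod.snd h
          rw [h5, one_mul]
      obtain ⟨p⟩ := hcomp v v' h2
      have h1 := hg v v' p
      rcases h with ⟨_, ⟨c, rfl⟩, h⟩ | ⟨_, ⟨c, rfl⟩, h⟩
      · apply (hl.induced v v' p hne' hn c).1
        rw [← QuotientGroup.eq_one_iff, QuotientGroup.mk_mul, QuotientGroup.mk_inv,
          mul_inv_eq_one]
        have h3 : g v' = QuotientGroup.mk (FreeGroup.of c) * g v := congrArg Prod.fst h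
        rw [h3] at h1
        exact (mul_right_cancel h1).symm
      · apply (hl.induced v v' p hne' hn c).2
        rw [← QuotientGroup.eq_one_iff, QuotientGroup.mk_mul]
        have h3 : g v = QuotientGroup.mk (FreeGroup.of c) * g v' := congrArg Prod.fst h
        rw [h1] at h3
        have h4 : g v = (QuotientGroup.mk (FreeGroup.of c) * QuotientGroup.mk (lab Y l p)) *
            g v := by rw [mul_assoc]; exact h3
        have h5 := (mul_eq_right.1 h4.symm)
        have h6 := eq_inv_of_mul_eq_one_right h5
        rw [h6]; group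
    · intro hadj
      refine ⟨fun h => hadj.ne (hinj h), ?_⟩
      have h1 := hg v v' (SimpleGraph.Walk.cons hadj SimpleGraph.Walk.nil)
      have h2 := hwalk v v' (SimpleGraph.Walk.cons hadj SimpleGraph.Walk.nil)
      simp only [lab, one_mul] at h1
      obtain ⟨c, hc | hc⟩ := hl.letter v v' hadj
      · left
        refine ⟨_, ⟨c, rfl⟩, ?_⟩
        refine Prod.ext ?_ ?_
        · change g v' = QuotientGroup.mk (FreeGroup.of c) * g v
          rw [h1, hc]
        · change (pt v').2 = 1 * (pt v).2
          rw [one_mul, h2]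
      · right
        refine ⟨_, ⟨c, rfl⟩, ?_⟩
        refine Prod.ext ?_ ?_
        · change g v = QuotientGroup.mk (FreeGroup.of c) * g v'
          rw [h1, hc, QuotientGroup.mk_inv]; group
        · change (pt v).2 = 1 * (pt v').2
          rw [one_mul, h2]

end IrrCay
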