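import Mathlib

/-! # Induced subgraphs of Cayley graphs with irreducible generating sets: definitions -/

set_option autoImplicit false

namespace IrrCay

universe u v

/-- The Cayley graph `X(G,H)`: vertex set `G`, and `g` is adjacent to `h * g` for `h ∈ H`. -/
def X (G : Type u) [Group G] (H : Set G) : SimpleGraph G where
  Adj g g' := g ≠ g' ∧ ((∃ h ∈ H, g' = h * g) ∨ (∃ h ∈ H, g = h * g'))
  symm := ⟨fun _ _ h => ⟨h.1.symm, h.2.symm⟩⟩
  loopless := ⟨fun _ h => h.1 rfl⟩

/-- `H` is an irreducible generating set of `G`. -/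
def Irr (G : Type u) [Group G] (H : Set G) : Prop :=
  Subgroup.closure H = ⊤ ∧ ∀ h ∈ H, Subgroup.closure (H \ {h}) ≠ ⊤

/-- `Y` is isomorphic to an induced subgraph of a Cayley graph of a group (in the universe `u`)
with respect to an irreducible generating set not containing the identity. -/
def Emb {V : Type v} (Y : SimpleGraph V) : Prop :=
  ∃ (G : Type u) (_ : Group G) (H : Set G), (1 : G) ∉ H ∧ Irr G H ∧ Nonempty (Y ↪g X G H)

/-- No element of `H` is a product of other elements of `H` and their inverses. -/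
def Indep {G : Type u} [Group G] (H : Set G) : Prop :=
  ∀ h ∈ H, h ∉ Subgroup.closure (H \ {h})

/-- The finite graph coded by a number `n` and a finite list of pairs: vertex set `Fin n`. -/
def ofCode (p : ℕ × List (ℕ × ℕ)) : SimpleGraph (Fin p.1) where
  Adj i j := i ≠ j ∧ (((i : ℕ), (j : ℕ)) ∈ p.2 ∨ ((j : ℕ), (i : ℕ)) ∈ p.2)
  symm := ⟨fun _ _ h => ⟨h.1.symm, h.2.symm⟩⟩
  loopless := ⟨fun _ h => h.1 rfl⟩

theorem Irr.indep {G : Type u} [Group G] {H : Set G} (h : Irr G H) : Indep H := by
  intro a ha hc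
  apply h.2 a ha
  rw [eq_top_iff, ← h.1, Subgroup.closure_le]
  intro b hb
  by_cases hba : b = a
  · subst hba; exact hc
  · exact Subgroup.subset_closure ⟨hb, hba⟩

/-- `a` or its inverse is a letter of `H`. -/
def Ltr {G : Type u} [Group G] (H : Set G) (a : G) : Prop := a ∈ H ∨ a⁻¹ ∈ H

/-- `a` and `b` have the same colour. -/
def Same {G : Type u} [Group G] (a b : G) : Prop := a = b ∨ a = b⁻¹

/-- the subgroup generated by the letters of colours different from `a` -/
def Oth {G : Type u} [Group G] (H : Set G) (a : G) : Subgroup G :=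
  Subgroup.closure {x | x ∈ H ∧ x ≠ a ∧ x ≠ a⁻¹}

theorem Indep.notMem_oth {G : Type u} [Group G] {H : Set G} (hH : Indep H) {a : G}
    (ha : Ltr H a) : a ∉ Oth H a := by
  intro h
  rcases ha with ha | ha
  · apply hH a ha
    refine Subgroup.closure_mono ?_ h
    rintro x ⟨hx, h1, h2⟩
    exact ⟨hx, h1⟩
  · apply hH _ ha
    rw [inv_mem_iff]
    refine Subgroup.closure_mono ?_ h
    rintro x ⟨hx, h1, h2⟩
    exact ⟨hx, h2⟩

theorem mem_oth {G : Type u} [Group G] {H : Set G} {a b : G} (hb : Ltr H b)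
    (h : ¬ Same b a) : b ∈ Oth H a := by
  rcases hb with hb | hb
  · exact Subgroup.subset_closure ⟨hb, fun e => h (Or.inl e), fun e => h (Or.inr e)⟩
  · rw [← inv_mem_iff]
    refine Subgroup.subset_closure ⟨hb, fun e => h (Or.inr ?_), fun e => h (Or.inl ?_)⟩
    · rw [← e, inv_inv]
    · exact inv_injective e

theorem adj_ltr {G : Type u} [Group G] {H : Set G} {g g' : G} (h : (X G H).Adj g g') :
    Ltr H (g' * g⁻¹) := by
  rcases h.2 with ⟨a, ha, rfl⟩ | ⟨a, ha, rfl⟩
  · left; simpa using ha
  · right; simpa using ha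

end IrrCay
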