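import Pool.Agent.IrrCay.AffDefs

/-! # Derivation of the relations attached to equivalent points -/

set_option autoImplicit false

namespace IrrCay

namespace DeriveAux

theorem Xpow_add {G : Type*} [Group G] : ∀ {k : ℕ} (x : Fin k → G)
    (_ : ∀ i i', Commute (x i) (x i')) (α β : Fin k → ℤ),
    Xpow x (α + β) = Xpow x α * Xpow x β
  | 0, _, _, _, _ => by simp [Xpow]
  | k + 1, x, hx, α, β => by
    have ih := Xpow_add (fun i : Fin k => x i.succ) (fun i i' => hx _ _)
      (fun i => α i.succ) (fun i => β i.succ)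
    simp only [Xpow, List.ofFn_succ, List.prod_cons, Pi.add_apply] at ih ⊢
    rw [ih, zpow_add]
    have hc : Commute (x 0 ^ β 0) (List.ofFn fun i : Fin k => x i.succ ^ α i.succ).prod := by
      apply Commute.list_prod_right
      intro y hy
      rw [List.mem_ofFn] at hy
      obtain ⟨i, rfl⟩ := hy
      exact ((hx 0 i.succ).zpow_left _).zpow_right _
    calc x 0 ^ α 0 * x 0 ^ β 0 *
          ((List.ofFn fun i : Fin k => x i.succ ^ α i.succ).prod *
            (List.ofFn fun i : Fin k => x i.succ ^ β i.succ).prod)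
        = x 0 ^ α 0 * (x 0 ^ β 0 * (List.ofFn fun i : Fin k => x i.succ ^ α i.succ).prod) *
            (List.ofFn fun i : Fin k => x i.succ ^ β i.succ).prod := by
          simp only [mul_assoc]
      _ = _ := by rw [hc.eq]; simp only [mul_assoc]

theorem Xpow_zero {G : Type*} [Group G] {k : ℕ} (x : Fin k → G) : Xpow x 0 = 1 := by
  unfold Xpow
  apply List.prod_eq_one
  intro y hy
  rw [List.mem_ofFn] at hy
  obtain ⟨i, rfl⟩ := hy
  simp

theorem map_Xpow {G G' : Type*} [Group G] [Group G'] (f : G →* G') {k : ℕ} (x : Fin k → G)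
    (α : Fin k → ℤ) : f (Xpow x α) = Xpow (fun i => f (x i)) α := by
  unfold Xpow
  rw [map_list_prod, List.map_ofFn]
  congr 2
  funext i
  simp

theorem map_Tconj {G G' : Type*} [Group G] [Group G'] (f : G →* G') {k : ℕ} (x : Fin k → G)
    (t : G) (α : Fin k → ℤ) : f (Tconj x t α) = Tconj (fun i => f (x i)) (f t) α := by
  unfold Tconj
  rw [map_mul, map_mul, map_inv, map_Xpow]

theorem Xpow_mul {G : Type*} [Group G] {k : ℕ} (x : Fin k → G) (N u : Fin k → ℤ) :
    Xpow x (N * u) = Xpow (fun i => x i ^ N i) u := by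
  unfold Xpow
  congr 2
  funext i
  simp [zpow_mul]

theorem conj_Xpow {G : Type*} [Group G] {k : ℕ} (r : G) (x : Fin k → G) (α : Fin k → ℤ) :
    r * Xpow x α * r⁻¹ = Xpow (fun i => r * x i * r⁻¹) α := by
  have := map_Xpow (MulAut.conj r).toMonoidHom x α
  simpa using this

theorem Tconj_add {G : Type*} [Group G] {k : ℕ} (x : Fin k → G)
    (hx : ∀ i i', Commute (x i) (x i')) (t : G) (α β : Fin k → ℤ) :
    Tconj x t (α + β) = (Xpow x β)⁻¹ * Tconj x t α * Xpow x β := by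
  unfold Tconj
  rw [Xpow_add x hx]
  simp [mul_assoc]

theorem com_eq_one {G : Type*} [Group G] {a b : G} : com a b = 1 ↔ Commute a b := by
  unfold com
  rw [mul_inv_eq_one, mul_inv_eq_iff_eq_mul]
  rfl

end DeriveAux

open DeriveAux

theorem derive (S : AffSys) (h : S.Q) {Γ : Type*} [Group Γ] (π : FreeGroup S.Gen →* Γ)
    (hπ : ∀ ρ ∈ S.Rels h, π ρ = 1) (p : S.Pt) (hp : S.Eqv p (h, 0)) : π (S.ww p) = 1 := by
  set x : Fin S.k → Γ := fun i => π (S.gx i) with hx
  set t : S.Q → Γ := fun q => π (S.gt q) with ht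
  have hxc : ∀ i i', Commute (x i) (x i') := by
    intro i i'
    have := hπ (com (S.gx i) (S.gx i')) (Or.inl (Or.inl (Or.inl (Or.inl ⟨i, i', rfl⟩))))
    rw [← com_eq_one]
    simpa [com] using this
  have hrx : ∀ j i, π (S.gr j) * x i ^ S.N j i * (π (S.gr j))⁻¹ = x i ^ S.M j i := by
    intro j i
    have := hπ (S.gr j * S.gx i ^ S.N j i * (S.gr j)⁻¹ * (S.gx i ^ S.M j i)⁻¹)
      (Or.inl (Or.inl (Or.inl (Or.inr ⟨j, i, rfl⟩))))
    simp only [map_mul, map_inv, map_zpow] at this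
    rw [mul_inv_eq_one] at this
    exact this
  have hrt : ∀ j, π (S.gr j) * Tconj x (t (S.tgt j)) (S.c j) * (π (S.gr j))⁻¹ =
      Tconj x (t (S.src j)) (S.a j) := by
    intro j
    have := hπ (S.gr j * S.tw (S.tgt j, S.c j) * (S.gr j)⁻¹ * (S.tw (S.src j, S.a j))⁻¹)
      (Or.inl (Or.inl (Or.inr ⟨j, rfl⟩)))
    simp only [map_mul, map_inv, AffSys.tw, map_Tconj] at this
    rw [mul_inv_eq_one] at this
    exact this
  have hkr : ∀ j, Commute (π S.gk) (π (S.gr j)) := by
    intro j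
    have := hπ (com S.gk (S.gr j)) (Or.inl (Or.inr ⟨j, rfl⟩))
    rw [← com_eq_one]
    simpa [com] using this
  have hkt : Commute (π S.gk) (t h) := by
    have := hπ (com S.gk (S.gt h)) (Or.inr rfl)
    rw [← com_eq_one]
    simpa [com] using this
  have key : ∀ p' : S.Pt, π (S.ww p') = 1 ↔
      Commute (π S.gk) (Tconj x (t p'.1) p'.2) := by
    intro p'
    rw [← com_eq_one]
    simp [AffSys.ww, AffSys.tw, com, map_Tconj, hx, ht]
  have hrel : ∀ p₁ p₂ : S.Pt, S.Rel p₁ p₂ → ∃ j, π (S.gr j) * Tconj x (t p₂.1) p₂.2 *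
      (π (S.gr j))⁻¹ = Tconj x (t p₁.1) p₁.2 := by
    rintro p₁ p₂ ⟨j, u, h1, h2⟩
    refine ⟨j, ?_⟩
    rw [h1, h2]
    simp only
    rw [Tconj_add x hxc, Tconj_add x hxc, ← hrt j]
    have hX : π (S.gr j) * Xpow x (S.N j * u) * (π (S.gr j))⁻¹ = Xpow x (S.M j * u) := by
      rw [Xpow_mul, Xpow_mul, conj_Xpow]
      congr 1
      funext i
      exact hrx j i
    rw [← hX]
    simp [mul_assoc]
  have hstep : ∀ p₁ p₂ : S.Pt, S.Rel p₁ p₂ → (π (S.ww p₁) = 1 ↔ π (S.ww p₂) = 1) := by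
    intro p₁ p₂ hr
    obtain ⟨j, e⟩ := hrel p₁ p₂ hr
    rw [key, key, ← e]
    constructor
    · intro hc
      have h1 := ((hkr j).inv_right.mul_right hc).mul_right (hkr j)
      have h2 : (π (S.gr j))⁻¹ * (π (S.gr j) * Tconj x (t p₂.1) p₂.2 * (π (S.gr j))⁻¹) *
          π (S.gr j) = Tconj x (t p₂.1) p₂.2 := by simp [mul_assoc]
      rwa [h2] at h1
    · intro hc
      exact ((hkr j).mul_right hc).mul_right (hkr j).inv_right
  have hall : ∀ p₁ p₂ : S.Pt, S.Eqv p₁ p₂ → (π (S.ww p₁) = 1 ↔ π (S.ww p₂) = 1) := by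
    intro p₁ p₂ he
    induction he with
    | rel _ _ hr => exact hstep _ _ hr
    | refl _ => exact Iff.rfl
    | symm _ _ _ ih => exact ih.symm
    | trans _ _ _ _ _ ih1 ih2 => exact ih1.trans ih2
  rw [hall _ _ hp, key]
  simpa [Tconj, Xpow_zero] using hkt

end IrrCay
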