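import Pool.Agent.IrrCay.WalkDefs

/-! # The group `Γ × A₄^I` -/

set_option autoImplicit false

namespace IrrCay

/-- the group presented by `rels` and the cubes of the generators -/
abbrev Gam {I : Type} (rels : List (List (I × Bool))) : Type :=
  FreeGroup I ⧸ NC rels

instance {I : Type} (rels : List (List (I × Bool))) : (NC rels).Normal :=
  Subgroup.normalClosure_normal

/-- the generators -/
def gam {I : Type} (rels : List (List (I × Bool))) (i : I) : Gam rels :=
  QuotientGroup.mk (FreeGroup.of i)

/-- the group `Γ × A₄^I` -/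
abbrev EG {I : Type} (rels : List (List (I × Bool))) : Type := Gam rels × (I → A4)

open Classical in
/-- the letters `P_i = (R_i; P)`, `Q_i = (R_i⁻¹; Q)`, `R_i = (R_i; 1)` -/
noncomputable def eP {I : Type} (rels : List (List (I × Bool))) (i : I) : EG rels :=
  (gam rels i, Pi.mulSingle i aP)
open Classical in
noncomputable def eQ {I : Type} (rels : List (List (I × Bool))) (i : I) : EG rels :=
  ((gam rels i)⁻¹, Pi.mulSingle i aQ)
noncomputable def eR {I : Type} (rels : List (List (I × Bool))) (i : I) : EG rels :=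
  (gam rels i, 1)

/-- the set of letters -/
def eH {I : Type} (rels : List (List (I × Bool))) : Set (EG rels) :=
  Set.range (eP rels) ∪ Set.range (eQ rels) ∪ Set.range (eR rels)

section aux

variable {I : Type} (rels : List (List (I × Bool)))

theorem gam_cube (i : I) : gam rels i ^ 3 = 1 := by
  have : (FreeGroup.of i ^ 3 : FreeGroup I) ∈ NC rels :=
    Subgroup.subset_normalClosure (Or.inr ⟨i, rfl⟩)
  unfold gam
  rw [← QuotientGroup.mk_pow]
  exact (QuotientGroup.eq_one_iff _).2 this

/-- characters of `Γ` -/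
def charG {rels : List (List (I × Bool))} (hρ : ExpOK rels) (χ : I → Multiplicative (ZMod 3)) :
    Gam rels →* Multiplicative (ZMod 3) :=
  QuotientGroup.lift (NC rels) (FreeGroup.lift χ) (by
    intro x hx
    have : NC rels ≤ (FreeGroup.lift χ).ker := by
      refine Subgroup.normalClosure_le_normal ?_
      rintro x (⟨ρ, hr, rfl⟩ | ⟨i, rfl⟩)
      · exact hρ ρ hr χ
      · show FreeGroup.lift χ (FreeGroup.of i ^ 3) = 1
        rw [map_pow, FreeGroup.lift_apply_of]
        generalize χ i = c
        revert c
        decide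
    exact this hx)

@[simp] theorem charG_gam {rels : List (List (I × Bool))} (hρ : ExpOK rels)
    (χ : I → Multiplicative (ZMod 3)) (i : I) : charG hρ χ (gam rels i) = χ i := by
  unfold charG gam
  rw [QuotientGroup.lift_mk, FreeGroup.lift_apply_of]

open Classical in
/-- the character of `Γ` at the place `i` -/
noncomputable def ch {rels : List (List (I × Bool))} (hρ : ExpOK rels) (i : I) :
    Gam rels →* Multiplicative (ZMod 3) :=
  charG hρ (fun j => if j = i then Multiplicative.ofAdd 1 else 1)

theorem ch_self {rels : List (List (I × Bool))} (hρ : ExpOK rels) (i : I) :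
    ch hρ i (gam rels i) = Multiplicative.ofAdd 1 := by
  simp [ch]

theorem ch_ne {rels : List (List (I × Bool))} (hρ : ExpOK rels) {i j : I} (h : j ≠ i) :
    ch hρ i (gam rels j) = 1 := by
  simp [ch, h]

/-- the projection to the place `i` -/
noncomputable def pr {rels : List (List (I × Bool))} (hρ : ExpOK rels) (i : I) :
    EG rels →* Multiplicative (ZMod 3) × A4 :=
  (ch hρ i).prodMap (Pi.evalMonoidHom _ i)

theorem pr_eP_self {rels : List (List (I × Bool))} (hρ : ExpOK rels) (i : I) :
    pr hρ i (eP rels i) = (Multiplicative.ofAdd 1, aP) := by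
  simp [pr, eP, ch_self]

theorem pr_eQ_self {rels : List (List (I × Bool))} (hρ : ExpOK rels) (i : I) :
    pr hρ i (eQ rels i) = (Multiplicative.ofAdd (-1), aQ) := by
  simp [pr, eQ, ch_self]

theorem pr_eR_self {rels : List (List (I × Bool))} (hρ : ExpOK rels) (i : I) :
    pr hρ i (eR rels i) = (Multiplicative.ofAdd 1, 1) := by
  simp [pr, eR, ch_self]

theorem pr_eP_ne {rels : List (List (I × Bool))} (hρ : ExpOK rels) {i j : I} (h : j ≠ i) :
    pr hρ i (eP rels j) = 1 := by
  classical
  simp [pr, eP, ch_ne hρ h, Pi.mulSingle_eq_of_ne h.symm]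

theorem pr_eQ_ne {rels : List (List (I × Bool))} (hρ : ExpOK rels) {i j : I} (h : j ≠ i) :
    pr hρ i (eQ rels j) = 1 := by
  classical
  simp [pr, eQ, ch_ne hρ h, Pi.mulSingle_eq_of_ne h.symm]

theorem pr_eR_ne {rels : List (List (I × Bool))} (hρ : ExpOK rels) {i j : I} (h : j ≠ i) :
    pr hρ i (eR rels j) = 1 := by
  simp [pr, eR, ch_ne hρ h]

/-- a criterion for independence -/
theorem notMem_of_sep {E K : Type} [Group E] [Group K] {H : Set E} {h : E} (f : E →* K)
    (S : Subgroup K) (h1 : f h ∉ S) (h2 : ∀ x ∈ H, x ≠ h → f x ∈ S) :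
    h ∉ Subgroup.closure (H \ {h}) := by
  intro hc
  apply h1
  have h3 : Subgroup.closure (H \ {h}) ≤ S.comap f := by
    rw [Subgroup.closure_le]
    rintro x ⟨hx, hne⟩
    exact h2 x hx hne
  exact h3 hc

/-- the third projection `x - χ(a)` -/
def prR : Multiplicative (ZMod 3) × A4 →* Multiplicative (ZMod 3) where
  toFun x := x.1 * (A4.chi x.2)⁻¹
  map_one' := rfl
  map_mul' := by
    intro x y
    simp only [Prod.fst_mul, Prod.snd_mul, map_mul, mul_inv]
    exact mul_mul_mul_comm _ _ _ _

theorem aP_notMem : aP ∉ Subgroup.zpowers aQ := by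
  intro h
  obtain ⟨k, hk⟩ := Subgroup.mem_zpowers_iff.1 h
  have h3 : aQ ^ (k % 3) = aP := by
    rw [← hk]
    conv_rhs => rw [← Int.emod_add_mul_ediv k 3]
    rw [zpow_add, zpow_mul]
    have : aQ ^ (3 : ℤ) = 1 := by
      have := aQ_cube
      exact_mod_cast this
    rw [this, one_zpow, mul_one]
  have h4 : k % 3 = 0 ∨ k % 3 = 1 ∨ k % 3 = 2 := by omega
  rcases h4 with h4 | h4 | h4 <;> rw [h4] at h3 <;> revert h3 <;> decide +kernel

theorem aQ_notMem : aQ ∉ Subgroup.zpowers aP := by
  intro h
  obtain ⟨k, hk⟩ := Subgroup.mem_zpowers_iff.1 h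
  have h3 : aP ^ (k % 3) = aQ := by
    rw [← hk]
    conv_rhs => rw [← Int.emod_add_mul_ediv k 3]
    rw [zpow_add, zpow_mul]
    have : aP ^ (3 : ℤ) = 1 := by
      have := aP_cube
      exact_mod_cast this
    rw [this, one_zpow, mul_one]
  have h4 : k % 3 = 0 ∨ k % 3 = 1 ∨ k % 3 = 2 := by omega
  rcases h4 with h4 | h4 | h4 <;> rw [h4] at h3 <;> revert h3 <;> decide +kernel

end aux

theorem eH_indep {I : Type} (rels : List (List (I × Bool))) (hρ : ExpOK rels) :
    Indep (eH rels) := by
  classical
  rintro h ((⟨i, rfl⟩ | ⟨i, rfl⟩) | ⟨i, rfl⟩)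
  · refine notMem_of_sep (pr hρ i) ((Subgroup.zpowers aQ).comap (MonoidHom.snd _ _)) ?_ ?_
    · rw [pr_eP_self]
      exact aP_notMem
    · rintro x ((⟨j, rfl⟩ | ⟨j, rfl⟩) | ⟨j, rfl⟩) hne
      · have hji : j ≠ i := by
          rintro rfl
          exact hne rfl
        rw [pr_eP_ne hρ hji]
        exact Subgroup.one_mem _
      · by_cases hji : j = i
        · subst hji
          rw [pr_eQ_self]
          exact Subgroup.mem_zpowers aQ
        · rw [pr_eQ_ne hρ hji]
          exact Subgroup.one_mem _
      · by_cases hji : j = i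
        · subst hji
          rw [pr_eR_self, Subgroup.mem_comap]
          exact Subgroup.one_mem _
        · rw [pr_eR_ne hρ hji]
          exact Subgroup.one_mem _
  · refine notMem_of_sep (pr hρ i) ((Subgroup.zpowers aP).comap (MonoidHom.snd _ _)) ?_ ?_
    · rw [pr_eQ_self]
      exact aQ_notMem
    · rintro x ((⟨j, rfl⟩ | ⟨j, rfl⟩) | ⟨j, rfl⟩) hne
      · by_cases hji : j = i
        · subst hji
          rw [pr_eP_self]
          exact Subgroup.mem_zpowers aP
        · rw [pr_eP_ne hρ hji]
          exact Subgroup.one_mem _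
      · have hji : j ≠ i := by
          rintro rfl
          exact hne rfl
        rw [pr_eQ_ne hρ hji]
        exact Subgroup.one_mem _
      · by_cases hji : j = i
        · subst hji
          rw [pr_eR_self, Subgroup.mem_comap]
          exact Subgroup.one_mem _
        · rw [pr_eR_ne hρ hji]
          exact Subgroup.one_mem _
  · refine notMem_of_sep (prR.comp (pr hρ i)) ⊥ ?_ ?_
    · rw [MonoidHom.comp_apply, pr_eR_self, Subgroup.mem_bot]
      decide +kernel
    · rintro x ((⟨j, rfl⟩ | ⟨j, rfl⟩) | ⟨j, rfl⟩) hne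
      · rw [MonoidHom.comp_apply]
        by_cases hji : j = i
        · subst hji
          rw [pr_eP_self, Subgroup.mem_bot]
          decide +kernel
        · rw [pr_eP_ne hρ hji, map_one]
          exact Subgroup.one_mem _
      · rw [MonoidHom.comp_apply]
        by_cases hji : j = i
        · subst hji
          rw [pr_eQ_self, Subgroup.mem_bot]
          decide +kernel
        · rw [pr_eQ_ne hρ hji, map_one]
          exact Subgroup.one_mem _
      · have hji : j ≠ i := by
          rintro rfl
          exact hne rfl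
        rw [MonoidHom.comp_apply, pr_eR_ne hρ hji, map_one]
        exact Subgroup.one_mem _

/-- powers of a generator -/
def rh {I : Type} (rels : List (List (I × Bool))) (i : I) :
    Multiplicative (ZMod 3) →* Gam rels where
  toFun x := gam rels i ^ (Multiplicative.toAdd x).val
  map_one' := by
    show gam rels i ^ (0 : ZMod 3).val = 1
    rw [ZMod.val_zero, pow_zero]
  map_mul' := by
    intro x y
    show gam rels i ^ (Multiplicative.toAdd x + Multiplicative.toAdd y).val = _
    rw [ZMod.val_add, ← pow_eq_pow_mod _ (gam_cube rels i), pow_add]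

theorem rh_one {I : Type} (rels : List (List (I × Bool))) (i : I) :
    rh rels i (Multiplicative.ofAdd 1) = gam rels i := by
  show gam rels i ^ (1 : ZMod 3).val = gam rels i
  have : (1 : ZMod 3).val = 1 := by decide
  rw [this, pow_one]

theorem rh_neg {I : Type} (rels : List (List (I × Bool))) (i : I) :
    rh rels i (Multiplicative.ofAdd (-1)) = (gam rels i)⁻¹ := by
  rw [ofAdd_neg, map_inv, rh_one]

theorem ch_rh {I : Type} {rels : List (List (I × Bool))} (hρ : ExpOK rels) (i : I)
    (ζ : Multiplicative (ZMod 3)) : ch hρ i (rh rels i ζ) = ζ := by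
  show ch hρ i (gam rels i ^ (Multiplicative.toAdd ζ).val) = ζ
  rw [map_pow, ch_self]
  revert ζ
  decide

open Classical in
/-- the block at the place `i` -/
noncomputable def blk {I : Type} (rels : List (List (I × Bool))) (i : I) : B →* EG rels :=
  ((rh rels i).comp ((A4.chi.comp (MonoidHom.fst _ _)) * (MonoidHom.snd _ _))).prod
    ((MonoidHom.mulSingle (fun _ : I => A4) i).comp (MonoidHom.fst _ _))

/-- the blocks -/
theorem exists_block {I : Type} (rels : List (List (I × Bool))) (hρ : ExpOK rels) :
    ∃ β : I → B →* EG rels, (∀ i, Function.Injective (β i)) ∧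
      (∀ i, β i bP = eP rels i) ∧ (∀ i, β i bQ = eQ rels i) ∧ (∀ i, β i bR = eR rels i) ∧
      (∀ i j, Commute (β i bz) (eR rels j)) := by
  classical
  refine ⟨blk rels, ?_, ?_, ?_, ?_, ?_⟩
  · intro i
    rw [injective_iff_map_eq_one]
    rintro ⟨a, ζ⟩ h
    have h1 := congrArg Prod.fst h
    have h2 := congrArg Prod.snd h
    have h3 : Pi.mulSingle (M := fun _ : I => A4) i a = 1 := h2
    have h4 : a = 1 := by
      have := congrFun h3 i
      simpa using this
    subst h4
    have h5 : rh rels i (A4.chi 1 * ζ) = 1 := h1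
    rw [map_one, one_mul] at h5
    have h6 := ch_rh hρ i ζ
    rw [h5, map_one] at h6
    rw [← h6]
    rfl
  · intro i
    have h1 : (blk rels i bP).1 = gam rels i := by
      show rh rels i (A4.chi aP * 1) = gam rels i
      rw [mul_one, chi_aP, rh_one]
    exact Prod.ext h1 rfl
  · intro i
    have h1 : (blk rels i bQ).1 = (gam rels i)⁻¹ := by
      show rh rels i (A4.chi aQ * 1) = (gam rels i)⁻¹
      rw [mul_one, chi_aQ, rh_neg]
    exact Prod.ext h1 rfl
  · intro i
    have h1 : (blk rels i bR).1 = gam rels i := by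
      show rh rels i (A4.chi 1 * Multiplicative.ofAdd 1) = gam rels i
      rw [map_one, one_mul, rh_one]
    have h2 : (blk rels i bR).2 = 1 := by
      show Pi.mulSingle (M := fun _ : I => A4) i 1 = 1
      exact Pi.mulSingle_one i
    exact Prod.ext h1 h2
  · intro i j
    have h1 : (blk rels i bz).1 = 1 := by
      show rh rels i (A4.chi bz.1 * bz.2) = 1
      have : A4.chi bz.1 * bz.2 = 1 := by decide +kernel
      rw [this, map_one]
    refine Prod.ext ?_ ?_
    · show (blk rels i bz).1 * (eR rels j).1 = (eR rels j).1 * (blk rels i bz).1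
      rw [h1, one_mul, mul_one]
    · show (blk rels i bz).2 * 1 = 1 * (blk rels i bz).2
      rw [one_mul, mul_one]

/-- distinctness of the letters of a block and of the letters `R_j` -/
theorem eR_ne {I : Type} (rels : List (List (I × Bool))) (hρ : ExpOK rels)
    (β : I → B →* EG rels) (hP : ∀ i, β i bP = eP rels i) (hQ : ∀ i, β i bQ = eQ rels i)
    (hR : ∀ i, β i bR = eR rels i) {i j : I} (hij : i ≠ j) :
    ∀ c ∈ nbs, β i c ≠ eR rels j ∧ β i c ≠ (eR rels j)⁻¹ := by
  have key : ∀ c ∈ nbs, pr hρ i (β i c) ≠ 1 := by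
    intro c hc
    simp only [nbs, List.mem_cons, List.not_mem_nil, or_false] at hc
    rcases hc with rfl | rfl | rfl | rfl | rfl | rfl
    · rw [hP, pr_eP_self]; decide +kernel
    · rw [map_inv, hP, map_inv, pr_eP_self]; decide +kernel
    · rw [hQ, pr_eQ_self]; decide +kernel
    · rw [map_inv, hQ, map_inv, pr_eQ_self]; decide +kernel
    · rw [hR, pr_eR_self]; decide +kernel
    · rw [map_inv, hR, map_inv, pr_eR_self]; decide +kernel
  intro c hc
  constructor
  · intro h
    apply key c hc
    rw [h, pr_eR_ne hρ hij.symm]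
  · intro h
    apply key c hc
    rw [h, map_inv, pr_eR_ne hρ hij.symm, inv_one]

end IrrCay
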