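import Pool.Agent.IrrCay.Criterion

/-! # The criterion for finite graphs with numerical labellings -/

set_option autoImplicit false

namespace IrrCay

universe u

/-- the digit number `i` of `m` in base `b` -/
def dig (b m i : ℕ) : ℕ := m / b ^ i % b

/-- the labelling of the pairs of vertices of `Fin n` coded by `m` -/
def numLab (n m : ℕ) : Fin n → Fin n → FreeGroup ℕ := fun x y =>
  let d := dig (2 * n * n) m (x * n + y)
  if d % 2 = 0 then FreeGroup.of (d / 2) else (FreeGroup.of (d / 2))⁻¹

theorem exists_digits (b : ℕ) (hb : 0 < b) (d : ℕ → ℕ) (k : ℕ) (hd : ∀ i < k, d i < b) :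
    ∃ m < b ^ k, ∀ i < k, dig b m i = d i := by
  induction k with
  | zero => exact ⟨0, by simp, fun i hi => absurd hi (Nat.not_lt_zero i)⟩
  | succ k ih =>
    obtain ⟨m, hm, h⟩ := ih fun i hi => hd i (by omega)
    refine ⟨m + d k * b ^ k, ?_, ?_⟩
    · have h1 : d k + 1 ≤ b := hd k (by omega)
      calc m + d k * b ^ k < b ^ k + d k * b ^ k := by omega
        _ = (d k + 1) * b ^ k := by ring
        _ ≤ b * b ^ k := Nat.mul_le_mul_right _ h1
        _ = b ^ (k + 1) := by ring
    · intro i hi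
      rcases Nat.lt_succ_iff_lt_or_eq.1 hi with h1 | rfl
      · have hk : b ^ k = b ^ i * (b * b ^ (k - i - 1)) := by
          rw [← pow_succ', ← pow_add]
          congr 1
          omega
        rw [← h i h1, dig, dig, hk]
        have e : m + d k * (b ^ i * (b * b ^ (k - i - 1))) =
            m + b ^ i * (b * (d k * b ^ (k - i - 1))) := by ring
        rw [e, Nat.add_mul_div_left _ _ (pow_pos hb i), Nat.add_mul_mod_self_left]
      · rw [dig, Nat.add_mul_div_right _ _ (pow_pos hb i), Nat.div_eq_of_lt hm, zero_add]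
        exact Nat.mod_eq_of_lt (hd i (by omega))

section transfer

variable {V C C' : Type} {Y : SimpleGraph V} {l : V → V → FreeGroup C}
  {l' : V → V → FreeGroup C'}

theorem lab_hom {G : Type} [Group G] (f : FreeGroup C' →* G) (g : V → V → G)
    (h : ∀ x y, Y.Adj x y → f (l' x y) = g x y) (hG : ∀ {x y : V} (_ : Y.Walk x y), G)
    (hnil : ∀ x, hG (SimpleGraph.Walk.nil : Y.Walk x x) = 1)
    (hcons : ∀ {x y z : V} (a : Y.Adj x y) (p : Y.Walk y z),
      hG (SimpleGraph.Walk.cons a p) = hG p * g x y) {x y : V} (p : Y.Walk x y) :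
    f (lab Y l' p) = hG p := by
  induction p with
  | nil => rw [hnil, lab, map_one]
  | cons a p ih => rw [hcons, lab, map_mul, ih, h _ _ a]

theorem lab_map (f : FreeGroup C' →* FreeGroup C)
    (h : ∀ x y, Y.Adj x y → f (l' x y) = l x y) {x y : V} (p : Y.Walk x y) :
    f (lab Y l' p) = lab Y l p := by
  induction p with
  | nil => rw [lab, lab, map_one]
  | cons a p ih => rw [lab, lab, map_mul, ih, h _ _ a]

theorem lab_one {G : Type} [Group G] (f : FreeGroup C' →* G)
    (h : ∀ x y, Y.Adj x y → f (l' x y) = 1) {x y : V} (p : Y.Walk x y) :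
    f (lab Y l' p) = 1 := by
  induction p with
  | nil => rw [lab, map_one]
  | cons a p ih => rw [lab, map_mul, ih, h _ _ a, one_mul]

theorem ker_map (f : FreeGroup C' →* FreeGroup C)
    (h : ∀ x y, Y.Adj x y → f (l' x y) = l x y) : Ker Y l' ≤ (Ker Y l).comap f := by
  refine Subgroup.normalClosure_le_normal ?_
  rintro g ⟨x, p, rfl⟩
  rw [SetLike.mem_coe, Subgroup.mem_comap, lab_map f h]
  exact Subgroup.subset_normalClosure ⟨x, p, rfl⟩

theorem ker_one {G : Type} [Group G] (f : FreeGroup C' →* G)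
    (h : ∀ x y, Y.Adj x y → f (l' x y) = 1) : Ker Y l' ≤ f.ker := by
  refine Subgroup.normalClosure_le_normal ?_
  rintro g ⟨x, p, rfl⟩
  rw [SetLike.mem_coe, MonoidHom.mem_ker, lab_one f h]

/-- transfer of a good labelling to another set of colours -/
theorem good_transfer (hg : GoodLab Y l) (U : Set C') (k : C' → FreeGroup C)
    (hk : ∀ c' ∈ U, ∃ c, k c' = FreeGroup.of c) (hk1 : ∀ c' ∉ U, k c' = 1)
    (hinj : ∀ c' ∈ U, ∀ c'' ∈ U, k c' = k c'' → c' = c'')
    (hl : ∀ x y, Y.Adj x y → ∃ c' ∈ U, (l' x y = FreeGroup.of c' ∧ l x y = k c') ∨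
      (l' x y = (FreeGroup.of c')⁻¹ ∧ l x y = (k c')⁻¹)) : GoodLab Y l' := by
  classical
  let f : FreeGroup C' →* FreeGroup C := FreeGroup.lift k
  have hf : ∀ c', f (FreeGroup.of c') = k c' := fun c' => FreeGroup.lift_apply_of
  have hfl : ∀ x y, Y.Adj x y → f (l' x y) = l x y := by
    intro x y hxy
    obtain ⟨c', _, h | h⟩ := hl x y hxy
    · rw [h.1, hf, h.2]
    · rw [h.1, map_inv, hf, h.2]
  -- exponent of an unused colour
  let e : C' → FreeGroup C' →* Multiplicative ℤ := fun c => FreeGroup.lift fun c' =>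
    if c' = c then Multiplicative.ofAdd 1 else 1
  have he : ∀ c c', e c (FreeGroup.of c') = if c' = c then Multiplicative.ofAdd 1 else 1 :=
    fun c c' => FreeGroup.lift_apply_of
  have hel : ∀ c ∉ U, ∀ x y, Y.Adj x y → e c (l' x y) = 1 := by
    intro c hc x y hxy
    obtain ⟨c', hc', h | h⟩ := hl x y hxy
    · have hne : c' ≠ c := fun h' => hc (h' ▸ hc')
      rw [h.1, he, if_neg hne]
    · have hne : c' ≠ c := fun h' => hc (h' ▸ hc')
      rw [h.1, map_inv, he, if_neg hne, inv_one]
  have h1 : (Multiplicative.ofAdd (1 : ℤ)) ≠ 1 := by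
    intro h
    have h' : (1 : ℤ) = 0 := Multiplicative.ofAdd.injective h
    omega
  refine ⟨?_, ?_, ?_, ?_⟩
  · intro x y hxy
    obtain ⟨c', _, h | h⟩ := hl x y hxy
    · exact ⟨c', Or.inl h.1⟩
    · exact ⟨c', Or.inr h.1⟩
  · intro c' hc'
    by_cases hU : c' ∈ U
    · obtain ⟨c, hc⟩ := hk c' hU
      apply hg.indep c
      have h2 : Ker Y l' ⊔ Subgroup.closure {g | ∃ c'', c'' ≠ c' ∧ g = FreeGroup.of c''} ≤
          (Ker Y l ⊔ Subgroup.closure {g | ∃ d, d ≠ c ∧ g = FreeGroup.of d}).comap f := by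
        refine sup_le ?_ ?_
        · exact (ker_map f hfl).trans (Subgroup.comap_mono le_sup_left)
        · rw [Subgroup.closure_le]
          rintro g ⟨c'', hne, rfl⟩
          rw [SetLike.mem_coe, Subgroup.mem_comap, hf]
          by_cases hU' : c'' ∈ U
          · obtain ⟨d, hd⟩ := hk c'' hU'
            rw [hd]
            refine Subgroup.mem_sup_right (Subgroup.subset_closure ⟨d, ?_, rfl⟩)
            rintro rfl
            exact hne (hinj c'' hU' c' hU (hd.trans hc.symm))
          · rw [hk1 c'' hU']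
            exact one_mem _
      have h3 := h2 hc'
      rw [Subgroup.mem_comap, hf, hc] at h3
      exact h3
    · have h2 : Ker Y l' ⊔ Subgroup.closure {g | ∃ c'', c'' ≠ c' ∧ g = FreeGroup.of c''} ≤
          (e c').ker := by
        refine sup_le (ker_one (e c') (hel c' hU)) ?_
        rw [Subgroup.closure_le]
        rintro g ⟨c'', hne, rfl⟩
        rw [SetLike.mem_coe, MonoidHom.mem_ker, he, if_neg hne]
      have h3 := h2 hc'
      rw [MonoidHom.mem_ker, he, if_pos rfl] at h3
      exact h1 h3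
  · intro x y p hxy h
    apply hg.inj x y p hxy
    have h2 := ker_map f hfl h
    rw [Subgroup.mem_comap, lab_map f hfl] at h2
    exact h2
  · intro x y p hxy hn c'
    by_cases hU : c' ∈ U
    · obtain ⟨c, hc⟩ := hk c' hU
      obtain ⟨h3, h4⟩ := hg.induced x y p hxy hn c
      constructor
      · intro h
        apply h3
        have h2 := ker_map f hfl h
        rw [Subgroup.mem_comap, map_mul, map_inv, lab_map f hfl, hf, hc] at h2
        exact h2
      · intro h
        apply h4
        have h2 := ker_map f hfl h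
        rw [Subgroup.mem_comap, map_mul, lab_map f hfl, hf, hc] at h2
        exact h2
    · constructor
      · intro h
        have h2 := ker_one (e c') (hel c' hU) h
        rw [MonoidHom.mem_ker, map_mul, map_inv, lab_one (e c') (hel c' hU), he, if_pos rfl,
          one_mul, inv_eq_one] at h2
        exact h1 h2
      · intro h
        have h2 := ker_one (e c') (hel c' hU) h
        rw [MonoidHom.mem_ker, map_mul, lab_one (e c') (hel c' hU), he, if_pos rfl,
          one_mul] at h2
        exact h1 h2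

end transfer

theorem fin_aux {C : Type} (n : ℕ) (Y : SimpleGraph (Fin n)) (l : Fin n → Fin n → FreeGroup C)
    (hg : GoodLab Y l) : ∃ m < (2 * n * n) ^ (n * n), GoodLab Y (numLab n m) := by
  classical
  -- colours of adjacent pairs
  let P := {q : Fin n × Fin n // Y.Adj q.1 q.2}
  choose col hcol using fun q : P => hg.letter q.1.1 q.1.2 q.2
  let R := Set.range col
  have hR : Nat.card R ≤ n * n := by
    calc Nat.card R ≤ Nat.card P := Finite.card_range_le col
      _ ≤ Nat.card (Fin n × Fin n) := Finite.card_subtype_le _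
      _ = n * n := by simp
  let φ : R ≃ Fin (Nat.card R) := Finite.equivFin R
  let num : P → ℕ := fun q => (φ ⟨col q, q, rfl⟩ : ℕ)
  have hnum : ∀ q, num q < n * n := fun q => lt_of_lt_of_le (φ ⟨col q, q, rfl⟩).2 hR
  let dd : Fin n → Fin n → ℕ := fun x y =>
    if hxy : Y.Adj x y then
      (if l x y = FreeGroup.of (col ⟨(x, y), hxy⟩) then 2 * num ⟨(x, y), hxy⟩
        else 2 * num ⟨(x, y), hxy⟩ + 1) else 0
  let d : ℕ → ℕ := fun i =>
    if h : 0 < n then dd ⟨i / n % n, Nat.mod_lt _ h⟩ ⟨i % n, Nat.mod_lt _ h⟩ else 0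
  have hdd : ∀ x y : Fin n, dd x y < 2 * n * n := by
    intro x y
    have hpos : 0 < n := lt_of_le_of_lt (Nat.zero_le _) x.2
    have hpos2 : 0 < n * n := Nat.mul_pos hpos hpos
    simp only [dd]
    split_ifs with h1 h2
    · have := hnum ⟨(x, y), h1⟩
      rw [mul_assoc]; omega
    · have := hnum ⟨(x, y), h1⟩
      rw [mul_assoc]; omega
    · rw [mul_assoc]; omega
  have hdxy : ∀ x y : Fin n, d (x * n + y) = dd x y := by
    intro x y
    have hpos : 0 < n := lt_of_le_of_lt (Nat.zero_le _) x.2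
    have e1 : ((x : ℕ) * n + y) / n % n = x := by
      rw [mul_comm, Nat.mul_add_div hpos, Nat.div_eq_of_lt y.2, add_zero, Nat.mod_eq_of_lt x.2]
    have e2 : ((x : ℕ) * n + y) % n = y := by
      rw [mul_comm, Nat.mul_add_mod, Nat.mod_eq_of_lt y.2]
    simp only [d]
    rw [dif_pos hpos]
    congr 1
    · exact Fin.ext e1
    · exact Fin.ext e2
  have hm : ∃ m < (2 * n * n) ^ (n * n), ∀ x y : Fin n,
      dig (2 * n * n) m (x * n + y) = dd x y := by
    rcases Nat.eq_zero_or_pos n with h0 | hpos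
    · refine ⟨0, by rw [h0]; norm_num, fun x => ?_⟩
      exact absurd x.2 (by omega)
    · have hb : 0 < 2 * n * n := by positivity
      have hd : ∀ i < n * n, d i < 2 * n * n := by
        intro i _
        simp only [d]
        rw [dif_pos hpos]
        exact hdd _ _
      obtain ⟨m, hm, h⟩ := exists_digits (2 * n * n) hb d (n * n) hd
      refine ⟨m, hm, fun x y => ?_⟩
      rw [← hdxy]
      apply h
      have h1 : (x : ℕ) + 1 ≤ n := x.2
      have h2 : (y : ℕ) < n := y.2
      calc (x : ℕ) * n + y < x * n + n := by omega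
        _ = (x + 1) * n := by ring
        _ ≤ n * n := Nat.mul_le_mul_right _ h1
  obtain ⟨m, hm, hdig⟩ := hm
  refine ⟨m, hm, ?_⟩
  let k : ℕ → FreeGroup C := fun i =>
    if hi : i < Nat.card R then FreeGroup.of ((φ.symm ⟨i, hi⟩ : R) : C) else 1
  have hkpos : ∀ i (hi : i < Nat.card R), k i = FreeGroup.of ((φ.symm ⟨i, hi⟩ : R) : C) :=
    fun i hi => dif_pos hi
  have hknum : ∀ q : P, k (num q) = FreeGroup.of (col q) := by
    intro q
    have hi : num q < Nat.card R := (φ ⟨col q, q, rfl⟩).2
    rw [hkpos _ hi]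
    have : (⟨num q, hi⟩ : Fin (Nat.card R)) = φ ⟨col q, q, rfl⟩ := rfl
    rw [this, Equiv.symm_apply_apply]
  refine good_transfer hg {i | i < Nat.card R} k ?_ ?_ ?_ ?_
  · intro i hi
    exact ⟨_, hkpos i hi⟩
  · intro i hi
    exact dif_neg hi
  · intro i hi j hj hij
    rw [hkpos i hi, hkpos j hj] at hij
    have h1 := Subtype.ext (FreeGroup.of_injective hij)
    have h2 := φ.symm.injective h1
    exact congrArg Fin.val h2
  · intro x y hxy
    refine ⟨num ⟨(x, y), hxy⟩, (φ ⟨col ⟨(x, y), hxy⟩, ⟨(x, y), hxy⟩, rfl⟩).2, ?_⟩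
    have hnl : numLab n m x y = if dd x y % 2 = 0 then FreeGroup.of (dd x y / 2)
        else (FreeGroup.of (dd x y / 2))⁻¹ := by
      simp only [numLab]
      rw [← hdig x y]
    rw [hknum, hnl]
    by_cases hc : l x y = FreeGroup.of (col ⟨(x, y), hxy⟩)
    · left
      have e : dd x y = 2 * num ⟨(x, y), hxy⟩ := by
        simp only [dd]
        rw [dif_pos hxy, if_pos hc]
      refine ⟨?_, hc⟩
      rw [e, if_pos (by omega)]
      congr 1
      omega
    · right
      have e : dd x y = 2 * num ⟨(x, y), hxy⟩ + 1 := by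
        simp only [dd]
        rw [dif_pos hxy, if_neg hc]
      refine ⟨?_, ?_⟩
      · rw [e, if_neg (by omega)]
        congr 2
        omega
      · rcases hcol ⟨(x, y), hxy⟩ with h | h
        · exact absurd h hc
        · exact h

theorem fin_crit (p : ℕ × List (ℕ × ℕ)) :
    Emb.{u} (ofCode p) ↔
      ∃ m < (2 * p.1 * p.1) ^ (p.1 * p.1), GoodLab (ofCode p) (numLab p.1 m) := by
  constructor
  · intro h
    obtain ⟨C, l, hg⟩ := (criterion (ofCode p)).1 (emb_down (ofCode p) h)
    exact fin_aux p.1 (ofCode p) l hg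
  · rintro ⟨m, _, h⟩
    exact emb_ulift (ofCode p) ((criterion (ofCode p)).2 ⟨ℕ, numLab p.1 m, h⟩)

end IrrCay
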