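import Mathlib

/-! # Adding a stable letter to a subgroup of an HNN extension -/

set_option autoImplicit false

namespace IrrCay

open HNNExtension HNNExtension.NormalWord

section

variable {G : Type} [Group G] {A B : Subgroup G} (φ : A ≃* B) (U : Subgroup G)

/-- elements represented by a reduced word all of whose group letters lie in `U` -/
def InU (x : HNNExtension G A B φ) : Prop :=
  ∃ w : ReducedWord G A B, w.head ∈ U ∧ (∀ p ∈ w.toList, p.2 ∈ U) ∧ w.prod φ = x

theorem inU_one : InU φ U (1 : HNNExtension G A B φ) :=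
  ⟨ReducedWord.empty G A B, by simp [ReducedWord.empty, U.one_mem],
    by simp [ReducedWord.empty], by simp [ReducedWord.prod, ReducedWord.empty]⟩

theorem InU.of_mul {x : HNNExtension G A B φ} (hx : InU φ U x) {g : G} (hg : g ∈ U) :
    InU φ U (HNNExtension.of g * x) := by
  obtain ⟨w, h1, h2, rfl⟩ := hx
  refine ⟨⟨g * w.head, w.toList, w.chain⟩, U.mul_mem hg h1, h2, ?_⟩
  simp [ReducedWord.prod, mul_assoc]

theorem t_zpow_mul_of (u : ℤˣ) (a : toSubgroup A B u) :
    (HNNExtension.t ^ (u : ℤ) * HNNExtension.of (a : G) : HNNExtension G A B φ) =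
      HNNExtension.of (toSubgroupEquiv φ u a : G) * HNNExtension.t ^ (u : ℤ) := by
  rcases Int.units_eq_one_or u with (rfl | rfl)
  · rw [Units.val_one, zpow_one]
    exact HNNExtension.t_mul_of (φ := φ) a
  · rw [Units.val_neg, Units.val_one, zpow_neg, zpow_one]
    exact HNNExtension.inv_t_mul_of (φ := φ) a

theorem toSubgroupEquiv_mem (hU : ∀ a : A, (a : G) ∈ U ↔ (φ a : G) ∈ U) (u : ℤˣ)
    (a : toSubgroup A B u) (ha : (a : G) ∈ U) : (toSubgroupEquiv φ u a : G) ∈ U := by
  rcases Int.units_eq_one_or u with (rfl | rfl)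
  · exact (hU a).1 ha
  · have key : ∀ b : B, (b : G) ∈ U → (φ.symm b : G) ∈ U := fun b hb =>
      (hU (φ.symm b)).2 (by rw [MulEquiv.apply_symm_apply]; exact hb)
    exact key a ha

theorem InU.t_mul (hU : ∀ a : A, (a : G) ∈ U ↔ (φ a : G) ∈ U)
    {x : HNNExtension G A B φ} (hx : InU φ U x) (u : ℤˣ) :
    InU φ U (HNNExtension.t ^ (u : ℤ) * x) := by
  classical
  obtain ⟨w, h1, h2, rfl⟩ := hx
  obtain ⟨h, l, hc⟩ := w
  dsimp only at h1 h2
  by_cases hcan : h ∈ toSubgroup A B u ∧ ∃ g' l', l = (-u, g') :: l'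
  · obtain ⟨hmem, g', l', rfl⟩ := hcan
    have hg' : g' ∈ U := h2 (-u, g') (by simp)
    refine ⟨⟨(toSubgroupEquiv φ u ⟨h, hmem⟩ : G) * g', l', (List.isChain_cons.1 hc).2⟩,
      U.mul_mem (toSubgroupEquiv_mem φ U hU u ⟨h, hmem⟩ h1) hg',
      fun p hp => h2 p (List.mem_cons_of_mem _ hp), ?_⟩
    have e1 := t_zpow_mul_of φ u ⟨h, hmem⟩
    simp only [ReducedWord.prod, List.map_cons, List.prod_cons, map_mul]
    rw [← mul_assoc (HNNExtension.t ^ (u : ℤ)) (HNNExtension.of h), e1]
    simp only [Units.val_neg, zpow_neg, mul_assoc, mul_inv_cancel_left]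
  · refine ⟨⟨1, (u, h) :: l, ?_⟩, U.one_mem, ?_, ?_⟩
    · refine List.isChain_cons.2 ⟨?_, hc⟩
      rintro ⟨u', g'⟩ hu' hmem
      by_contra hne
      apply hcan
      refine ⟨hmem, g', l.tail, ?_⟩
      have hu : u' = -u := by
        rcases Int.units_eq_one_or u with (rfl | rfl) <;>
        rcases Int.units_eq_one_or u' with (rfl | rfl) <;> simp_all
      subst hu
      cases l with
      | nil => simp at hu'
      | cons a l => simp at hu'; subst hu'; simp
    · intro p hp
      rcases List.mem_cons.1 hp with rfl | hp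
      · exact h1
      · exact h2 p hp
    · simp [ReducedWord.prod, mul_assoc]

theorem inU_of_mem (hU : ∀ a : A, (a : G) ∈ U ↔ (φ a : G) ∈ U)
    (x : HNNExtension G A B φ) (hx : x ∈ Subgroup.closure
      ((fun x : G => (HNNExtension.of x : HNNExtension G A B φ)) '' (U : Set G) ∪
        {HNNExtension.t})) : InU φ U x := by
  induction hx using Subgroup.closure_induction_left with
  | one => exact inU_one φ U
  | mul_left y hy z hz ih =>
    rcases hy with ⟨g, hg, rfl⟩ | hy
    · exact ih.of_mul φ U hg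
    · rw [Set.mem_singleton_iff] at hy
      subst hy
      simpa using ih.t_mul φ U hU 1
  | inv_mul_cancel y hy z hz ih =>
    rcases hy with ⟨g, hg, rfl⟩ | hy
    · have := ih.of_mul φ U (U.inv_mem hg)
      simpa using this
    · rw [Set.mem_singleton_iff] at hy
      subst hy
      simpa using ih.t_mul φ U hU (-1)

end

theorem hnn_step {G : Type} [Group G] (A B : Subgroup G) (φ : A ≃* B) (U : Subgroup G)
    (hU : ∀ a : A, (a : G) ∈ U ↔ (φ a : G) ∈ U) (g : G)
    (hg : (HNNExtension.of g : HNNExtension G A B φ) ∈ Subgroup.closure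
      ((fun x : G => (HNNExtension.of x : HNNExtension G A B φ)) '' (U : Set G) ∪
        {HNNExtension.t})) : g ∈ U := by
  obtain ⟨w, h1, -, h3⟩ := inU_of_mem φ U hU _ hg
  have hnil := HNNExtension.ReducedWord.toList_eq_nil_of_mem_of_range φ w ⟨g, h3.symm⟩
  have : (HNNExtension.of w.head : HNNExtension G A B φ) = HNNExtension.of g := by
    rw [← h3]; simp [ReducedWord.prod, hnil]
  rw [← HNNExtension.of_injective φ this]
  exact h1

end IrrCay
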