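import Pool.Agent.IrrCay.HNNStep

/-! # A tower of HNN extensions -/

set_option autoImplicit false

namespace IrrCay

/-- the statement of `tower` for the index type `J` -/
def TowerSt (J : Type) : Prop :=
  ∀ {B₀ : Type} [Group B₀] (S₀ : Subgroup B₀)
    (D : J → Type) [∀ j, Group (D j)] (θ θ' : ∀ j, D j →* B₀)
    (_ : ∀ j, Function.Injective (θ j)) (_ : ∀ j, Function.Injective (θ' j))
    (_ : ∀ j y, θ j y ∈ S₀ ↔ θ' j y ∈ S₀),
    ∃ (G : Type) (_ : Group G) (f : B₀ →* G) (r : J → G) (U : Subgroup G),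
      Function.Injective f ∧ (∀ j, r j ∈ U) ∧ (∀ b, f b ∈ U ↔ b ∈ S₀) ∧
      ∀ j y, r j * f (θ j y) * (r j)⁻¹ = f (θ' j y)

theorem towerSt_equiv {I J : Type} (e : I ≃ J) (h : TowerSt I) : TowerSt J := by
  intro B₀ _ S₀ D _ θ θ' hθ hθ' hS
  obtain ⟨G, hG, f, r, U, h1, h2, h3, h4⟩ := h S₀ (fun i => D (e i)) (fun i => θ (e i))
    (fun i => θ' (e i)) (fun i => hθ _) (fun i => hθ' _) (fun i y => hS _ y)
  refine ⟨G, hG, f, fun j => r (e.symm j), U, h1, fun j => h2 _, h3, ?_⟩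
  intro j
  obtain ⟨i, rfl⟩ := e.surjective j
  intro y
  simpa using h4 i y

theorem towerSt_empty : TowerSt PEmpty := by
  intro B₀ _ S₀ D _ θ θ' hθ hθ' hS
  exact ⟨B₀, inferInstance, MonoidHom.id B₀, PEmpty.elim, S₀, Function.injective_id,
    fun j => j.elim, fun b => Iff.rfl, fun j => j.elim⟩

theorem towerSt_option {I : Type} (h : TowerSt I) : TowerSt (Option I) := by
  intro B₀ _ S₀ D _ θ θ' hθ hθ' hS
  obtain ⟨G, hG, f, r, U, h1, h2, h3, h4⟩ := h S₀ (fun i => D (some i)) (fun i => θ (some i))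
    (fun i => θ' (some i)) (fun i => hθ _) (fun i => hθ' _) (fun i y => hS _ y)
  let a : D none →* G := f.comp (θ none)
  let b : D none →* G := f.comp (θ' none)
  have ha : Function.Injective a := h1.comp (hθ none)
  have hb : Function.Injective b := h1.comp (hθ' none)
  let φ : a.range ≃* b.range :=
    (MonoidHom.ofInjective ha).symm.trans (MonoidHom.ofInjective hb)
  have hφ : ∀ y, φ ⟨a y, ⟨y, rfl⟩⟩ = ⟨b y, ⟨y, rfl⟩⟩ := by
    intro y
    have : (MonoidHom.ofInjective ha).symm ⟨a y, ⟨y, rfl⟩⟩ = y := by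
      rw [MulEquiv.symm_apply_eq]; rfl
    simp only [φ, MulEquiv.trans_apply, this]
    rfl
  have hU : ∀ x : a.range, (x : G) ∈ U ↔ (φ x : G) ∈ U := by
    rintro ⟨_, y, rfl⟩
    rw [hφ]
    simp only [a, b, MonoidHom.comp_apply]
    rw [h3, h3]
    exact hS none y
  let H := HNNExtension G a.range b.range φ
  let ι : G →* H := HNNExtension.of
  let U' : Subgroup H := Subgroup.closure
      ((fun x : G => (HNNExtension.of x : H)) '' (U : Set G) ∪ {HNNExtension.t})
  have hU' : ∀ g, ι g ∈ U' ↔ g ∈ U := fun g =>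
    ⟨fun hg => hnn_step a.range b.range φ U hU g hg,
      fun hg => Subgroup.subset_closure (Or.inl ⟨g, hg, rfl⟩)⟩
  refine ⟨H, inferInstance, ι.comp f, fun j => j.elim HNNExtension.t (fun i => ι (r i)), U',
    (HNNExtension.of_injective φ).comp h1, ?_, ?_, ?_⟩
  · rintro (_ | i)
    · exact Subgroup.subset_closure (Or.inr rfl)
    · exact (hU' _).2 (h2 i)
  · intro x
    rw [MonoidHom.comp_apply, hU', h3]
  · rintro (_ | i) y
    · have := HNNExtension.equiv_eq_conj (φ := φ) ⟨a y, ⟨y, rfl⟩⟩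
      rw [hφ] at this
      exact this.symm
    · simp only [MonoidHom.comp_apply, Option.elim]
      rw [← map_inv, ← map_mul, ← map_mul, h4]

theorem tower {B₀ : Type} [Group B₀] (S₀ : Subgroup B₀) {J : Type} [Finite J]
    (D : J → Type) [∀ j, Group (D j)] (θ θ' : ∀ j, D j →* B₀)
    (hθ : ∀ j, Function.Injective (θ j)) (hθ' : ∀ j, Function.Injective (θ' j))
    (hS : ∀ j y, θ j y ∈ S₀ ↔ θ' j y ∈ S₀) :
    ∃ (G : Type) (_ : Group G) (f : B₀ →* G) (r : J → G) (U : Subgroup G),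
      Function.Injective f ∧ (∀ j, r j ∈ U) ∧ (∀ b, f b ∈ U ↔ b ∈ S₀) ∧
      ∀ j y, r j * f (θ j y) * (r j)⁻¹ = f (θ' j y) :=
  Finite.induction_empty_option (P := TowerSt) (fun e h => towerSt_equiv e h) towerSt_empty
    (fun h => towerSt_option h) J S₀ D θ θ' hθ hθ' hS

end IrrCay
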