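import Pool.Agent.IrrCay.BaseGroup
import Pool.Agent.IrrCay.Tower

/-! # A model of the relators -/

set_option autoImplicit false

namespace IrrCay

namespace ModelAux

theorem map_Xpow {G G' : Type*} [Group G] [Group G'] (f : G →* G') {k : ℕ} (x : Fin k → G)
    (α : Fin k → ℤ) : f (Xpow x α) = Xpow (fun i => f (x i)) α := by
  unfold Xpow
  rw [map_list_prod, List.map_ofFn]
  congr 2
  funext i
  simp

theorem map_Tconj {G G' : Type*} [Group G] [Group G'] (f : G →* G') {k : ℕ} (x : Fin k → G)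
    (t : G) (α : Fin k → ℤ) : f (Tconj x t α) = Tconj (fun i => f (x i)) (f t) α := by
  unfold Tconj
  rw [map_mul, map_mul, map_inv, map_Xpow]

theorem Xpow_zero {G : Type*} [Group G] {k : ℕ} (x : Fin k → G) : Xpow x 0 = 1 := by
  unfold Xpow
  apply List.prod_eq_one
  intro y hy
  rw [List.mem_ofFn] at hy
  obtain ⟨i, rfl⟩ := hy
  simp

theorem com_eq_one {G : Type*} [Group G] {a b : G} : com a b = 1 ↔ Commute a b := by
  unfold com
  rw [mul_inv_eq_one, mul_inv_eq_iff_eq_mul]
  rfl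

theorem map_com {G G' : Type*} [Group G] [Group G'] (f : G →* G') (a b : G) :
    f (com a b) = com (f a) (f b) := by
  simp [com]

/-- the action of `G` on two copies of the cosets of `U` -/
def act {G : Type} [Group G] (U : Subgroup G) : G →* Equiv.Perm ((G ⧸ U) × Bool) where
  toFun g := (MulAction.toPerm g : Equiv.Perm (G ⧸ U)).prodCongr (Equiv.refl Bool)
  map_one' := by
    ext x <;> simp
  map_mul' a b := by
    apply Equiv.ext
    rintro ⟨x, b'⟩
    simp [mul_smul]

theorem act_apply {G : Type} [Group G] (U : Subgroup G) (g : G) (x : G ⧸ U) (b : Bool) :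
    act U g (x, b) = (g • x, b) := rfl

end ModelAux

open ModelAux

open Classical in
theorem k_trick {G : Type} [Group G] (U : Subgroup G) :
    ∃ (Δ : Type) (_ : Group Δ) (f : G →* Δ) (κ : Δ),
      (∀ u ∈ U, com κ (f u) = 1) ∧ ∀ g, g ∉ U → com κ (f g) ≠ 1 := by
  refine ⟨Equiv.Perm ((G ⧸ U) × Bool), inferInstance, act U,
    Equiv.swap (((1 : G) : G ⧸ U), true) (((1 : G) : G ⧸ U), false), ?_, ?_⟩
  · intro u hu
    have hfix : ∀ b, act U u (((1 : G) : G ⧸ U), b) = (((1 : G) : G ⧸ U), b) := by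
      intro b
      rw [act_apply]
      congr 1
      rw [MulAction.Quotient.smul_mk, QuotientGroup.eq]
      simpa using U.inv_mem hu
    rw [com_eq_one]
    have h := Equiv.swap_apply_apply (act U u) (((1 : G) : G ⧸ U), true)
      (((1 : G) : G ⧸ U), false)
    rw [hfix, hfix] at h
    show _ * _ = _ * _
    conv_lhs => rw [h]
    simp [mul_assoc]
  · intro g hg h
    rw [com_eq_one] at h
    have hne : (g • ((1 : G) : G ⧸ U)) ≠ ((1 : G) : G ⧸ U) := by
      rw [MulAction.Quotient.smul_mk, Ne, QuotientGroup.eq]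
      intro hc
      apply hg
      have := U.inv_mem hc
      simpa using this
    have h2 := congrArg (fun σ : Equiv.Perm ((G ⧸ U) × Bool) => σ (((1 : G) : G ⧸ U), true)) h.eq
    simp only [Equiv.Perm.mul_apply, act_apply, Equiv.swap_apply_left] at h2
    rw [Equiv.swap_apply_of_ne_of_ne] at h2
    · simp at h2
    · intro e; exact hne (congrArg Prod.fst e)
    · intro e; exact hne (congrArg Prod.fst e)

theorem model (S : AffSys) (h : S.Q) (p : S.Pt) (hp : ¬ S.Eqv p (h, 0)) :
    ∃ (Δ : Type) (_ : Group Δ) (π : FreeGroup S.Gen →* Δ),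
      (∀ ρ ∈ S.Rels h, π ρ = 1) ∧ π (S.ww p) ≠ 1 := by
  obtain ⟨B₀, iB, S₀, x, t, D, iD, θ, θ', hθ, hθ', hS, hx, hT, hrx, hrt⟩ := base_group S h
  have := S.fJ
  obtain ⟨G, iG, f, r, U, -, hrU, hfU, hr⟩ := tower S₀ D θ θ' hθ hθ' hS
  obtain ⟨Δ, iΔ, F, κ, hκ, hκ'⟩ := k_trick U
  let π : FreeGroup S.Gen →* Δ := FreeGroup.lift
    (Sum.elim (fun i => F (f (x i))) (Sum.elim (fun q => F (f (t q)))
      (Sum.elim (fun j => F (r j)) (fun _ => κ))))
  have hgx : ∀ i, π (S.gx i) = F (f (x i)) := fun i => by simp [π, AffSys.gx]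
  have hgt : ∀ q, π (S.gt q) = F (f (t q)) := fun q => by simp [π, AffSys.gt]
  have hgr : ∀ j, π (S.gr j) = F (r j) := fun j => by simp [π, AffSys.gr]
  have hgk : π S.gk = κ := by simp [π, AffSys.gk]
  have htw : ∀ q : S.Pt, π (S.tw q) = F (f (Tconj x (t q.1) q.2)) := by
    intro q
    simp only [AffSys.tw, map_Tconj, hgx, hgt]
  refine ⟨Δ, iΔ, π, ?_, ?_⟩
  · rintro ρ ((((⟨i, i', rfl⟩ | ⟨j, i, rfl⟩) | ⟨j, rfl⟩) | ⟨j, rfl⟩) | hρ)
    · rw [map_com, hgx, hgx, com_eq_one]
      exact ((hx i i').map f).map F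
    · rw [map_mul, map_mul, map_mul, map_inv, map_inv, map_zpow, map_zpow, hgx, hgr,
        mul_inv_eq_one]
      obtain ⟨y, h1, h2⟩ := hrx j i
      have := hr j y
      rw [h1, h2] at this
      rw [← map_zpow, ← map_zpow, ← map_zpow, ← map_zpow, ← this]
      simp
    · rw [map_mul, map_mul, map_mul, map_inv, map_inv, htw, htw, hgr, mul_inv_eq_one]
      obtain ⟨y, h1, h2⟩ := hrt j
      have := hr j y
      rw [h1, h2] at this
      simp only
      rw [← this]
      simp
    · rw [map_com, hgk, hgr]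
      exact hκ _ (hrU j)
    · rw [Set.mem_singleton_iff] at hρ
      rw [hρ, map_com, hgk, hgt]
      apply hκ
      rw [hfU]
      have : Tconj x (t h) 0 = t h := by simp [Tconj, Xpow_zero]
      rw [← this, hT]
      exact Relation.EqvGen.refl _
  · rw [AffSys.ww, map_com, hgk, htw]
    apply hκ'
    rw [hfU, hT]
    exact hp

end IrrCay
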