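import Pool.Agent.IrrCay.AffDefs

/-! # Every element is a fixed word in elements of order three -/

set_option autoImplicit false

namespace IrrCay

section three

variable {X : Type}

/-- the permutation of three copies of `X` given by three permutations of `X` -/
def lev (u : Fin 3 → Equiv.Perm X) : Equiv.Perm (Fin 3 × X) :=
  Equiv.prodShear (Equiv.refl _) u

/-- the rotation of the copies followed after `lev` -/
def rotl (u : Fin 3 → Equiv.Perm X) : Equiv.Perm (Fin 3 × X) :=
  Equiv.prodShear (Equiv.addRight 1) u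

theorem lev_apply (u : Fin 3 → Equiv.Perm X) (p : Fin 3 × X) : lev u p = (p.1, u p.1 p.2) := rfl

theorem rotl_apply (u : Fin 3 → Equiv.Perm X) (p : Fin 3 × X) :
    rotl u p = (p.1 + 1, u p.1 p.2) := rfl

theorem rotl_inv_mul (u : Fin 3 → Equiv.Perm X) : (rotl (fun _ => 1))⁻¹ * rotl u = lev u := by
  rw [inv_mul_eq_iff_eq_mul]
  ext p <;> rfl

theorem lev_mul (u w : Fin 3 → Equiv.Perm X) : lev u * lev w = lev (u * w) := by
  ext p <;> rfl

theorem lev_inv (u : Fin 3 → Equiv.Perm X) : (lev u)⁻¹ = lev u⁻¹ := by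
  rw [inv_eq_iff_mul_eq_one, lev_mul, mul_inv_cancel]
  ext p <;> rfl

theorem rotl_cube (u : Fin 3 → Equiv.Perm X) (h0 : u 2 * u 1 * u 0 = 1)
    (h1 : u 0 * u 2 * u 1 = 1) (h2 : u 1 * u 0 * u 2 = 1) : rotl u ^ 3 = 1 := by
  rw [pow_three']
  apply Equiv.ext
  rintro ⟨i, y⟩
  simp only [Equiv.Perm.mul_apply, rotl_apply, Equiv.Perm.one_apply]
  fin_cases i
  · exact Prod.ext rfl (DFunLike.congr_fun h0 y)
  · exact Prod.ext rfl (DFunLike.congr_fun h1 y)
  · exact Prod.ext rfl (DFunLike.congr_fun h2 y)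

end three

theorem three_trick {Gen Δ : Type} [Group Δ] (f : Gen → Δ) :
    ∃ (Δ' : Type) (_ : Group Δ') (j : Δ →* Δ') (R : Gen × Fin 4 → Δ'),
      Function.Injective j ∧ (∀ i, R i ^ 3 = 1) ∧
      ∀ g, com ((R (g, 0))⁻¹ * R (g, 1)) ((R (g, 2))⁻¹ * R (g, 3)) = j (f g) := by
  let X := ℤ × Δ
  -- the power function and the shift
  let a : Δ → Equiv.Perm X := fun g =>
    Equiv.prodShear (Equiv.refl _) fun n => Equiv.mulLeft (g ^ n)
  let b : Equiv.Perm X := Equiv.prodShear (Equiv.addRight 1) fun _ => Equiv.refl _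
  let c : Δ →* Equiv.Perm X :=
    { toFun := fun g => Equiv.prodShear (Equiv.refl _) fun _ => Equiv.mulLeft g
      map_one' := by
        apply Equiv.ext
        rintro ⟨n, y⟩
        exact Prod.ext rfl (one_mul y)
      map_mul' := by
        intro g h
        apply Equiv.ext
        rintro ⟨n, y⟩
        exact Prod.ext rfl (mul_assoc g h y) }
  have hab : ∀ g, a g * b = c g * b * a g := by
    intro g
    apply Equiv.ext
    rintro ⟨n, y⟩
    refine Prod.ext rfl ?_
    change g ^ (n + 1) * y = g * (g ^ n * y)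
    rw [← mul_assoc, ← zpow_one_add, add_comm]
  let e0 : Equiv.Perm X → Fin 3 → Equiv.Perm X := fun u i => if i = 0 then u else 1
  let j : Δ →* Equiv.Perm (Fin 3 × X) :=
    { toFun := fun g => lev (e0 (c g))
      map_one' := by
        apply Equiv.ext
        rintro ⟨i, y⟩
        rw [lev_apply, map_one]
        fin_cases i <;> rfl
      map_mul' := by
        intro g h
        rw [lev_mul, map_mul]
        congr 1
        funext i
        simp only [e0, Pi.mul_apply]
        split_ifs <;> simp }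
  let ua : Δ → Fin 3 → Equiv.Perm X := fun g => ![a g, (a g)⁻¹, 1]
  let ub : Fin 3 → Equiv.Perm X := ![b, 1, b⁻¹]
  let R : Gen × Fin 4 → Equiv.Perm (Fin 3 × X) := fun q =>
    if q.2 = 1 then rotl (ua (f q.1)) else if q.2 = 3 then rotl ub else rotl fun _ => 1
  refine ⟨_, inferInstance, j, R, ?_, ?_, ?_⟩
  · intro g h hgh
    have h1 := congrArg Prod.snd (congrArg Prod.snd (DFunLike.congr_fun hgh (0, (0, 1))))
    change g * 1 = h * 1 at h1
    simpa using h1
  · rintro ⟨g, i⟩
    have hone : (rotl (fun _ => (1 : Equiv.Perm X))) ^ 3 = 1 :=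
      rotl_cube _ (by simp) (by simp) (by simp)
    fin_cases i
    · exact hone
    · exact rotl_cube _ (by simp [ua]) (by simp [ua]) (by simp [ua])
    · exact hone
    · exact rotl_cube _ (by simp [ub]) (by simp [ub]) (by simp [ub])
  · intro g
    have r0 : R (g, 0) = rotl fun _ => 1 := rfl
    have r1 : R (g, 1) = rotl (ua (f g)) := rfl
    have r2 : R (g, 2) = rotl fun _ => 1 := rfl
    have r3 : R (g, 3) = rotl ub := rfl
    rw [r0, r1, r2, r3, rotl_inv_mul, rotl_inv_mul, com, lev_inv, lev_inv, lev_mul, lev_mul,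
      lev_mul]
    change lev _ = lev _
    congr 1
    funext i
    fin_cases i
    · change a (f g) * b * (a (f g))⁻¹ * b⁻¹ = c (f g)
      rw [hab]; group
    · change (a (f g))⁻¹ * 1 * ((a (f g))⁻¹)⁻¹ * 1⁻¹ = 1
      group
    · change 1 * b⁻¹ * 1⁻¹ * (b⁻¹)⁻¹ = 1
      group

end IrrCay
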