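import Pool.Agent.IrrCay.TMAff

/-! # An affine system with undecidable equivalence -/

set_option autoImplicit false

namespace IrrCay

open Turing

namespace UnivAux

open PartrecToTM2

/-- the digits -/
def gcode : PartrecToTM2.Γ' → ℕ
  | .consₗ => 1
  | .cons => 2
  | .bit0 => 3
  | .bit1 => 4

/-- the input number -/
def ff (n : ℕ) : ℕ := num gcode 5 (trList [n])

theorem ff_zero : ff 0 = 2 := by
  simp [ff, num, gcode]

theorem trNat_pos (p : PosNum) : trNat (p : ℕ) = trPosNum p := by
  have h : ((p : ℕ) : Num) = Num.pos p := by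
    have := Num.of_to_nat (Num.pos p)
    exact this
  rw [trNat, h]
  rfl

theorem ff_pos (p : PosNum) : ff (p : ℕ) = num gcode 5 (trPosNum p ++ [Γ'.cons]) := by
  simp [ff, trNat_pos]

theorem exists_pos (n : ℕ) (h : 0 < n) : ∃ p : PosNum, (p : ℕ) = n := by
  have h1 := Num.to_of_nat n
  cases hn : (n : Num) with
  | zero =>
    rw [hn] at h1
    simp at h1
    omega
  | pos p =>
    rw [hn] at h1
    exact ⟨p, h1⟩

theorem ff_step (n : ℕ) (h : 0 < n) :
    ff n = (if n % 2 = 1 then 4 else 3) + 5 * ff (n / 2) := by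
  obtain ⟨p, rfl⟩ := exists_pos n h
  cases p with
  | one =>
    have h0 : ((PosNum.one : PosNum) : ℕ) = 1 := rfl
    rw [ff_pos, h0]
    norm_num [ff_zero, trPosNum, num, gcode]
  | bit0 p =>
    have h0 : ((PosNum.bit0 p : PosNum) : ℕ) = p + p := rfl
    have h1 : ((PosNum.bit0 p : PosNum) : ℕ) / 2 = p := by rw [h0]; omega
    have h2 : ((PosNum.bit0 p : PosNum) : ℕ) % 2 = 0 := by rw [h0]; omega
    rw [h1, h2, ff_pos, ff_pos]
    simp [trPosNum, num, gcode]
  | bit1 p =>
    have h0 : ((PosNum.bit1 p : PosNum) : ℕ) = p + p + 1 := rfl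
    have h1 : ((PosNum.bit1 p : PosNum) : ℕ) / 2 = p := by rw [h0]; omega
    have h2 : ((PosNum.bit1 p : PosNum) : ℕ) % 2 = 1 := by rw [h0]; omega
    rw [h1, h2, ff_pos, ff_pos]
    simp [trPosNum, num, gcode]

theorem ff_primrec : Primrec ff := by
  let g : Unit → List ℕ → Option ℕ := fun _ l =>
    some (if l.length = 0 then 2 else
      (if l.length % 2 = 1 then 4 else 3) + 5 * (l[l.length / 2]?.getD 0))
  have hg : Primrec₂ g := by
    have hl : Primrec (fun p : Unit × List ℕ => p.2.length) :=
      Primrec.list_length.comp Primrec.snd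
    have h2 : Primrec (fun p : Unit × List ℕ => p.2.length / 2) :=
      Primrec.nat_div.comp hl (Primrec.const 2)
    have h3 : Primrec (fun p : Unit × List ℕ => p.2.length % 2) :=
      Primrec.nat_mod.comp hl (Primrec.const 2)
    refine Primrec.option_some.comp (Primrec.ite (Primrec.eq.comp hl (Primrec.const 0))
      (Primrec.const 2) (Primrec.nat_add.comp
        (Primrec.ite (Primrec.eq.comp h3 (Primrec.const 1)) (Primrec.const 4) (Primrec.const 3))
        (Primrec.nat_mul.comp (Primrec.const 5)
          (Primrec.option_getD.comp (Primrec.list_getElem?.comp Primrec.snd h2)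
            (Primrec.const 0)))))
  have h := Primrec.nat_strong_rec (fun (_ : Unit) n => ff n) hg (by
    intro _ n
    simp only [g, List.length_map, List.length_range]
    congr 1
    by_cases hn : n = 0
    · simp [hn, ff_zero]
    · rw [if_neg hn, ff_step n (by omega)]
      congr 2
      rw [List.getElem?_map, List.getElem?_range (by omega)]
      rfl)
  exact h.comp (Primrec.const ()) Primrec.id

end UnivAux

open UnivAux in
theorem exists_affSys : ∃ (S : AffSys) (i0 : Fin S.k) (st h : S.Q) (f : ℕ → ℕ),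
    Computable f ∧ ¬ REPred (fun n => ¬ S.Eqv (st, Pi.single i0 (f n : ℤ)) (h, 0)) := by
  -- the universal function
  have hg : Partrec (fun n : ℕ => Nat.Partrec.Code.eval (Denumerable.ofNat _ n) 0) :=
    Nat.Partrec.Code.eval_part.comp (Computable.ofNat _) (Computable.const 0)
  obtain ⟨c, hc⟩ := ToPartrec.Code.exists_code (Nat.Partrec'.part_iff₁.2 hg)
  have hfin : Finite PartrecToTM2.Γ' := inferInstance
  have hfK : Finite PartrecToTM2.K' := by
    refine Finite.of_injective (β := Fin 4) (fun k => match k with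
      | .main => 0 | .rev => 1 | .aux => 2 | .stack => 3) ?_
    intro a b h
    cases a <;> cases b <;> simp at h ⊢
  obtain ⟨hs1, hs2⟩ := PartrecToTM2.tr_supports c PartrecToTM2.Cont'.halt
  obtain ⟨S, i0, st, h, hS⟩ := tm2_aff (K := PartrecToTM2.K') (A := PartrecToTM2.Γ')
    (Λ := PartrecToTM2.Λ') (σ := Option PartrecToTM2.Γ') PartrecToTM2.tr
    (PartrecToTM2.codeSupp c PartrecToTM2.Cont'.halt) (fun q hq => hs2 q hq) PartrecToTM2.K'.main
    (PartrecToTM2.trNormal c PartrecToTM2.Cont'.halt) hs1 none gcode 5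
    (by intro a b h; cases a <;> cases b <;> simp [gcode] at h ⊢)
    (by intro a; cases a <;> simp [gcode]) (by intro a; cases a <;> simp [gcode])
  refine ⟨S, i0, st, h, ff, ff_primrec.to_comp, ?_⟩
  have hiff : ∀ n : ℕ, S.Eqv (st, Pi.single i0 (ff n : ℤ)) (h, 0) ↔
      (Nat.Partrec.Code.eval (Denumerable.ofNat _ n) 0).Dom := by
    intro n
    rw [ff, ← hS]
    have h1 := PartrecToTM2.tr_eval c [n]
    have h2 := hc (n ::ᵥ List.Vector.nil)
    have h3 : (PartrecToTM2.init c [n] : PartrecToTM2.Cfg') =
        ⟨some (PartrecToTM2.trNormal c PartrecToTM2.Cont'.halt), none,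
          Function.update (fun _ => []) PartrecToTM2.K'.main (PartrecToTM2.trList [n])⟩ := by
      unfold PartrecToTM2.init
      congr 1
      funext k
      cases k <;> rfl
    rw [h3] at h1
    rw [h1]
    change (PartrecToTM2.halt <$> c.eval [n]).Dom ↔ _
    have h4 : c.eval [n] = pure <$> Nat.Partrec.Code.eval (Denumerable.ofNat _ n) 0 := h2
    rw [h4]
    simp
  intro hre
  apply ComputablePred.halting_problem_not_re 0
  have h1 : REPred (fun c : Nat.Partrec.Code =>
      ¬ S.Eqv (st, Pi.single i0 (ff (Encodable.encode c) : ℤ)) (h, 0)) := by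
    have := Partrec.comp hre (Computable.encode (α := Nat.Partrec.Code))
    exact this
  refine h1.of_eq fun c => ?_
  rw [hiff, Denumerable.ofNat_encode]

end IrrCay
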