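import Pool.Agent.IrrCay.WalkDefs
import Pool.Agent.IrrCay.Universal
import Pool.Agent.IrrCay.Model
import Pool.Agent.IrrCay.ThreeTrick
import Pool.Agent.IrrCay.Derive

/-! # A finitely presented group with generators of order three and unsolvable word problem -/

set_option autoImplicit false

namespace IrrCay

theorem nb3_prod {G : Type*} [Group G] : ∀ (k : ℕ) (y : Fin k → G) (i0 : Fin k),
    (∀ i, i ≠ i0 → y i = 1) → (List.ofFn y).prod = y i0 := by
  have hone : ∀ (k : ℕ) (y : Fin k → G), (∀ i, y i = 1) → (List.ofFn y).prod = 1 := by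
    intro k y hy
    apply List.prod_eq_one
    intro a ha
    rw [List.mem_ofFn] at ha
    obtain ⟨i, rfl⟩ := ha
    exact hy i
  intro k
  induction k with
  | zero => intro y i0; exact i0.elim0
  | succ k ih =>
    intro y i0 h
    rw [List.ofFn_succ, List.prod_cons]
    refine Fin.cases ?_ (fun i => ?_) i0 (motive := fun i0 => (∀ i, i ≠ i0 → y i = 1) →
      y 0 * (List.ofFn fun i => y i.succ).prod = y i0) h
    · intro h
      rw [hone _ _ fun i => h _ (Fin.succ_ne_zero i), mul_one]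
    · intro h
      rw [h 0 (Fin.succ_ne_zero i).symm, one_mul]
      exact ih _ i fun i' hi' => h _ fun h2 => hi' (Fin.succ_injective _ h2)

theorem nb3_Xpow {G : Type*} [Group G] {k : ℕ} (x : Fin k → G) (i0 : Fin k) (a : ℤ) :
    Xpow x (Pi.single i0 a) = x i0 ^ a := by
  rw [Xpow, nb3_prod k _ i0]
  · rw [Pi.single_eq_same]
  · intro i hi
    rw [Pi.single_eq_of_ne hi, zpow_zero]

/-- concatenation of `n` copies of a list -/
def nb3_pow {α : Type} (b : List α) (n : ℕ) : List α := Nat.rec [] (fun _ ih => b ++ ih) n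

theorem nb3_pow_succ {α : Type} (b : List α) (n : ℕ) :
    nb3_pow b (n + 1) = b ++ nb3_pow b n := rfl

theorem nb3_pow_primrec {α : Type} [Primcodable α] (b : List α) : Primrec (nb3_pow b) := by
  have h : Primrec₂ fun (_ : Unit) (p : ℕ × List α) => b ++ p.2 :=
    Primrec.list_append.comp (Primrec.const b) (Primrec.snd.comp Primrec.snd)
  exact (Primrec.nat_rec (Primrec.const []) h).comp (Primrec.const ()) Primrec.id

theorem nb3_pow_mk {α : Type} (b : List (α × Bool)) (n : ℕ) :
    FreeGroup.mk (nb3_pow b n) = FreeGroup.mk b ^ n := by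
  induction n with
  | zero => rfl
  | succ n ih => rw [nb3_pow_succ, ← FreeGroup.mul_mk, ih, pow_succ']

theorem nb3_rels_finite (S : AffSys) (h : S.Q) : (S.Rels h).Finite := by
  have := S.fQ
  have := S.fJ
  refine Set.Finite.union (Set.Finite.union (Set.Finite.union (Set.Finite.union ?_ ?_) ?_) ?_)
    (Set.finite_singleton _)
  · refine (Set.finite_range fun p : Fin S.k × Fin S.k => com (S.gx p.1) (S.gx p.2)).subset ?_
    rintro _ ⟨i, i', rfl⟩
    exact ⟨(i, i'), rfl⟩
  · refine (Set.finite_range fun p : S.J × Fin S.k =>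
      S.gr p.1 * S.gx p.2 ^ S.N p.1 p.2 * (S.gr p.1)⁻¹ * (S.gx p.2 ^ S.M p.1 p.2)⁻¹).subset ?_
    rintro _ ⟨j, i, rfl⟩
    exact ⟨(j, i), rfl⟩
  · refine (Set.finite_range fun j : S.J => S.gr j * S.tw (S.tgt j, S.c j) * (S.gr j)⁻¹ *
      (S.tw (S.src j, S.a j))⁻¹).subset ?_
    rintro _ ⟨j, rfl⟩
    exact ⟨j, rfl⟩
  · refine (Set.finite_range fun j : S.J => com S.gk (S.gr j)).subset ?_
    rintro _ ⟨j, rfl⟩
    exact ⟨j, rfl⟩

theorem nb3 : ∃ (m : ℕ) (rels : List (List (Fin m × Bool))) (w : ℕ → List (Fin m × Bool)),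
    0 < m ∧ Computable w ∧ ExpOK rels ∧
    ¬ REPred fun n => FreeGroup.mk (w n) ∉ NC rels := by
  classical
  obtain ⟨S, i0, st, h, f, hf, hn⟩ := exists_affSys
  have := S.fQ
  have := S.fJ
  have : Fintype (S.Gen × Fin 4) := Fintype.ofFinite _
  let m := Fintype.card (S.Gen × Fin 4)
  let e : S.Gen × Fin 4 ≃ Fin m := Fintype.equivFin _
  let o : S.Gen × Fin 4 → FreeGroup (Fin m) := fun q => FreeGroup.of (e q)
  let Θ : FreeGroup S.Gen →* FreeGroup (Fin m) := FreeGroup.lift fun g =>
    com ((o (g, 0))⁻¹ * o (g, 1)) ((o (g, 2))⁻¹ * o (g, 3))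
  have hΘ : ∀ g, Θ (FreeGroup.of g) = com ((o (g, 0))⁻¹ * o (g, 1)) ((o (g, 2))⁻¹ * o (g, 3)) :=
    fun g => FreeGroup.lift_apply_of
  let rels : List (List (Fin m × Bool)) :=
    (nb3_rels_finite S h).toFinset.toList.map fun ρ => (Θ ρ).toWord
  have hrels : ∀ ρ', ρ' ∈ rels ↔ ∃ ρ ∈ S.Rels h, (Θ ρ).toWord = ρ' := by
    intro ρ'
    simp only [rels, List.mem_map, Finset.mem_toList, Set.Finite.mem_toFinset]
  let a := (Θ S.gk).toWord
  let b := (Θ (S.gx i0)).toWord
  let c := (Θ (S.gt st)).toWord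
  let a' := (Θ S.gk)⁻¹.toWord
  let b' := (Θ (S.gx i0))⁻¹.toWord
  let c' := (Θ (S.gt st))⁻¹.toWord
  let w : ℕ → List (Fin m × Bool) := fun n =>
    a ++ (nb3_pow b' (f n) ++ (c ++ (nb3_pow b (f n) ++ (a' ++ (nb3_pow b' (f n) ++
      (c' ++ nb3_pow b (f n)))))))
  have hmk : ∀ n, FreeGroup.mk (w n) = Θ (S.ww (st, Pi.single i0 (f n : ℤ))) := by
    intro n
    have h1 : S.ww (st, Pi.single i0 (f n : ℤ)) = com S.gk
        ((S.gx i0 ^ (f n))⁻¹ * S.gt st * S.gx i0 ^ (f n)) := by
      rw [AffSys.ww, AffSys.tw, Tconj, nb3_Xpow, zpow_natCast]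
    rw [h1, com]
    simp only [w, ← FreeGroup.mul_mk, nb3_pow_mk, a, b, c, a', b', c', FreeGroup.mk_toWord,
      map_mul, map_inv, map_pow]
    group
  refine ⟨m, rels, w, Fintype.card_pos_iff.2 ⟨(Sum.inr (Sum.inr (Sum.inr ())), 0)⟩, ?_, ?_, ?_⟩
  · have hb := (nb3_pow_primrec b).to_comp.comp hf
    have hb' := (nb3_pow_primrec b').to_comp.comp hf
    have happ : ∀ {g g' : ℕ → List (Fin m × Bool)}, Computable g → Computable g' →
        Computable fun n => g n ++ g' n := fun hg hg' =>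
      Primrec.list_append.to_comp.comp hg hg'
    exact happ (Computable.const a) (happ hb' (happ (Computable.const c) (happ hb
      (happ (Computable.const a') (happ hb' (happ (Computable.const c') hb))))))
  · intro ρ' hρ' χ
    obtain ⟨ρ, -, rfl⟩ := (hrels ρ').1 hρ'
    rw [FreeGroup.mk_toWord]
    have h1 : (FreeGroup.lift χ).comp Θ = 1 := by
      refine FreeGroup.ext_hom _ _ fun g => ?_
      rw [MonoidHom.comp_apply, hΘ, com, map_mul, map_mul, map_mul, map_inv, map_inv]
      rw [mul_comm (FreeGroup.lift χ _) (FreeGroup.lift χ _), mul_inv_cancel_right,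
        mul_inv_cancel]
      rfl
    exact DFunLike.congr_fun h1 ρ
  · intro hre
    apply hn
    refine hre.of_eq fun n => ?_
    rw [hmk, not_iff_not]
    set p : S.Pt := (st, Pi.single i0 (f n : ℤ)) with hp
    constructor
    · intro hmem
      by_contra hE
      obtain ⟨Δ, hΔ, π, hπ, hne⟩ := model S h p hE
      obtain ⟨Δ', hΔ', j, R, hj, hR3, hR⟩ := three_trick fun g => π (FreeGroup.of g)
      let Ψ : FreeGroup (Fin m) →* Δ' := FreeGroup.lift fun i => R (e.symm i)
      have hΨo : ∀ q, Ψ (o q) = R q := by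
        intro q
        change FreeGroup.lift _ (FreeGroup.of (e q)) = _
        rw [FreeGroup.lift_apply_of, Equiv.symm_apply_apply]
      have hcomp : Ψ.comp Θ = j.comp π := by
        refine FreeGroup.ext_hom _ _ fun g => ?_
        rw [MonoidHom.comp_apply, hΘ, MonoidHom.comp_apply, ← hR g, com, com]
        simp only [map_mul, map_inv, hΨo]
      have hle : NC rels ≤ Ψ.ker := by
        refine Subgroup.normalClosure_le_normal ?_
        rintro x (⟨ρ', hρ', rfl⟩ | ⟨i, rfl⟩)
        · obtain ⟨ρ, hρ, rfl⟩ := (hrels ρ').1 hρ'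
          rw [SetLike.mem_coe, MonoidHom.mem_ker, FreeGroup.mk_toWord]
          have h2 := DFunLike.congr_fun hcomp ρ
          rw [MonoidHom.comp_apply, MonoidHom.comp_apply, hπ ρ hρ, map_one] at h2
          exact h2
        · rw [SetLike.mem_coe, MonoidHom.mem_ker, map_pow]
          change (FreeGroup.lift _ (FreeGroup.of i)) ^ 3 = 1
          rw [FreeGroup.lift_apply_of]
          exact hR3 _
      have h3 : Ψ (Θ (S.ww p)) = 1 := MonoidHom.mem_ker.1 (hle hmem)
      have h4 := DFunLike.congr_fun hcomp (S.ww p)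
      rw [MonoidHom.comp_apply, MonoidHom.comp_apply, h3] at h4
      exact hne (hj (by rw [← h4, map_one]))
    · intro hE
      have : (NC rels).Normal := Subgroup.normalClosure_normal
      have h1 := derive S h ((QuotientGroup.mk' (NC rels)).comp Θ) (fun ρ hρ => by
        rw [MonoidHom.comp_apply, QuotientGroup.mk'_apply, QuotientGroup.eq_one_iff]
        refine Subgroup.subset_normalClosure (Or.inl ⟨(Θ ρ).toWord, (hrels _).2 ⟨ρ, hρ, rfl⟩, ?_⟩)
        rw [FreeGroup.mk_toWord]) p hE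
      rw [MonoidHom.comp_apply, QuotientGroup.mk'_apply, QuotientGroup.eq_one_iff] at h1
      exact h1

end IrrCay
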