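import Pool.Agent.IrrCay.Transport

/-! # Rigidity along decorated walks -/

set_option autoImplicit false

namespace IrrCay

universe u v

theorem walkRigid_block {I : Type} {V : Type v} {Y : SimpleGraph V} {G : Type u} [Group G]
    {H : Set G} (e : Y ↪g X G H) {x : I → B → V} (hx : RowOK Y x) (i : I) :
    IsBlock H fun g => e (x i g) :=
  ⟨fun _ _ h => hx.inj i (e.injective h), fun s hs g => e.map_adj_iff.2 (hx.adj i s hs g)⟩

theorem walkRigid_tri {I : Type} {V : Type v} {Y : SimpleGraph V} {G : Type u} [Group G]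
    {H : Set G} (hH : Indep H) (e : Y ↪g X G H) {j : I} {x y w : I → B → V} (hx : RowOK Y x)
    (hy : RowOK Y y) (hw : RowOK Y w) (ht : TriOK Y j x y w) {i : I} (hij : i ≠ j) :
    ∃ ψ : B →* G, (∀ g, e (x i g) = ψ g * e (x i 1)) ∧ ∀ g, e (y i g) = ψ g * e (y i 1) := by
  let φ : Fin 3 → B → G := ![fun g => e (x i g), fun g => e (y i g), fun g => e (w i g)]
  have hφ : ∀ k, IsBlock H (φ k) := by
    intro k
    fin_cases k
    · exact walkRigid_block e hx i
    · exact walkRigid_block e hy i
    · exact walkRigid_block e hw i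
  have hadj : ∀ k l, k ≠ l → ∀ s ∈ pos, (X G H).Adj (φ k s) (φ l s) := by
    intro k l hkl s hs
    obtain ⟨h1, h2, h3⟩ := ht.adj i hij s hs
    have h1' := e.map_adj_iff.2 h1
    have h2' := e.map_adj_iff.2 h2
    have h3' := e.map_adj_iff.2 h3
    fin_cases k <;> fin_cases l
    · exact absurd rfl hkl
    · exact h1'
    · exact h3'.symm
    · exact h1'.symm
    · exact absurd rfl hkl
    · exact h2'
    · exact h3'
    · exact h2'.symm
    · exact absurd rfl hkl
  have hdist : ∀ k l, k ≠ l → ∀ s ∈ pos, ∀ c ∈ nbs, φ k (c * s) ≠ φ l s := by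
    intro k l hkl s hs c hc
    obtain ⟨h1, h2, h3, h4, h5, h6⟩ := ht.dist i hij s hs c hc
    fin_cases k <;> fin_cases l
    · exact absurd rfl hkl
    · exact fun h => h1 (e.injective h)
    · exact fun h => h2 (e.injective h)
    · exact fun h => h3 (e.injective h)
    · exact absurd rfl hkl
    · exact fun h => h4 (e.injective h)
    · exact fun h => h5 (e.injective h)
    · exact fun h => h6 (e.injective h)
    · exact absurd rfl hkl
  obtain ⟨ψ, hψ⟩ := transport hH φ hφ hadj hdist
  exact ⟨ψ, hψ 0, hψ 1⟩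

theorem walkRigid_lift {I : Type} {G : Type u} [Group G] (r : I → G) (a : I × Bool)
    (l : List (I × Bool)) : FreeGroup.lift r (FreeGroup.mk (a :: l)) =
      (if a.2 = true then r a.1 else (r a.1)⁻¹) * FreeGroup.lift r (FreeGroup.mk l) := by
  obtain ⟨i, b⟩ := a
  rw [FreeGroup.lift_mk, FreeGroup.lift_mk, List.map_cons, List.prod_cons]
  cases b <;> simp

theorem walk_rigid {I : Type} {V : Type v} {Y : SimpleGraph V} {G : Type u} [Group G]
    {H : Set G} (hH : Indep H) (e : Y ↪g X G H) {x : I → B → V} (hx : RowOK Y x) :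
    ∃ r : I → G, (∀ i, r i ^ 3 = 1) ∧ ∀ l z, Walk Y x l z → ∀ i,
      e (z i 1) = FreeGroup.lift r (FreeGroup.mk l) * e (x i 1) := by
  choose ψ hinj hψ h1 h2 h3 using fun i => (walkRigid_block e hx i).rigid hH
  refine ⟨fun i => ψ i bR, fun i => by rw [← map_pow, bR_cube, map_one], ?_⟩
  have key : ∀ l z, Walk Y x l z → RowOK Y z ∧ (∀ i g, e (z i g) = ψ i g * e (z i 1)) ∧
      ∀ i, e (z i 1) = FreeGroup.lift (fun i => ψ i bR) (FreeGroup.mk l) * e (x i 1) := by
    intro l z h
    induction h with
    | nil h =>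
      refine ⟨h, hψ, fun i => ?_⟩
      have : FreeGroup.lift (fun i => ψ i bR) (FreeGroup.mk ([] : List (I × Bool))) = 1 := by
        rw [FreeGroup.lift_mk]
        simp
      rw [this, one_mul]
    | @cons l y a z hw hz hs ih =>
      obtain ⟨hy, ihψ, ihe⟩ := ih
      obtain ⟨j, b⟩ := a
      obtain ⟨w, hwr, ⟨hb, ht⟩ | ⟨hb, ht⟩⟩ := hs
      · have hb' : b = true := hb
        subst hb'
        have hzj : ∀ g, e (z j g) = ψ j g * (ψ j bR * e (y j 1)) := by
          intro g
          rw [ht.self1 g, ihψ, map_mul, mul_assoc]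
        have hzj1 : e (z j 1) = ψ j bR * e (y j 1) := by
          rw [hzj 1, map_one, one_mul]
        refine ⟨hz, ?_, ?_⟩
        · intro i g
          by_cases hij : i = j
          · subst hij
            rw [hzj, hzj1]
          · obtain ⟨ψ', h4, h5⟩ := walkRigid_tri hH e hy hz hwr ht hij
            have h6 : ψ' g = ψ i g := by
              have := (h4 g).symm.trans (ihψ i g)
              exact mul_right_cancel this
            rw [h5, h6]
        · intro i
          rw [walkRigid_lift, if_pos rfl, mul_assoc, ← ihe i, hz.base i j, hzj1, hy.base j i]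
      · have hb' : b = false := hb
        subst hb'
        have hzy : ∀ g, z j g = y j (g * bR⁻¹) := by
          intro g
          rw [ht.self1 (g * bR⁻¹), inv_mul_cancel_right]
        have hzj : ∀ g, e (z j g) = ψ j g * ((ψ j bR)⁻¹ * e (y j 1)) := by
          intro g
          rw [hzy g, ihψ, map_mul, map_inv, mul_assoc]
        have hzj1 : e (z j 1) = (ψ j bR)⁻¹ * e (y j 1) := by
          rw [hzj 1, map_one, one_mul]
        refine ⟨hz, ?_, ?_⟩
        · intro i g
          by_cases hij : i = j
          · subst hij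
            rw [hzj, hzj1]
          · obtain ⟨ψ', h4, h5⟩ := walkRigid_tri hH e hz hy hwr ht hij
            have h6 : ψ' g = ψ i g := by
              have := (h5 g).symm.trans (ihψ i g)
              exact mul_right_cancel this
            rw [h4, h6]
        · intro i
          rw [walkRigid_lift, if_neg (by simp), mul_assoc, ← ihe i, hz.base i j, hzj1,
            hy.base j i]
  exact fun l z h => (key l z h).2.2

theorem pat_sound {I : Type} [Nonempty I] (rels : List (List (I × Bool)))
    (w : List (I × Bool)) {V : Type v} (Y : SimpleGraph V) (hY : Emb.{u} Y)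
    (hP : Pat rels w Y) : FreeGroup.mk w ∉ NC rels := by
  obtain ⟨G, hG, H, h1, hirr, ⟨e⟩⟩ := hY
  obtain ⟨x, hx, hrel, z, hz, hne⟩ := hP
  obtain ⟨r, hr3, hr⟩ := walk_rigid hirr.indep e hx
  intro hmem
  obtain ⟨i⟩ := ‹Nonempty I›
  have hle : NC rels ≤ (FreeGroup.lift r).ker := by
    refine Subgroup.normalClosure_le_normal ?_
    rintro a (⟨ρ, hρ, rfl⟩ | ⟨j, rfl⟩)
    · rw [SetLike.mem_coe, MonoidHom.mem_ker]
      have := hr ρ x (hrel ρ hρ) i
      exact (mul_eq_right.1 this.symm)
    · rw [SetLike.mem_coe, MonoidHom.mem_ker, map_pow, FreeGroup.lift_apply_of]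
      exact hr3 j
  have hw1 : FreeGroup.lift r (FreeGroup.mk w) = 1 := MonoidHom.mem_ker.1 (hle hmem)
  have := hr w z hz i
  rw [hw1, one_mul] at this
  exact hne i (e.injective this)

end IrrCay
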