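import Pool.Agent.IrrCay.PatRE
import Pool.Agent.IrrCay.Complete
import Pool.Agent.IrrCay.WalkRigid

/-! # The reduction of the word problem to embeddability -/

set_option autoImplicit false

namespace IrrCay

open Pool.Agent.MP_abf483_lc

universe u

theorem not_re_of_word {m : ℕ} (hm : 0 < m) (rels : List (List (Fin m × Bool)))
    (w : ℕ → List (Fin m × Bool)) (hw : Computable w) (hρ : ExpOK rels)
    (hn : ¬ REPred fun n => FreeGroup.mk (w n) ∉ NC rels) :
    ¬ REPred (fun p : ℕ × List (ℕ × ℕ) => Emb.{u} (ofCode p)) := by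
  intro hE
  apply hn
  have : Nonempty (Fin m) := ⟨⟨0, hm⟩⟩
  have h1 : REPred fun x : ℕ × (ℕ × List (ℕ × ℕ)) =>
      Emb.{u} (ofCode x.2) ∧ Pat rels (w x.1) (ofCode x.2) := by
    refine re_and (re_comp (p := fun p : ℕ × List (ℕ × ℕ) => Emb.{u} (ofCode p)) hE
      Computable.snd) ?_
    exact re_comp (p := fun q : List (Fin m × Bool) × (ℕ × List (ℕ × ℕ)) =>
      Pat rels q.1 (ofCode q.2)) (pat_re rels)
      (Computable.pair (hw.comp Computable.fst) Computable.snd)
  have h2 : REPred fun n : ℕ => ∃ p : ℕ × List (ℕ × ℕ),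
      Emb.{u} (ofCode p) ∧ Pat rels (w n) (ofCode p) :=
    re_ex (p := fun (n : ℕ) (p : ℕ × List (ℕ × ℕ)) =>
      Emb.{u} (ofCode p) ∧ Pat rels (w n) (ofCode p)) h1
  refine h2.of_eq fun n => ?_
  constructor
  · rintro ⟨p, hp, hP⟩
    exact pat_sound rels (w n) (ofCode p) hp hP
  · intro h
    exact pat_complete rels (w n) hρ h

end IrrCay
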