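import Pool.Agent.IrrCay.WalkDefs

/-! # Rigidity of a block -/

set_option autoImplicit false

namespace IrrCay

universe u v

/-- a block in the Cayley graph -/
structure IsBlock {G : Type u} [Group G] (H : Set G) (φ : B → G) : Prop where
  inj : Function.Injective φ
  adj : ∀ s ∈ [bP, bQ, bR], ∀ g, (X G H).Adj (φ g) (φ (s * g))

namespace RigidAux

variable {G : Type u} [Group G] {H : Set G}

theorem same_symm {a b : G} (h : Same a b) : Same b a := by
  rcases h with h | h
  · exact Or.inl h.symm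
  · right; rw [h, inv_inv]

theorem same_trans {a b c : G} (h : Same a b) (h' : Same b c) : Same a c := by
  rcases h with rfl | rfl
  · exact h'
  · rcases h' with rfl | rfl
    · right; rfl
    · left; simp

theorem same_inv_l {a b : G} (h : Same a b) : Same a⁻¹ b := by
  rcases h with rfl | rfl
  · right; rfl
  · left; simp

theorem same_inv_left {a b : G} : Same a⁻¹ b ↔ Same a b :=
  ⟨fun h => by simpa using same_inv_l h, fun h => same_inv_l h⟩

theorem same_inv_right {a b : G} : Same a b⁻¹ ↔ Same a b :=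
  ⟨fun h => same_symm (same_inv_left.1 (same_symm h)),
    fun h => same_symm (same_inv_left.2 (same_symm h))⟩

theorem ltr_inv {a : G} (h : Ltr H a) : Ltr H a⁻¹ := by
  rcases h with h | h
  · right; simpa using h
  · left; exact h

theorem ltr_ne_one (hH : Indep H) {a : G} (ha : Ltr H a) : a ≠ 1 := by
  intro h
  exact hH.notMem_oth ha (h ▸ one_mem _)

theorem inv_ne_of_cube {x : G} (h3 : x ^ 3 = 1) (h1 : x ≠ 1) : x⁻¹ ≠ x := by
  intro h
  apply h1
  have h2 : x * x = 1 := by
    nth_rewrite 1 [← h]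
    simp
  have : x ^ 3 = x * (x * x) := by rw [pow_succ, pow_succ, pow_one, mul_assoc]
  rw [this, h2, mul_one] at h3
  exact h3

theorem inv_eq_sq {x : G} (h3 : x ^ 3 = 1) : x⁻¹ = x * x := by
  rw [inv_eq_iff_mul_eq_one, ← mul_assoc, ← h3]
  rw [pow_succ, pow_succ, pow_one]

/-- triangles are monochromatic -/
theorem tri (hH : Indep H) {a b c : G} (ha : Ltr H a) (hb : Ltr H b) (hc : Ltr H c)
    (h : c * b * a = 1) : b = a ∧ c = a ∧ a ^ 3 = 1 := by
  have ha1 := ltr_ne_one hH ha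
  have hb1 := ltr_ne_one hH hb
  have hc1 := ltr_ne_one hH hc
  have hcube : ∀ x : G, x * x * x = 1 → x ^ 3 = 1 := by
    intro x hx
    rw [pow_succ, pow_succ, pow_one, hx]
  by_cases hba : Same b a
  · rcases hba with rfl | rfl
    · by_cases hac : Same b c
      · rcases hac with rfl | rfl
        · exact ⟨rfl, rfl, hcube _ h⟩
        · exfalso
          apply ha1
          simpa using h
      · exfalso
        apply hH.notMem_oth hc
        have e : c = b⁻¹ * b⁻¹ := by
          rw [mul_assoc] at h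
          rw [eq_inv_of_mul_eq_one_left h]; simp
        have hm := inv_mem (mem_oth hb hac)
        have := mul_mem hm hm
        rwa [← e] at this
    · exfalso
      apply hc1
      simpa using h
  · by_cases hca : Same c a
    · rcases hca with rfl | rfl
      · exfalso
        apply hH.notMem_oth hb
        have e : b = c⁻¹ * c⁻¹ := by
          have e1 : c⁻¹ * (c * b * c) * c⁻¹ = b := by group
          rw [h, mul_one] at e1
          exact e1.symm
        have hm := inv_mem (mem_oth hc (fun hs => hba (same_symm hs)))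
        have := mul_mem hm hm
        rwa [← e] at this
      · exfalso
        apply hb1
        have : b = a * (a⁻¹ * b * a) * a⁻¹ := by group
        rw [this, h]; group
    · exfalso
      apply hH.notMem_oth ha
      have e : a = (c * b)⁻¹ := eq_inv_of_mul_eq_one_right h
      have := inv_mem (mul_mem (mem_oth hc hca) (mem_oth hb hba))
      rwa [← e] at this

/-- squares: opposite edges have the same colour -/
theorem sq (hH : Indep H) {a b c d : G} (ha : Ltr H a) (hb : Ltr H b) (hc : Ltr H c)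
    (hd : Ltr H d) (h : d * c * b * a = 1) (hba : ¬ Same b a) (hda : ¬ Same d a) :
    Same c a := by
  by_contra hca
  apply hH.notMem_oth ha
  have e : a = (d * c * b)⁻¹ := eq_inv_of_mul_eq_one_right h
  have := inv_mem (mul_mem (mul_mem (mem_oth hd hda) (mem_oth hc hca)) (mem_oth hb hba))
  rwa [← e] at this

theorem conj3 {x y : G} (hy : y ^ 3 = 1) (h : y * x * y⁻¹ = x⁻¹) : x⁻¹ = x := by
  have h1 : y * x⁻¹ * y⁻¹ = x := by
    have := congrArg (fun z => z⁻¹) h
    simpa [mul_assoc] using this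
  have h2 : y * (y * (y * x * y⁻¹) * y⁻¹) * y⁻¹ = x⁻¹ := by rw [h, h1, h]
  have h3 : y * (y * (y * x * y⁻¹) * y⁻¹) * y⁻¹ = y ^ 3 * x * (y ^ 3)⁻¹ := by
    rw [pow_succ, pow_succ, pow_one]; group
  rw [h3, hy] at h2
  simpa using h2.symm

/-- the sign dichotomy -/
theorem dich {x y x' y' : G} (hx : x ^ 3 = 1) (hy : y ^ 3 = 1) (hx1 : x ≠ 1) (hy1 : y ≠ 1)
    (hxy : ¬ Same x y) (hx' : Same x' x) (hy' : Same y' y) (h : y' * x = x'⁻¹ * y⁻¹) :
    (x' = x ∧ y' = y ∧ ¬ Commute x y) ∨ (x' = x⁻¹ ∧ y' = y⁻¹ ∧ Commute x y) := by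
  have hxs := inv_eq_sq hx
  have hys := inv_eq_sq hy
  have hxi := inv_ne_of_cube hx hx1
  have hyi := inv_ne_of_cube hy hy1
  rcases hx' with e | e <;> rcases hy' with e' | e' <;> rw [e, e'] at h
  · left
    refine ⟨e, e', ?_⟩
    intro hc
    apply hxy
    right
    have h2 : (y * x) * (y * x) = 1 := by
      nth_rewrite 1 [h]; group
    have h4 : (y * y) * (x * x) = 1 := by
      rw [← h2]
      rw [mul_assoc, mul_assoc, ← mul_assoc x y x, hc.eq]
      simp only [mul_assoc]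
    rw [← hxs, ← hys] at h4
    have := eq_inv_of_mul_eq_one_left h4
    rw [inv_inj] at this
    rw [this]
    simp
  · exfalso
    apply hxi
    apply conj3 (y := y⁻¹) (by rw [inv_pow, hy, inv_one])
    rw [h]; group
  · exfalso
    apply hyi
    apply conj3 (y := x⁻¹) (by rw [inv_pow, hx, inv_one])
    rw [mul_assoc, inv_inv, h]; group
  · right
    refine ⟨e, e', ?_⟩
    rw [inv_inv] at h
    have : Commute x y⁻¹ := h.symm
    simpa using this.inv_right

theorem same_commute {x x' y y' : G} (hx : Same x x') (hy : Same y y') :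
    Commute x y ↔ Commute x' y' := by
  rcases hx with rfl | rfl <;> rcases hy with rfl | rfl <;> simp

theorem flip_false (F : B → G) (s : B) (hs : s ^ 3 = 1) (hF : ∀ g, F g ^ 3 = 1)
    (hne : ∀ g, F g ≠ 1) (h : ∀ g, F (s * g) = (F g)⁻¹) : False := by
  have h1 : F (s * (s * (s * 1))) = (F 1)⁻¹ := by rw [h, h, h, inv_inv]
  have h2 : s * (s * (s * 1)) = 1 := by
    rw [mul_one, ← hs, pow_succ, pow_succ, pow_one, mul_assoc]
  rw [h2] at h1
  exact inv_ne_of_cube (hF 1) (hne 1) h1.symm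

/-- the letter of the edge from `g` to `s g` -/
def L (φ : B → G) (s g : B) : G := φ (s * g) * (φ g)⁻¹

theorem L_mul (φ : B → G) (s g : B) : L φ s g * φ g = φ (s * g) := by
  simp [L]

section

variable {φ : B → G} (hH : Indep H)

include hH

theorem L_cyc {s : B} (hs : s ^ 3 = 1) (hadj : ∀ g, (X G H).Adj (φ g) (φ (s * g))) (g : B) :
    L φ s (s * g) = L φ s g ∧ L φ s g ^ 3 = 1 := by
  have h : L φ s (s * (s * g)) * L φ s (s * g) * L φ s g = 1 := by
    have h2 : s * (s * (s * g)) = g := by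
      have : s * (s * (s * g)) = s ^ 3 * g := by
        rw [pow_succ, pow_succ, pow_one]; simp only [mul_assoc]
      rw [this, hs, one_mul]
    simp only [L]
    rw [h2]
    group
  obtain ⟨h1, h2, h3⟩ := tri hH (adj_ltr (hadj g)) (adj_ltr (hadj (s * g)))
    (adj_ltr (hadj (s * (s * g)))) h
  exact ⟨h1, h3⟩

theorem L_inv {s : B} (hs : s ^ 3 = 1) (hadj : ∀ g, (X G H).Adj (φ g) (φ (s * g))) (g : B) :
    (L φ s g)⁻¹ * φ g = φ (s⁻¹ * g) := by
  have h := (L_cyc hH hs hadj (s⁻¹ * g)).1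
  rw [mul_inv_cancel_left] at h
  rw [h]
  have := L_mul φ s (s⁻¹ * g)
  rw [mul_inv_cancel_left] at this
  rw [← this]
  simp

theorem L_ne (hinj : Function.Injective φ) {s s' : B} (hs' : s' ^ 3 = 1)
    (hadj : ∀ g, (X G H).Adj (φ g) (φ (s * g)))
    (hadj' : ∀ g, (X G H).Adj (φ g) (φ (s' * g))) (h1 : s ≠ s') (h2 : s ≠ s'⁻¹) (g : B) :
    ¬ Same (L φ s g) (L φ s' g) := by
  rintro (h | h)
  · apply h1
    have := L_mul φ s g
    rw [h, L_mul] at this
    exact (mul_right_cancel (hinj this)).symm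
  · apply h2
    have := L_mul φ s g
    rw [h, L_inv hH hs' hadj'] at this
    exact (mul_right_cancel (hinj this)).symm

variable {s s' : B} (hs : s ^ 3 = 1) (hs' : s' ^ 3 = 1)
    (hadj : ∀ g, (X G H).Adj (φ g) (φ (s * g)))
    (hadj' : ∀ g, (X G H).Adj (φ g) (φ (s' * g)))
    (hne : ∀ g, ¬ Same (L φ s g) (L φ s' g))

include hs hs' hadj hadj' hne

theorem eqA (hsq : (s' * s) * (s' * s) = 1) (g : B) :
    L φ s' (s * g) * L φ s g = (L φ s (s'⁻¹ * g))⁻¹ * (L φ s' g)⁻¹ := by
  apply mul_right_cancel (b := φ g)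
  rw [mul_assoc, L_mul, L_mul, mul_assoc, L_inv hH hs' hadj', L_inv hH hs hadj]
  congr 1
  rw [← mul_assoc, ← mul_assoc, eq_inv_of_mul_eq_one_left hsq]
  simp

theorem sameA1 (hsq : (s' * s) * (s' * s) = 1) (g : B) :
    Same (L φ s (s'⁻¹ * g)) (L φ s g) := by
  have h := eqA hH hs hs' hadj hadj' hne hsq g
  apply sq hH (adj_ltr (hadj g)) (adj_ltr (hadj' (s * g))) (adj_ltr (hadj (s'⁻¹ * g)))
    (adj_ltr (hadj' g))
  · show L φ s' g * L φ s (s'⁻¹ * g) * L φ s' (s * g) * L φ s g = 1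
    rw [mul_assoc, h]; group
  · show ¬ Same (L φ s' (s * g)) (L φ s g)
    intro hc
    apply hne (s * g)
    rw [(L_cyc hH hs hadj g).1]
    exact same_symm hc
  · exact fun hc => hne g (same_symm hc)

theorem sameA2 (hsq : (s' * s) * (s' * s) = 1) (g : B) :
    Same (L φ s' (s * g)) (L φ s' g) := by
  have h := eqA hH hs hs' hadj hadj' hne hsq g
  apply same_symm
  apply sq hH (adj_ltr (hadj' (s * g))) (adj_ltr (hadj (s'⁻¹ * g))) (adj_ltr (hadj' g))
    (adj_ltr (hadj g))
  · show L φ s g * L φ s' g * L φ s (s'⁻¹ * g) * L φ s' (s * g) = 1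
    have h2 : L φ s' (s * g) = (L φ s (s'⁻¹ * g))⁻¹ * (L φ s' g)⁻¹ * (L φ s g)⁻¹ := by
      rw [← h]; simp
    rw [h2]; group
  · show ¬ Same (L φ s (s'⁻¹ * g)) (L φ s' (s * g))
    intro hc
    apply hne (s' * (s * g))
    rw [(L_cyc hH hs' hadj' (s * g)).1]
    have e : s' * (s * g) = s⁻¹ * (s'⁻¹ * g) := by
      rw [← mul_assoc, ← mul_assoc, eq_inv_of_mul_eq_one_left hsq]
      simp
    have h2 := (L_cyc hH hs hadj (s⁻¹ * (s'⁻¹ * g))).1
    rw [mul_inv_cancel_left] at h2
    rw [e, ← h2]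
    exact hc
  · show ¬ Same (L φ s g) (L φ s' (s * g))
    intro hc
    apply hne (s * g)
    rw [(L_cyc hH hs hadj g).1]
    exact hc

theorem eqC (hcm : s' * s = s * s') (g : B) :
    L φ s' (s * g) * L φ s g = L φ s (s' * g) * L φ s' g := by
  apply mul_right_cancel (b := φ g)
  rw [mul_assoc, L_mul, L_mul, mul_assoc, L_mul, L_mul]
  congr 1
  rw [← mul_assoc, ← mul_assoc, hcm]

theorem sameC1 (hcm : s' * s = s * s') (g : B) :
    Same (L φ s (s' * g)) (L φ s g) := by
  have h := eqC hH hs hs' hadj hadj' hne hcm g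
  rw [← same_inv_left]
  apply sq hH (adj_ltr (hadj g)) (adj_ltr (hadj' (s * g)))
    (ltr_inv (adj_ltr (hadj (s' * g)))) (ltr_inv (adj_ltr (hadj' g)))
  · show (L φ s' g)⁻¹ * (L φ s (s' * g))⁻¹ * L φ s' (s * g) * L φ s g = 1
    rw [mul_assoc, h]; group
  · show ¬ Same (L φ s' (s * g)) (L φ s g)
    intro hc
    apply hne (s * g)
    rw [(L_cyc hH hs hadj g).1]
    exact same_symm hc
  · rw [same_inv_left]
    exact fun hc => hne g (same_symm hc)

theorem sameC2 (hcm : s' * s = s * s') (g : B) :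
    Same (L φ s' (s * g)) (L φ s' g) := by
  have hne' : ∀ g, ¬ Same (L φ s' g) (L φ s g) := fun g hc => hne g (same_symm hc)
  exact sameC1 hH hs' hs hadj' hadj hne' hcm.symm g

theorem dichA (hsq : (s' * s) * (s' * s) = 1) (g : B) :
    (L φ s (s'⁻¹ * g) = L φ s g ∧ L φ s' (s * g) = L φ s' g ∧
      ¬ Commute (L φ s g) (L φ s' g)) ∨
    (L φ s (s'⁻¹ * g) = (L φ s g)⁻¹ ∧ L φ s' (s * g) = (L φ s' g)⁻¹ ∧
      Commute (L φ s g) (L φ s' g)) :=
  dich (L_cyc hH hs hadj g).2 (L_cyc hH hs' hadj' g).2 (ltr_ne_one hH (adj_ltr (hadj g)))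
    (ltr_ne_one hH (adj_ltr (hadj' g))) (hne g)
    (sameA1 hH hs hs' hadj hadj' hne hsq g) (sameA2 hH hs hs' hadj hadj' hne hsq g)
    (eqA hH hs hs' hadj hadj' hne hsq g)

theorem dichC (hcm : s' * s = s * s') (g : B) :
    (L φ s (s' * g) = (L φ s g)⁻¹ ∧ L φ s' (s * g) = (L φ s' g)⁻¹ ∧
      ¬ Commute (L φ s g) (L φ s' g)) ∨
    (L φ s (s' * g) = L φ s g ∧ L φ s' (s * g) = L φ s' g ∧
      Commute (L φ s g) (L φ s' g)) := by
  have h := eqC hH hs hs' hadj hadj' hne hcm g
  have hd := dich (x := L φ s g) (y := (L φ s' g)⁻¹) (x' := (L φ s (s' * g))⁻¹)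
    (y' := L φ s' (s * g)) (L_cyc hH hs hadj g).2
    (by rw [inv_pow, (L_cyc hH hs' hadj' g).2, inv_one])
    (ltr_ne_one hH (adj_ltr (hadj g)))
    (inv_ne_one.2 (ltr_ne_one hH (adj_ltr (hadj' g))))
    (by rw [same_inv_right]; exact hne g)
    (by rw [same_inv_left]; exact sameC1 hH hs hs' hadj hadj' hne hcm g)
    (by rw [same_inv_right]; exact sameC2 hH hs hs' hadj hadj' hne hcm g)
    (by rw [inv_inv, inv_inv]; exact h)
  rcases hd with ⟨h1, h2, h3⟩ | ⟨h1, h2, h3⟩
  · left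
    refine ⟨?_, h2, ?_⟩
    · rw [← h1, inv_inv]
    · intro hc; exact h3 hc.inv_right
  · right
    refine ⟨inv_injective h1, by simpa using h2, by simpa using h3.inv_right⟩

end

end RigidAux

open RigidAux

theorem IsBlock.rigid {G : Type u} [Group G] {H : Set G} (hH : Indep H) {φ : B → G}
    (hφ : IsBlock H φ) :
    ∃ ψ : B →* G, Function.Injective ψ ∧ (∀ g, φ g = ψ g * φ 1) ∧
      Ltr H (ψ bP) ∧ Ltr H (ψ bQ) ∧ Ltr H (ψ bR) := by
  have aP := hφ.adj bP (by simp)
  have aQ := hφ.adj bQ (by simp)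
  have aR := hφ.adj bR (by simp)
  have nPQ : ∀ g, ¬ Same (L φ bP g) (L φ bQ g) :=
    L_ne hH hφ.inj bQ_cube aP aQ (by decide +kernel) (by decide +kernel)
  have nPR : ∀ g, ¬ Same (L φ bP g) (L φ bR g) :=
    L_ne hH hφ.inj bR_cube aP aR (by decide +kernel) (by decide +kernel)
  have nQR : ∀ g, ¬ Same (L φ bQ g) (L φ bR g) :=
    L_ne hH hφ.inj bR_cube aQ aR (by decide +kernel) (by decide +kernel)
  have sPQ : (bQ * bP) * (bQ * bP) = 1 := by decide +kernel
  have cP := L_cyc hH bP_cube aP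
  have cQ := L_cyc hH bQ_cube aQ
  have cR := L_cyc hH bR_cube aR
  have oP : ∀ g, L φ bP g ≠ 1 := fun g => ltr_ne_one hH (adj_ltr (aP g))
  have oQ : ∀ g, L φ bQ g ≠ 1 := fun g => ltr_ne_one hH (adj_ltr (aQ g))
  have oR : ∀ g, L φ bR g ≠ 1 := fun g => ltr_ne_one hH (adj_ltr (aR g))
  -- colours are constant
  have kP : ∀ g, Same (L φ bP g) (L φ bP 1) := by
    refine B_ind (p := fun g => Same (L φ bP g) (L φ bP 1)) (Or.inl rfl) ?_ ?_ ?_
    · intro g h; rw [(cP g).1]; exact h
    · intro g h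
      have := sameA1 hH bP_cube bQ_cube aP aQ nPQ sPQ (bQ * g)
      rw [inv_mul_cancel_left] at this
      exact same_trans (same_symm this) h
    · intro g h
      exact same_trans (sameC1 hH bP_cube bR_cube aP aR nPR bPR.symm g) h
  have kQ : ∀ g, Same (L φ bQ g) (L φ bQ 1) := by
    refine B_ind (p := fun g => Same (L φ bQ g) (L φ bQ 1)) (Or.inl rfl) ?_ ?_ ?_
    · intro g h
      exact same_trans (sameA2 hH bP_cube bQ_cube aP aQ nPQ sPQ g) h
    · intro g h; rw [(cQ g).1]; exact h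
    · intro g h
      exact same_trans (sameC1 hH bQ_cube bR_cube aQ aR nQR bQR.symm g) h
  have kR : ∀ g, Same (L φ bR g) (L φ bR 1) := by
    refine B_ind (p := fun g => Same (L φ bR g) (L φ bR 1)) (Or.inl rfl) ?_ ?_ ?_
    · intro g h
      exact same_trans (sameC2 hH bP_cube bR_cube aP aR nPR bPR.symm g) h
    · intro g h
      exact same_trans (sameC2 hH bQ_cube bR_cube aQ aR nQR bQR.symm g) h
    · intro g h; rw [(cR g).1]; exact h
  -- signs are constant
  have eP1 : ∀ g, L φ bP (bQ⁻¹ * g) = L φ bP g ∧ L φ bQ (bP * g) = L φ bQ g := by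
    by_cases hc : Commute (L φ bP 1) (L φ bQ 1)
    · exfalso
      apply flip_false (L φ bP) bQ⁻¹ (by decide +kernel) (fun g => (cP g).2) oP
      intro g
      rcases dichA hH bP_cube bQ_cube aP aQ nPQ sPQ g with h | h
      · exact absurd ((same_commute (kP g) (kQ g)).2 hc) h.2.2
      · exact h.1
    · intro g
      rcases dichA hH bP_cube bQ_cube aP aQ nPQ sPQ g with h | h
      · exact ⟨h.1, h.2.1⟩
      · exact absurd ((same_commute (kP g) (kQ g)).1 h.2.2) hc
  have eP2 : ∀ g, L φ bP (bR * g) = L φ bP g ∧ L φ bR (bP * g) = L φ bR g := by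
    by_cases hc : Commute (L φ bP 1) (L φ bR 1)
    · intro g
      rcases dichC hH bP_cube bR_cube aP aR nPR bPR.symm g with h | h
      · exact absurd ((same_commute (kP g) (kR g)).2 hc) h.2.2
      · exact ⟨h.1, h.2.1⟩
    · exfalso
      apply flip_false (L φ bP) bR bR_cube (fun g => (cP g).2) oP
      intro g
      rcases dichC hH bP_cube bR_cube aP aR nPR bPR.symm g with h | h
      · exact h.1
      · exact absurd ((same_commute (kP g) (kR g)).1 h.2.2) hc
  have eQ2 : ∀ g, L φ bQ (bR * g) = L φ bQ g ∧ L φ bR (bQ * g) = L φ bR g := by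
    by_cases hc : Commute (L φ bQ 1) (L φ bR 1)
    · intro g
      rcases dichC hH bQ_cube bR_cube aQ aR nQR bQR.symm g with h | h
      · exact absurd ((same_commute (kQ g) (kR g)).2 hc) h.2.2
      · exact ⟨h.1, h.2.1⟩
    · exfalso
      apply flip_false (L φ bQ) bR bR_cube (fun g => (cQ g).2) oQ
      intro g
      rcases dichC hH bQ_cube bR_cube aQ aR nQR bQR.symm g with h | h
      · exact h.1
      · exact absurd ((same_commute (kQ g) (kR g)).1 h.2.2) hc
  have fP : ∀ g, L φ bP g = L φ bP 1 := by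
    refine B_ind (p := fun g => L φ bP g = L φ bP 1) rfl ?_ ?_ ?_
    · intro g h; rw [(cP g).1]; exact h
    · intro g h
      have := (eP1 (bQ * g)).1
      rw [inv_mul_cancel_left] at this
      rw [← this]; exact h
    · intro g h; rw [(eP2 g).1]; exact h
  have fQ : ∀ g, L φ bQ g = L φ bQ 1 := by
    refine B_ind (p := fun g => L φ bQ g = L φ bQ 1) rfl ?_ ?_ ?_
    · intro g h; rw [(eP1 g).2]; exact h
    · intro g h; rw [(cQ g).1]; exact h
    · intro g h; rw [(eQ2 g).1]; exact h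
  have fR : ∀ g, L φ bR g = L φ bR 1 := by
    refine B_ind (p := fun g => L φ bR g = L φ bR 1) rfl ?_ ?_ ?_
    · intro g h; rw [(eP2 g).2]; exact h
    · intro g h; rw [(eQ2 g).2]; exact h
    · intro g h; rw [(cR g).1]; exact h
  -- the homomorphism
  have main : ∀ g h, φ (g * h) = φ g * (φ 1)⁻¹ * φ h := by
    have step : ∀ s, (∀ g, L φ s g = L φ s 1) → ∀ g, (∀ h, φ (g * h) = φ g * (φ 1)⁻¹ * φ h) →
        ∀ h, φ (s * g * h) = φ (s * g) * (φ 1)⁻¹ * φ h := by
      intro s hs g hg h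
      rw [mul_assoc, ← L_mul φ s (g * h), hs, ← L_mul φ s g, hs g, hg]
      simp only [mul_assoc]
    refine B_ind (p := fun g => ∀ h, φ (g * h) = φ g * (φ 1)⁻¹ * φ h) ?_ ?_ ?_ ?_
    · intro h; simp
    · intro g hg; exact step bP fP g hg
    · intro g hg; exact step bQ fQ g hg
    · intro g hg; exact step bR fR g hg
  have hL1 : ∀ s, φ s * (φ 1)⁻¹ = L φ s 1 := by
    intro s; simp [L]
  refine ⟨{ toFun := fun g => φ g * (φ 1)⁻¹, map_one' := by simp, map_mul' := ?_ },
    ?_, ?_, ?_, ?_, ?_⟩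
  · intro g h
    rw [main g h]
    simp only [mul_assoc]
  · intro g h hgh
    exact hφ.inj (mul_right_cancel hgh)
  · intro g
    simp
  · show Ltr H (φ bP * (φ 1)⁻¹)
    rw [hL1]; exact adj_ltr (aP 1)
  · show Ltr H (φ bQ * (φ 1)⁻¹)
    rw [hL1]; exact adj_ltr (aQ 1)
  · show Ltr H (φ bR * (φ 1)⁻¹)
    rw [hL1]; exact adj_ltr (aR 1)

end IrrCay
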