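import Pool.Agent.IrrCay.AffDefs

/-! # Simulation of machines with several stacks by affine systems -/

set_option autoImplicit false

namespace IrrCay

open Turing

/-- the number attached to a stack -/
def num {A : Type} (code : A → ℕ) (b : ℕ) : List A → ℕ
  | [] => 0
  | a :: L => code a + b * num code b L

namespace TMAff

/-- statements of a machine all of whose stacks have the same alphabet -/
abbrev St (K A Λ σ : Type) : Type := TM2.Stmt (fun _ : K => A) Λ σ

/-- raw points -/
abbrev RPt (K A Λ σ : Type) : Type := Option (St K A Λ σ × σ) × (K → ℤ)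

variable {K A Λ σ : Type}

/-- the digit read on a stack -/
def dig (code : A → ℕ) : Option A → ℤ
  | none => 0
  | some a => (code a : ℤ)

section Rules

variable [DecidableEq K] (M : Λ → St K A Λ σ) (code : A → ℕ) (b : ℕ)

/-- additive part of the source -/
def ra : St K A Λ σ → σ → Option A → K → ℤ
  | .push _ _ _, _, _, _ => 0
  | .peek κ _ _, _, o, k => if k = κ then dig code o else 0
  | .pop κ _ _, _, o, k => if k = κ then dig code o else 0
  | .load _ _, _, _, _ => 0
  | .branch _ _ _, _, _, _ => 0
  | .goto _, _, _, _ => 0
  | .halt, _, _, _ => 0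

/-- multiplicative part of the source -/
def rM : St K A Λ σ → K → ℤ
  | .push _ _ _, _ => 1
  | .peek κ _ _, k => if k = κ then (b : ℤ) else 1
  | .pop κ _ _, k => if k = κ then (b : ℤ) else 1
  | .load _ _, _ => 1
  | .branch _ _ _, _ => 1
  | .goto _, _ => 1
  | .halt, _ => 1

/-- the target state -/
def rt : St K A Λ σ → σ → Option A → Option (St K A Λ σ × σ)
  | .push _ _ q, v, _ => some (q, v)
  | .peek _ f q, v, o => some (q, f v o)
  | .pop _ f q, v, o => some (q, f v o)
  | .load g q, v, _ => some (q, g v)
  | .branch p q₁ q₂, v, _ => some (cond (p v) q₁ q₂, v)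
  | .goto l, v, _ => some (M (l v), v)
  | .halt, _, _ => none

/-- additive part of the target -/
def rc : St K A Λ σ → σ → Option A → K → ℤ
  | .push κ f _, v, _, k => if k = κ then (code (f v) : ℤ) else 0
  | .peek κ _ _, _, o, k => if k = κ then dig code o else 0
  | .pop _ _ _, _, _, _ => 0
  | .load _ _, _, _, _ => 0
  | .branch _ _ _, _, _, _ => 0
  | .goto _, _, _, _ => 0
  | .halt, _, _, _ => 0

/-- multiplicative part of the target -/
def rN : St K A Λ σ → Option A → K → ℤ
  | .push κ _ _, _, k => if k = κ then (b : ℤ) else 1
  | .peek κ _ _, _, k => if k = κ then (b : ℤ) else 1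
  | .pop κ _ _, none, k => if k = κ then (b : ℤ) else 1
  | .pop _ _ _, some _, _ => 1
  | .load _ _, _, _ => 1
  | .branch _ _ _, _, _ => 1
  | .goto _, _, _ => 1
  | .halt, _, _ => 1

/-- one raw rule -/
def RRel (x y : RPt K A Λ σ) : Prop :=
  (∃ (s : St K A Λ σ) (v : σ) (o : Option A) (u : K → ℤ),
    x = (some (s, v), fun k => ra code s v o k + rM b s k * u k) ∧
    y = (rt M s v o, fun k => rc code s v o k + rN b s o k * u k)) ∨
  (∃ (κ : K) (d : ℕ) (u : K → ℤ), d < b ∧
    x = (none, fun k => if k = κ then (d : ℤ) + b * u k else u k) ∧ y = (none, u))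

/-- the points from which the halting state is reached -/
inductive Reach : RPt K A Λ σ → Prop
  | base (α : K → ℤ) : Reach (none, α)
  | step (x y : RPt K A Λ σ) : RRel M code b x y → Reach y → Reach x

variable {code b}

theorem digit_unique (hc : Function.Injective code) (hc0 : ∀ a, 0 < code a)
    (hcb : ∀ a, code a < b) (hb : 0 < b) {o o' : Option A} {u u' : ℤ}
    (h : dig code o + b * u = dig code o' + b * u') : o = o' ∧ u = u' := by
  have hd : ∀ o : Option A, 0 ≤ dig code o ∧ dig code o < b := by
    intro o
    cases o with
    | none => simp [dig]; exact_mod_cast hb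
    | some a =>
      refine ⟨?_, ?_⟩
      · simp [dig]
      · simp only [dig]; exact_mod_cast hcb a
  have hbz : (0 : ℤ) < b := by exact_mod_cast hb
  have e1 : dig code o = dig code o' := by
    have h1 : (dig code o + b * u) % b = dig code o := by
      rw [Int.add_mul_emod_self_left]
      exact Int.emod_eq_of_lt (hd o).1 (hd o).2
    have h2 : (dig code o' + b * u') % b = dig code o' := by
      rw [Int.add_mul_emod_self_left]
      exact Int.emod_eq_of_lt (hd o').1 (hd o').2
    rw [← h1, ← h2, h]
  refine ⟨?_, ?_⟩
  · cases o with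
    | none =>
      cases o' with
      | none => rfl
      | some a =>
        simp only [dig] at e1
        have := hc0 a
        omega
    | some a =>
      cases o' with
      | none =>
        simp only [dig] at e1
        have := hc0 a
        omega
      | some a' =>
        simp only [dig] at e1
        have : code a = code a' := by exact_mod_cast e1
        rw [hc this]
  · rw [e1] at h
    have : (b : ℤ) * u = b * u' := by linarith
    exact mul_left_cancel₀ hbz.ne' this

/-- determinism away from the halting state -/
theorem det (hc : Function.Injective code) (hc0 : ∀ a, 0 < code a)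
    (hcb : ∀ a, code a < b) (hb : 0 < b) {x y y' : RPt K A Λ σ}
    (h : RRel M code b x y) (h' : RRel M code b x y') (hx : x.1 ≠ none) : y = y' := by
  rcases h with ⟨s, v, o, u, rfl, rfl⟩ | ⟨κ, d, u, hd, rfl, rfl⟩
  swap
  · exact absurd rfl hx
  rcases h' with ⟨s', v', o', u', hxx, rfl⟩ | ⟨κ, d, u', hd, hxx, rfl⟩
  swap
  · exact absurd (congrArg Prod.fst hxx) (by simp)
  have h1 := congrArg Prod.fst hxx
  have h2 := congrArg Prod.snd hxx
  simp only [Option.some.injEq, Prod.mk.injEq] at h1
  obtain ⟨rfl, rfl⟩ := h1
  simp only at h2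
  have h3 : ∀ k, ra code s v o k + rM b s k * u k = ra code s v o' k + rM b s k * u' k :=
    fun k => congrFun h2 k
  cases s with
  | push κ f q =>
    have hu : u = u' := by
      funext k
      have := h3 k
      simpa [ra, rM] using this
    subst hu
    rfl
  | peek κ f q =>
    have hκ := h3 κ
    simp only [ra, rM, if_true] at hκ
    obtain ⟨rfl, huκ⟩ := digit_unique hc hc0 hcb hb hκ
    have hu : u = u' := by
      funext k
      by_cases hk : k = κ
      · subst hk; exact huκ
      · have := h3 k
        simpa [ra, rM, hk] using this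
    subst hu
    rfl
  | pop κ f q =>
    have hκ := h3 κ
    simp only [ra, rM, if_true] at hκ
    obtain ⟨rfl, huκ⟩ := digit_unique hc hc0 hcb hb hκ
    have hu : u = u' := by
      funext k
      by_cases hk : k = κ
      · subst hk; exact huκ
      · have := h3 k
        simpa [ra, rM, hk] using this
    subst hu
    rfl
  | load g q =>
    have hu : u = u' := by
      funext k
      have := h3 k
      simpa [ra, rM] using this
    subst hu
    rfl
  | branch p q₁ q₂ =>
    have hu : u = u' := by
      funext k
      have := h3 k
      simpa [ra, rM] using this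
    subst hu
    rfl
  | goto l =>
    have hu : u = u' := by
      funext k
      have := h3 k
      simpa [ra, rM] using this
    subst hu
    rfl
  | halt =>
    have hu : u = u' := by
      funext k
      have := h3 k
      simpa [ra, rM] using this
    subst hu
    rfl

theorem reach_iff (hc : Function.Injective code) (hc0 : ∀ a, 0 < code a)
    (hcb : ∀ a, code a < b) (hb : 0 < b) {x y : RPt K A Λ σ}
    (h : RRel M code b x y) : Reach M code b x ↔ Reach M code b y := by
  constructor
  · intro hx
    by_cases hn : x.1 = none
    · rcases h with ⟨s, v, o, u, rfl, rfl⟩ | ⟨κ, d, u, hd, rfl, rfl⟩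
      · exact absurd hn (by simp)
      · exact Reach.base _
    · cases hx with
      | base α => exact absurd rfl hn
      | step _ y' hr hy =>
        rw [det M hc hc0 hcb hb h hr hn]
        exact hy
  · intro hy
    exact Reach.step x y h hy

variable (code b)

/-- the integer vector attached to the stacks -/
def nums (S : K → List A) : K → ℤ := fun k => (num code b (S k) : ℤ)

/-- one micro step of the machine -/
def mstep : St K A Λ σ → σ → (K → List A) → Option (St K A Λ σ × σ) × (K → List A)
  | .push κ f q, v, S => (some (q, v), Function.update S κ (f v :: S κ))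
  | .peek κ f q, v, S => (some (q, f v (S κ).head?), S)
  | .pop κ f q, v, S => (some (q, f v (S κ).head?), Function.update S κ (S κ).tail)
  | .load g q, v, S => (some (q, g v), S)
  | .branch p q₁ q₂, v, S => (some (cond (p v) q₁ q₂, v), S)
  | .goto l, v, S => (some (M (l v), v), S)
  | .halt, _, S => (none, S)

theorem fwd (s : St K A Λ σ) (v : σ) (S : K → List A) :
    RRel M code b (some (s, v), nums code b S)
      ((mstep M s v S).1, nums code b (mstep M s v S).2) := by
  left
  cases s with
  | push κ f q =>
    refine ⟨.push κ f q, v, none, nums code b S, ?_, ?_⟩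
    · refine Prod.ext rfl ?_
      funext k
      simp [ra, rM]
    · refine Prod.ext rfl ?_
      funext k
      by_cases hk : k = κ
      · subst hk
        simp [rc, rN, mstep, nums, num]
      · simp [rc, rN, mstep, nums, hk]
  | peek κ f q =>
    cases hS : S κ with
    | nil =>
      refine ⟨.peek κ f q, v, none, Function.update (nums code b S) κ 0, ?_, ?_⟩
      · refine Prod.ext rfl ?_
        funext k
        by_cases hk : k = κ
        · subst hk
          simp [ra, rM, nums, hS, num, dig]
        · simp [ra, rM, hk]
      · refine Prod.ext ?_ ?_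
        · simp [mstep, hS, rt]
        · funext k
          by_cases hk : k = κ
          · subst hk
            simp [rc, rN, mstep, nums, hS, num, dig]
          · simp [rc, rN, mstep, hk]
    | cons a L =>
      refine ⟨.peek κ f q, v, some a, Function.update (nums code b S) κ (num code b L), ?_, ?_⟩
      · refine Prod.ext rfl ?_
        funext k
        by_cases hk : k = κ
        · subst hk
          simp [ra, rM, nums, hS, num, dig]
        · simp [ra, rM, hk]
      · refine Prod.ext ?_ ?_
        · simp [mstep, hS, rt]
        · funext k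
          by_cases hk : k = κ
          · subst hk
            simp [rc, rN, mstep, nums, hS, num, dig]
          · simp [rc, rN, mstep, hk]
  | pop κ f q =>
    cases hS : S κ with
    | nil =>
      refine ⟨.pop κ f q, v, none, Function.update (nums code b S) κ 0, ?_, ?_⟩
      · refine Prod.ext rfl ?_
        funext k
        by_cases hk : k = κ
        · subst hk
          simp [ra, rM, nums, hS, num, dig]
        · simp [ra, rM, hk]
      · refine Prod.ext ?_ ?_
        · simp [mstep, hS, rt]
        · funext k
          by_cases hk : k = κ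
          · subst hk
            simp [rc, rN, mstep, nums, hS, num]
          · simp [rc, rN, mstep, nums, hk]
    | cons a L =>
      refine ⟨.pop κ f q, v, some a, Function.update (nums code b S) κ (num code b L), ?_, ?_⟩
      · refine Prod.ext rfl ?_
        funext k
        by_cases hk : k = κ
        · subst hk
          simp [ra, rM, nums, hS, num, dig]
        · simp [ra, rM, hk]
      · refine Prod.ext ?_ ?_
        · simp [mstep, hS, rt]
        · funext k
          by_cases hk : k = κ
          · subst hk
            simp [rc, rN, mstep, nums, hS]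
          · simp [rc, rN, mstep, nums, hk]
  | load g q =>
    refine ⟨.load g q, v, none, nums code b S, ?_, ?_⟩
    · refine Prod.ext rfl ?_
      funext k
      simp [ra, rM]
    · refine Prod.ext rfl ?_
      funext k
      simp [rc, rN, mstep]
  | branch p q₁ q₂ =>
    refine ⟨.branch p q₁ q₂, v, none, nums code b S, ?_, ?_⟩
    · refine Prod.ext rfl ?_
      funext k
      simp [ra, rM]
    · refine Prod.ext rfl ?_
      funext k
      simp [rc, rN, mstep]
  | goto l =>
    refine ⟨.goto l, v, none, nums code b S, ?_, ?_⟩
    · refine Prod.ext rfl ?_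
      funext k
      simp [ra, rM]
    · refine Prod.ext rfl ?_
      funext k
      simp [rc, rN, mstep]
  | halt =>
    refine ⟨.halt, v, none, nums code b S, ?_, ?_⟩
    · refine Prod.ext rfl ?_
      funext k
      simp [ra, rM]
    · refine Prod.ext rfl ?_
      funext k
      simp [rc, rN, mstep]

/-- the raw point attached to a configuration -/
def pt : TM2.Cfg (fun _ : K => A) Λ σ → RPt K A Λ σ
  | ⟨none, _, S⟩ => (none, nums code b S)
  | ⟨some l, v, S⟩ => (some (M l, v), nums code b S)

theorem sim (s : St K A Λ σ) (v : σ) (S : K → List A) :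
    Relation.ReflTransGen (RRel M code b) (some (s, v), nums code b S)
      (pt M code b (TM2.stepAux s v S)) := by
  induction s generalizing v S with
  | push κ f q ih =>
    exact Relation.ReflTransGen.head (fwd M code b (.push κ f q) v S) (ih v _)
  | peek κ f q ih =>
    exact Relation.ReflTransGen.head (fwd M code b (.peek κ f q) v S) (ih _ _)
  | pop κ f q ih =>
    exact Relation.ReflTransGen.head (fwd M code b (.pop κ f q) v S) (ih _ _)
  | load g q ih =>
    exact Relation.ReflTransGen.head (fwd M code b (.load g q) v S) (ih _ _)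
  | branch p q₁ q₂ ih₁ ih₂ =>
    refine Relation.ReflTransGen.head (fwd M code b (.branch p q₁ q₂) v S) ?_
    simp only [mstep, TM2.stepAux]
    cases p v with
    | true => exact ih₁ v S
    | false => exact ih₂ v S
  | goto l =>
    exact Relation.ReflTransGen.head (fwd M code b (.goto l) v S) Relation.ReflTransGen.refl
  | halt =>
    exact Relation.ReflTransGen.head (fwd M code b .halt v S) Relation.ReflTransGen.refl

theorem sim_reaches {c c' : TM2.Cfg (fun _ : K => A) Λ σ}
    (h : StateTransition.Reaches (TM2.step M) c c') :
    Relation.ReflTransGen (RRel M code b) (pt M code b c) (pt M code b c') := by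
  induction h with
  | refl => exact Relation.ReflTransGen.refl
  | tail _ hbc ih =>
    refine ih.trans ?_
    rename_i c₁ c₂ _
    rcases c₁ with ⟨_ | l, v, S⟩
    · simp [TM2.step] at hbc
    · simp only [TM2.step, Option.mem_def, Option.some.injEq] at hbc
      rw [← hbc]
      exact sim M code b (M l) v S

theorem down [Fintype K] (hb : 2 ≤ b) (α : K → ℤ) (hα : ∀ k, 0 ≤ α k) :
    Relation.ReflTransGen (RRel M code b) (none, α) (none, 0) := by
  induction hn : ∑ k, (α k).toNat using Nat.strong_induction_on generalizing α with
  | _ n ih =>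
    by_cases h0 : α = 0
    · rw [h0]
    · have : ∃ κ, α κ ≠ 0 := by
        by_contra hcon
        push Not at hcon
        exact h0 (funext hcon)
      obtain ⟨κ, hκ⟩ := this
      have hκ' : 0 < α κ := lt_of_le_of_ne (hα κ) (Ne.symm hκ)
      have hbz : (2 : ℤ) ≤ b := by exact_mod_cast hb
      have hbp : (0 : ℤ) < b := by linarith
      have hdiv0 : 0 ≤ α κ / b := Int.ediv_nonneg (hα κ) hbp.le
      have hdivlt : α κ / b < α κ := by
        rw [Int.ediv_lt_iff_lt_mul hbp]
        nlinarith
      have hrel : RRel M code b ((none, α) : RPt K A Λ σ)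
          (none, Function.update α κ (α κ / b)) := by
        right
        refine ⟨κ, (α κ % b).toNat, Function.update α κ (α κ / b), ?_, ?_, rfl⟩
        · have := Int.emod_lt_of_pos (α κ) hbp
          have := Int.emod_nonneg (α κ) hbp.ne'
          omega
        · refine Prod.ext rfl ?_
          funext k
          by_cases hk : k = κ
          · subst hk
            simp only [if_true, Function.update_self]
            rw [Int.toNat_of_nonneg (Int.emod_nonneg _ hbp.ne')]
            exact (Int.emod_add_mul_ediv (α k) b).symm
          · simp [hk]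
      refine Relation.ReflTransGen.head hrel ?_
      refine ih (∑ k, (Function.update α κ (α κ / b) k).toNat) ?_ _ ?_ rfl
      · rw [← hn]
        refine Finset.sum_lt_sum ?_ ⟨κ, Finset.mem_univ _, ?_⟩
        · intro k _
          by_cases hk : k = κ
          · subst hk
            rw [Function.update_self]
            omega
          · simp [hk]
        · rw [Function.update_self]
          omega
      · intro k
        by_cases hk : k = κ
        · subst hk
          rw [Function.update_self]
          exact hdiv0
        · simpa [hk] using hα k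

theorem reach_halts (hc : Function.Injective code) (hc0 : ∀ a, 0 < code a)
    (hcb : ∀ a, code a < b) (hb : 0 < b) {x : RPt K A Λ σ} (hx : Reach M code b x) :
    ∀ (s : St K A Λ σ) (v : σ) (S : K → List A), x = (some (s, v), nums code b S) →
      (StateTransition.eval (TM2.step M) (TM2.stepAux s v S)).Dom := by
  induction hx with
  | base α =>
    intro s v S h
    exact absurd (congrArg Prod.fst h) (by simp)
  | step x y hr hy ih =>
    intro s v S h
    subst h
    have hy' := det M hc hc0 hcb hb hr (fwd M code b s v S) (by simp)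
    cases s with
    | push κ f q => exact ih q v (Function.update S κ (f v :: S κ)) hy'
    | peek κ f q => exact ih q (f v (S κ).head?) S hy'
    | pop κ f q => exact ih q (f v (S κ).head?) (Function.update S κ (S κ).tail) hy'
    | load g q => exact ih q (g v) S hy'
    | branch p q₁ q₂ =>
      have := ih (cond (p v) q₁ q₂) v S hy'
      simp only [TM2.stepAux]
      cases hp : p v with
      | true => simpa [hp] using this
      | false => simpa [hp] using this
    | goto l =>
      have := ih (M (l v)) v S hy'
      have e : StateTransition.eval (TM2.step M)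
          (TM2.stepAux (TM2.Stmt.goto l : St K A Λ σ) v S) =
          StateTransition.eval (TM2.step M) (TM2.stepAux (M (l v)) v S) := by
        apply StateTransition.reaches_eval
        exact Relation.ReflTransGen.single (by simp [TM2.step, TM2.stepAux])
      rw [e]
      exact this
    | halt =>
      rw [Part.dom_iff_mem]
      refine ⟨TM2.stepAux (TM2.Stmt.halt : St K A Λ σ) v S, ?_⟩
      rw [StateTransition.mem_eval]
      exact ⟨Relation.ReflTransGen.refl, by simp [TM2.step, TM2.stepAux]⟩

end Rules

section System

variable (M : Λ → St K A Λ σ) (Supp : Finset Λ)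

/-- the accessible statements -/
def T : Set (St K A Λ σ) := {s | ∃ l ∈ Supp, s ∈ TM2.stmts₁ (M l)}

theorem T_finite : (T M Supp).Finite := by
  classical
  have : T M Supp = ⋃ l ∈ (Supp : Set Λ), (↑(TM2.stmts₁ (M l)) : Set (St K A Λ σ)) := by
    ext s
    simp [T]
  rw [this]
  exact Set.Finite.biUnion (Finset.finite_toSet _) (fun l _ => Finset.finite_toSet _)

/-- the accessible micro states -/
def F : Set (Option (St K A Λ σ × σ)) := {x | ∀ s v, x = some (s, v) → s ∈ T M Supp}

theorem rt_mem (hS : ∀ q ∈ Supp, TM2.SupportsStmt Supp (M q)) (s : St K A Λ σ)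
    (hs : s ∈ T M Supp) (v : σ) (o : Option A) : rt M s v o ∈ F M Supp := by
  obtain ⟨l, hl, hsl⟩ := hs
  have hsup := TM2.stmts₁_supportsStmt_mono hsl (hS l hl)
  have htr := TM2.stmts₁_trans hsl
  intro s' v' h
  cases s with
  | push κ f q =>
    simp only [rt, Option.some.injEq, Prod.mk.injEq] at h
    obtain ⟨rfl, rfl⟩ := h
    exact ⟨l, hl, htr (by simp [TM2.stmts₁, TM2.stmts₁_self])⟩
  | peek κ f q =>
    simp only [rt, Option.some.injEq, Prod.mk.injEq] at h
    obtain ⟨rfl, rfl⟩ := h
    exact ⟨l, hl, htr (by simp [TM2.stmts₁, TM2.stmts₁_self])⟩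
  | pop κ f q =>
    simp only [rt, Option.some.injEq, Prod.mk.injEq] at h
    obtain ⟨rfl, rfl⟩ := h
    exact ⟨l, hl, htr (by simp [TM2.stmts₁, TM2.stmts₁_self])⟩
  | load g q =>
    simp only [rt, Option.some.injEq, Prod.mk.injEq] at h
    obtain ⟨rfl, rfl⟩ := h
    exact ⟨l, hl, htr (by simp [TM2.stmts₁, TM2.stmts₁_self])⟩
  | branch p q₁ q₂ =>
    simp only [rt, Option.some.injEq, Prod.mk.injEq] at h
    obtain ⟨rfl, rfl⟩ := h
    refine ⟨l, hl, htr ?_⟩
    cases p v with
    | true => simp [TM2.stmts₁, TM2.stmts₁_self]
    | false => simp [TM2.stmts₁, TM2.stmts₁_self]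
  | goto g =>
    simp only [rt, Option.some.injEq, Prod.mk.injEq] at h
    obtain ⟨rfl, rfl⟩ := h
    exact ⟨g v, hsup v, TM2.stmts₁_self⟩
  | halt =>
    simp [rt] at h

theorem F_finite [Finite σ] : Finite ↥(F M Supp) := by
  have : Finite ↥(T M Supp) := T_finite M Supp
  let g : Option (↥(T M Supp) × σ) → ↥(F M Supp) :=
    fun x => match x with
      | none => ⟨none, fun s v h => by simp at h⟩
      | some (s, v) => ⟨some (s.1, v), fun s' v' h => by
          simp only [Option.some.injEq, Prod.mk.injEq] at h
          rw [← h.1]; exact s.2⟩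
  refine Finite.of_surjective g ?_
  rintro ⟨x, hx⟩
  cases x with
  | none => exact ⟨none, rfl⟩
  | some p =>
    obtain ⟨s, v⟩ := p
    exact ⟨some (⟨s, hx s v rfl⟩, v), rfl⟩

variable (code : A → ℕ) (b : ℕ)

/-- the affine system of a machine -/
noncomputable def sys [DecidableEq K] [Finite K] [Finite A] [Finite σ] (hb : 0 < b)
    (hS : ∀ q ∈ Supp, TM2.SupportsStmt Supp (M q)) {n : ℕ} (e : K ≃ Fin n) : AffSys where
  k := n
  Q := ↥(F M Supp)
  J := (↥(T M Supp) × σ × Option A) ⊕ (K × Fin b)
  fQ := F_finite M Supp
  fJ := by
    have : Finite ↥(T M Supp) := T_finite M Supp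
    infer_instance
  src := Sum.elim (fun j => ⟨some (j.1.1, j.2.1), fun s' v' h => by
          simp only [Option.some.injEq, Prod.mk.injEq] at h
          rw [← h.1]; exact j.1.2⟩) (fun _ => ⟨none, fun s v h => by simp at h⟩)
  tgt := Sum.elim (fun j => ⟨rt M j.1.1 j.2.1 j.2.2, rt_mem M Supp hS j.1.1 j.1.2 _ _⟩)
    (fun _ => ⟨none, fun s v h => by simp at h⟩)
  a := Sum.elim (fun j i => ra code j.1.1 j.2.1 j.2.2 (e.symm i))
    (fun p i => if e.symm i = p.1 then ((p.2 : ℕ) : ℤ) else 0)
  c := Sum.elim (fun j i => rc code j.1.1 j.2.1 j.2.2 (e.symm i)) (fun _ _ => 0)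
  M := Sum.elim (fun j i => rM b j.1.1 (e.symm i))
    (fun p i => if e.symm i = p.1 then (b : ℤ) else 1)
  N := Sum.elim (fun j i => rN b j.1.1 j.2.2 (e.symm i)) (fun _ _ => 1)
  hM := by
    have hbz : (b : ℤ) ≠ 0 := by exact_mod_cast hb.ne'
    rintro (⟨⟨s, hs⟩, v, o⟩ | p) i
    · simp only [Sum.elim_inl]
      cases s <;> simp only [rM] <;> (try split_ifs) <;> first | exact hbz | exact one_ne_zero
    · simp only [Sum.elim_inr]
      split_ifs
      · exact hbz
      · exact one_ne_zero
  hN := by
    have hbz : (b : ℤ) ≠ 0 := by exact_mod_cast hb.ne'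
    rintro (⟨⟨s, hs⟩, v, o⟩ | p) i
    · simp only [Sum.elim_inl]
      cases s with
      | pop κ f q =>
        cases o with
        | none =>
          simp only [rN]
          split_ifs
          · exact hbz
          · exact one_ne_zero
        | some a => exact one_ne_zero
      | push κ f q =>
        simp only [rN]
        split_ifs
        · exact hbz
        · exact one_ne_zero
      | peek κ f q =>
        simp only [rN]
        split_ifs
        · exact hbz
        · exact one_ne_zero
      | load g q => exact one_ne_zero
      | branch p q₁ q₂ => exact one_ne_zero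
      | goto l => exact one_ne_zero
      | halt => exact one_ne_zero
    · simp

end System

end TMAff

open TMAff in
theorem tm2_aff_aux {K A Λ σ : Type} [DecidableEq K] [Finite K] [Finite A] [Finite σ]
    (M : Λ → TM2.Stmt (fun _ : K => A) Λ σ) (Supp : Finset Λ)
    (hS : ∀ q ∈ Supp, TM2.SupportsStmt Supp (M q)) (k0 : K) (l0 : Λ) (hl0 : l0 ∈ Supp)
    (v0 : σ) (code : A → ℕ) (b : ℕ) (hc : Function.Injective code) (hc0 : ∀ a, 0 < code a)
    (hcb : ∀ a, code a < b) (hb : 2 ≤ b) :
    ∃ (S : AffSys) (i0 : Fin S.k) (st h : S.Q), ∀ L : List A,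
      (StateTransition.eval (TM2.step M)
        (⟨some l0, v0, Function.update (fun _ => []) k0 L⟩ :
          TM2.Cfg (fun _ : K => A) Λ σ)).Dom ↔
        S.Eqv (st, Pi.single i0 (num code b L : ℤ)) (h, 0) := by
  have hb0 : 0 < b := by omega
  obtain ⟨n, ⟨e⟩⟩ := Finite.exists_equiv_fin K
  have : Fintype K := Fintype.ofFinite K
  refine ⟨sys M Supp code b hb0 hS e, e k0,
    ⟨some (M l0, v0), fun s v h => by
      simp only [Option.some.injEq, Prod.mk.injEq] at h
      rw [← h.1]; exact ⟨l0, hl0, TM2.stmts₁_self⟩⟩,
    ⟨none, fun s v h => by simp at h⟩, ?_⟩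
  intro L
  set S := sys M Supp code b hb0 hS e with hSdef
  have hstart : (Pi.single (e k0) (num code b L : ℤ) : Fin n → ℤ) =
      fun i => nums code b (Function.update (fun _ => []) k0 L) (e.symm i) := by
    funext i
    by_cases hi : i = e k0
    · subst hi
      simp [nums]
    · have : e.symm i ≠ k0 := by
        intro h
        exact hi (by rw [← h]; simp)
      simp [nums, hi, this, num]
  constructor
  · intro hdom
    rw [Part.dom_iff_mem] at hdom
    obtain ⟨c', hc'⟩ := hdom
    rw [StateTransition.mem_eval] at hc'
    obtain ⟨hreach, hstop⟩ := hc'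
    -- lifting raw paths
    have hlift1 : ∀ x y : RPt K A Λ σ, RRel M code b x y → ∀ hx : x.1 ∈ F M Supp,
        ∃ hy : y.1 ∈ F M Supp, S.Eqv
          ((⟨x.1, hx⟩ : ↥(F M Supp)), fun i : Fin n => x.2 (e.symm i))
          ((⟨y.1, hy⟩ : ↥(F M Supp)), fun i : Fin n => y.2 (e.symm i)) := by
      intro x y hxy hx
      rcases hxy with ⟨s, v, o, u, rfl, rfl⟩ | ⟨κ, d, u, hd, rfl, rfl⟩
      · have hs : s ∈ T M Supp := hx s v rfl
        refine ⟨rt_mem M Supp hS s hs v o, ?_⟩
        refine Relation.EqvGen.rel _ _ ⟨Sum.inl (⟨s, hs⟩, v, o), fun i => u (e.symm i), ?_, ?_⟩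
        · rfl
        · rfl
      · refine ⟨fun s v h => by simp at h, ?_⟩
        refine Relation.EqvGen.rel _ _ ⟨Sum.inr (κ, ⟨d, hd⟩), fun i => u (e.symm i), ?_, ?_⟩
        · refine Prod.ext rfl ?_
          funext i
          change (if e.symm i = κ then (d : ℤ) + b * u (e.symm i) else u (e.symm i)) =
            (if e.symm i = κ then ((d : ℕ) : ℤ) else 0) +
              (if e.symm i = κ then (b : ℤ) else 1) * u (e.symm i)
          split_ifs <;> simp
        · refine Prod.ext rfl ?_
          funext i
          change u (e.symm i) = 0 + 1 * u (e.symm i)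
          simp
    have hlift : ∀ x y : RPt K A Λ σ, Relation.ReflTransGen (RRel M code b) x y →
        ∀ hx : x.1 ∈ F M Supp,
        ∃ hy : y.1 ∈ F M Supp, S.Eqv
          ((⟨x.1, hx⟩ : ↥(F M Supp)), fun i : Fin n => x.2 (e.symm i))
          ((⟨y.1, hy⟩ : ↥(F M Supp)), fun i : Fin n => y.2 (e.symm i)) := by
      intro x y h
      induction h with
      | refl => intro hx; exact ⟨hx, Relation.EqvGen.refl _⟩
      | tail _ hbc ih =>
        intro hx
        obtain ⟨hy, he⟩ := ih hx
        obtain ⟨hz, he'⟩ := hlift1 _ _ hbc hy
        exact ⟨hz, Relation.EqvGen.trans _ _ _ he he'⟩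
    have h1 := sim_reaches M code b hreach
    have hnone : c'.l = none := by
      rcases c' with ⟨_ | l, v, T⟩
      · rfl
      · simp [TM2.step] at hstop
    have h2 : pt M code b c' = (none, nums code b c'.stk) := by
      rcases c' with ⟨_ | l, v, T⟩
      · rfl
      · simp at hnone
    rw [h2] at h1
    have h3 := h1.trans (down M code b hb (nums code b c'.stk)
      (fun k => by simp [nums]))
    obtain ⟨hy, he⟩ := hlift _ _ h3 (fun s v h => by
      simp only [pt, Option.some.injEq, Prod.mk.injEq] at h
      rw [← h.1]; exact ⟨l0, hl0, TM2.stmts₁_self⟩)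
    exact Eq.mpr (congrArg (fun z => S.Eqv ((⟨some (M l0, v0), fun s v h => by
      simp only [Option.some.injEq, Prod.mk.injEq] at h
      rw [← h.1]; exact ⟨l0, hl0, TM2.stmts₁_self⟩⟩ : ↥(F M Supp)), z)
      ((⟨none, fun s v h => by simp at h⟩ : ↥(F M Supp)), 0)) hstart) he
  · intro heq
    have hkey : ∀ x y : S.Pt, S.Eqv x y →
        (Reach M code b ((x.1 : ↥(F M Supp)).1, fun k => x.2 (e k)) ↔
         Reach M code b ((y.1 : ↥(F M Supp)).1, fun k => y.2 (e k))) := by
      intro x y h
      induction h with
      | rel x y hxy =>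
        apply reach_iff M hc hc0 hcb hb0
        obtain ⟨j, u, rfl, rfl⟩ := hxy
        rcases j with ⟨⟨s, hs⟩, v, o⟩ | ⟨κ, d⟩
        · left
          refine ⟨s, v, o, fun k => u (e k), ?_, ?_⟩
          · refine Prod.ext rfl ?_
            funext k
            change ra code s v o (e.symm (e k)) + rM b s (e.symm (e k)) * u (e k) = _
            rw [Equiv.symm_apply_apply]
          · refine Prod.ext rfl ?_
            funext k
            change rc code s v o (e.symm (e k)) + rN b s o (e.symm (e k)) * u (e k) = _
            rw [Equiv.symm_apply_apply]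
        · right
          refine ⟨κ, d, fun k => u (e k), d.2, ?_, ?_⟩
          · refine Prod.ext rfl ?_
            funext k
            change (if e.symm (e k) = κ then ((d : ℕ) : ℤ) else 0) +
              (if e.symm (e k) = κ then (b : ℤ) else 1) * u (e k) = _
            rw [Equiv.symm_apply_apply]
            by_cases hk : k = κ
            · simp [hk]
            · simp [hk]
          · refine Prod.ext rfl ?_
            funext k
            change (0 : ℤ) + 1 * u (e k) = _
            simp
      | refl x => exact Iff.rfl
      | symm x y _ ih => exact ih.symm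
      | trans x y z _ _ ih1 ih2 => exact ih1.trans ih2
    have h1 := (hkey _ _ heq).2 (Reach.base _)
    have h2 := reach_halts M code b hc hc0 hcb hb0 h1 (M l0) v0
      (Function.update (fun _ => []) k0 L) (by
        refine Prod.ext rfl ?_
        funext k
        exact (congrFun hstart (e k)).trans (by simp))
    have e : StateTransition.eval (TM2.step M)
        (⟨some l0, v0, Function.update (fun _ => []) k0 L⟩ :
          TM2.Cfg (fun _ : K => A) Λ σ) =
        StateTransition.eval (TM2.step M)
          (TM2.stepAux (M l0) v0 (Function.update (fun _ => []) k0 L)) := by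
      apply StateTransition.reaches_eval
      exact Relation.ReflTransGen.single (by simp [TM2.step])
    rw [e]
    exact h2

theorem tm2_aff {K A Λ σ : Type} [DecidableEq K] [Finite K] [Finite A] [Finite σ]
    (M : Λ → TM2.Stmt (fun _ : K => A) Λ σ) (Supp : Finset Λ)
    (hS : ∀ q ∈ Supp, TM2.SupportsStmt Supp (M q)) (k0 : K) (l0 : Λ) (hl0 : l0 ∈ Supp)
    (v0 : σ) (code : A → ℕ) (b : ℕ) (hc : Function.Injective code) (hc0 : ∀ a, 0 < code a)
    (hcb : ∀ a, code a < b) :
    ∃ (S : AffSys) (i0 : Fin S.k) (st h : S.Q), ∀ L : List A,
      (StateTransition.eval (TM2.step M)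
        (⟨some l0, v0, Function.update (fun _ => []) k0 L⟩ :
          TM2.Cfg (fun _ : K => A) Λ σ)).Dom ↔
        S.Eqv (st, Pi.single i0 (num code b L : ℤ)) (h, 0) := by
  rcases isEmpty_or_nonempty A with hA | ⟨⟨a⟩⟩
  · obtain ⟨S, i0, st, h, hSys⟩ := tm2_aff_aux M Supp hS k0 l0 hl0 v0 code 2 hc hc0
      (fun a => (hA.false a).elim) le_rfl
    refine ⟨S, i0, st, h, fun L => ?_⟩
    have hL : L = [] := by
      cases L with
      | nil => rfl
      | cons a _ => exact (hA.false a).elim
    rw [hSys L, hL]
    rfl
  · refine tm2_aff_aux M Supp hS k0 l0 hl0 v0 code b hc hc0 hcb ?_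
    have := hc0 a
    have := hcb a
    omega

end IrrCay
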