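import Pool.Agent.IrrCay.Rigid

/-! # Transport of a block across a triangle -/

set_option autoImplicit false

namespace IrrCay

universe u v

section same

variable {G : Type u} [Group G]

theorem Same.symm' {a b : G} (h : Same a b) : Same b a := by
  rcases h with h | h
  · exact Or.inl h.symm
  · exact Or.inr (by rw [h, inv_inv])

theorem Same.trans' {a b c : G} (h : Same a b) (h' : Same b c) : Same a c := by
  rcases h with rfl | rfl
  · exact h'
  · rcases h' with rfl | rfl
    · exact Or.inr rfl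
    · exact Or.inl (by rw [inv_inv])

theorem Ltr.inv {H : Set G} {a : G} (h : Ltr H a) : Ltr H a⁻¹ := by
  rcases h with h | h
  · exact Or.inr (by rwa [inv_inv])
  · exact Or.inl h

theorem Same.inv_right {a b : G} (h : Same a b⁻¹) : Same a b := by
  rcases h with h | h
  · exact Or.inr h
  · exact Or.inl (by rw [h, inv_inv])

/-- a triangle of the Cayley graph carries one letter -/
theorem tri_mono {H : Set G} (hH : Indep H) {x y z : G} (hxy : (X G H).Adj x y)
    (hyz : (X G H).Adj y z) (hzx : (X G H).Adj z x) :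
    ∃ a, Ltr H a ∧ a ^ 3 = 1 ∧ a ≠ 1 ∧ y = a * x ∧ z = a * y ∧ x = a * z := by
  have ha := adj_ltr hxy
  have hb := adj_ltr hyz
  have hc := adj_ltr hzx
  set a := y * x⁻¹ with hadef
  set b := z * y⁻¹ with hbdef
  set c := x * z⁻¹ with hcdef
  have hrel : c * b * a = 1 := by rw [hadef, hbdef, hcdef]; group
  have ea : a = b⁻¹ * c⁻¹ := by
    have : a = (c * b)⁻¹ * (c * b * a) := by group
    rw [this, hrel]; group
  have eb : b = c⁻¹ * a⁻¹ := by
    have : b = c⁻¹ * (c * b * a) * a⁻¹ := by group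
    rw [this, hrel]; group
  have ec : c = a⁻¹ * b⁻¹ := by
    have : c = (c * b * a) * a⁻¹ * b⁻¹ := by group
    rw [this, hrel]; group
  have hab : Same b a := by
    by_contra hba
    have hca : Same c a := by
      by_contra hca
      have h1 : b⁻¹ * c⁻¹ ∈ Oth H a :=
        (Oth H a).mul_mem ((Oth H a).inv_mem (mem_oth hb hba)) ((Oth H a).inv_mem (mem_oth hc hca))
      rw [← ea] at h1
      exact hH.notMem_oth ha h1
    have hcb : ¬ Same c b := fun h => hba (h.symm'.trans' hca)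
    have h1 : c⁻¹ * a⁻¹ ∈ Oth H b :=
      (Oth H b).mul_mem ((Oth H b).inv_mem (mem_oth hc hcb))
        ((Oth H b).inv_mem (mem_oth ha fun h => hba h.symm'))
    rw [← eb] at h1
    exact hH.notMem_oth hb h1
  have hca : Same c a := by
    by_contra hca
    have hcb : ¬ Same b c := fun h => hca (h.symm'.trans' hab)
    have h1 : a⁻¹ * b⁻¹ ∈ Oth H c :=
      (Oth H c).mul_mem ((Oth H c).inv_mem (mem_oth ha fun h => hca h.symm'))
        ((Oth H c).inv_mem (mem_oth hb hcb))
    rw [← ec] at h1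
    exact hH.notMem_oth hc h1
  have ha1 : a ≠ 1 := by
    intro h
    rw [hadef, mul_inv_eq_one] at h
    exact hxy.1 h.symm
  have hb1 : b ≠ 1 := by
    intro h
    rw [hbdef, mul_inv_eq_one] at h
    exact hyz.1 h.symm
  have hc1 : c ≠ 1 := by
    intro h
    rw [hcdef, mul_inv_eq_one] at h
    exact hzx.1 h.symm
  have hba : b = a := by
    rcases hab with h | h
    · exact h
    · exfalso
      apply hc1
      rw [ec, h]; group
  have hcc : c = a := by
    rcases hca with h | h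
    · exact h
    · exfalso
      apply hb1
      rw [eb, h]; group
  refine ⟨a, ha, ?_, ha1, ?_, ?_, ?_⟩
  · rw [hba, hcc] at hrel
    rw [← hrel, pow_succ, pow_succ, pow_one]
  · rw [hadef]; group
  · rw [← hba, hbdef]; group
  · rw [← hcc, hcdef]; group

end same

/-- the eight possible triples of letters -/
def cand : List (B × B × B) :=
  [(bP, bQ, bR), (bP⁻¹, bQ⁻¹, bR), (bQ, bP, bR), (bQ⁻¹, bP⁻¹, bR),
   (bP, bQ, bR⁻¹), (bP⁻¹, bQ⁻¹, bR⁻¹), (bQ, bP, bR⁻¹), (bQ⁻¹, bP⁻¹, bR⁻¹)]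

/-- the value of the transport element for a triple -/
def zof (c : B × B × B) : B := c.1 * c.2.1⁻¹ * c.2.2

theorem cand_fact : ∀ c ∈ cand, ∀ d ∈ cand,
    c = (bP, bQ, bR) ∨ zof d = zof c ∨ zof d = bz ∨ zof c = bz⁻¹ ∨ zof d = (zof c)⁻¹ ∨
    zof d = bz⁻¹ ∨
    ¬ ((bz * zof c = zof c * bz ↔ zof c * zof d = zof d * zof c) ∧
      (bz * zof c = zof c * bz ↔ zof d * bz = bz * zof d)) := by
  decide +kernel

theorem cand_sq : ∀ c ∈ cand, ¬ (zof c * zof c = 1) := by
  intro c hc
  simp only [cand, List.mem_cons, List.not_mem_nil, or_false] at hc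
  rcases hc with h | h | h | h | h | h | h | h <;> subst h <;> decide +kernel

theorem cand_inj : ∀ c ∈ cand, zof c = bz → c = (bP, bQ, bR) := by decide +kernel

theorem sign_fact : ∀ s t : Bool,
    ((if s then bP else bP⁻¹) * (if t then bQ else bQ⁻¹)) ^ 2 = 1 → s = t := by
  decide +kernel

theorem sign_fact' : ∀ s t : Bool,
    ((if s then bQ else bQ⁻¹) * (if t then bP else bP⁻¹)) ^ 2 = 1 → s = t := by
  decide +kernel

section cand

variable {G : Type u} [Group G] {H : Set G}

theorem same_map {ψ : B →* G} (hi : Function.Injective ψ) {b c : B} (h : Same (ψ b) (ψ c)) :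
    b = c ∨ b = c⁻¹ := by
  rcases h with h | h
  · exact Or.inl (hi h)
  · exact Or.inr (hi (by rw [h, map_inv]))

theorem not_same_PQ {ψ : B →* G} (hi : Function.Injective ψ) : ¬ Same (ψ bP) (ψ bQ) := by
  intro h
  rcases same_map hi h with h | h <;> revert h <;> decide +kernel

theorem not_same_PR {ψ : B →* G} (hi : Function.Injective ψ) : ¬ Same (ψ bP) (ψ bR) := by
  intro h
  rcases same_map hi h with h | h <;> revert h <;> decide +kernel

theorem not_same_QR {ψ : B →* G} (hi : Function.Injective ψ) : ¬ Same (ψ bQ) (ψ bR) := by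
  intro h
  rcases same_map hi h with h | h <;> revert h <;> decide +kernel

theorem comm_of_same {a b c d : G} (h : a * b = b * a) (h1 : Same c a) (h2 : Same d b) :
    c * d = d * c := by
  have h' : Commute a b := h
  rcases h1 with rfl | rfl <;> rcases h2 with rfl | rfl
  · exact h'
  · exact h'.inv_right
  · exact h'.inv_left
  · exact h'.inv_inv

theorem not_comm_PQ {ψ : B →* G} (hi : Function.Injective ψ) :
    ¬ (ψ bP * ψ bQ = ψ bQ * ψ bP) := by
  intro h
  rw [← map_mul, ← map_mul] at h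
  have := hi h
  revert this
  decide +kernel

/-- the letters of the second block in terms of the first one -/
theorem cand_of_rel (hH : Indep H) {ψ ψ' : B →* G} (hi : Function.Injective ψ)
    (hi' : Function.Injective ψ') (hP : Ltr H (ψ bP)) (hQ : Ltr H (ψ bQ)) (hR : Ltr H (ψ bR))
    (hP' : Ltr H (ψ' bP)) (hQ' : Ltr H (ψ' bQ)) (hR' : Ltr H (ψ' bR))
    {a a' : G} (ha : Ltr H a) (ha' : Ltr H a')
    (h1 : ∀ s ∈ [bP, bQ, bR], ¬ Same (ψ s) a) (h2 : ∀ s ∈ [bP, bQ, bR], ¬ Same (ψ' s) a)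
    (hrel : ψ' bz * a = a' * ψ bz) :
    Same a' a ∧ ∃ c ∈ cand, ψ' bP = ψ c.1 ∧ ψ' bQ = ψ c.2.1 ∧ ψ' bR = ψ c.2.2 := by
  have hrel' : ψ' bP * (ψ' bQ)⁻¹ * ψ' bR * a = a' * (ψ bP * (ψ bQ)⁻¹ * ψ bR) := by
    have := hrel
    simpa only [bz, map_mul, map_inv] using this
  set p := ψ bP with hp
  set q := ψ bQ with hq
  set r := ψ bR with hr
  set p' := ψ' bP with hp'
  set q' := ψ' bQ with hq'
  set r' := ψ' bR with hr'
  have hpa : ¬ Same p a := h1 _ (by simp)
  have hqa : ¬ Same q a := h1 _ (by simp)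
  have hra : ¬ Same r a := h1 _ (by simp)
  have hpa' : ¬ Same p' a := h2 _ (by simp)
  have hqa' : ¬ Same q' a := h2 _ (by simp)
  have hra' : ¬ Same r' a := h2 _ (by simp)
  have hpq : ¬ Same p q := not_same_PQ hi
  have hpr : ¬ Same p r := not_same_PR hi
  have hqr : ¬ Same q r := not_same_QR hi
  have hpq' : ¬ Same p' q' := not_same_PQ hi'
  have hpr' : ¬ Same p' r' := not_same_PR hi'
  have hqr' : ¬ Same q' r' := not_same_QR hi'
  have haa : Same a' a := by
    by_contra hn
    have e : a = r'⁻¹ * q' * p'⁻¹ * (a' * (p * q⁻¹ * r)) := by rw [← hrel']; group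
    have hm : r'⁻¹ * q' * p'⁻¹ * (a' * (p * q⁻¹ * r)) ∈ Oth H a :=
      mul_mem (mul_mem (mul_mem (inv_mem (mem_oth hR' hra')) (mem_oth hQ' hqa'))
        (inv_mem (mem_oth hP' hpa')))
        (mul_mem (mem_oth ha' hn) (mul_mem (mul_mem (mem_oth hP hpa)
          (inv_mem (mem_oth hQ hqa))) (mem_oth hR hra)))
    rw [← e] at hm
    exact hH.notMem_oth ha hm
  have haa' : Same a a' := haa.symm'
  -- the colours of the first block occur in the second one
  have key : ∀ x : G, Ltr H x → ¬ Same x a → ¬ Same p' x → ¬ Same q' x → ¬ Same r' x →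
      p' * q'⁻¹ * r' * a ∈ Oth H x ∧ a' ∈ Oth H x := by
    intro x hx hxa e1 e2 e3
    have e4 : ¬ Same a x := fun h => hxa h.symm'
    have e5 : ¬ Same a' x := fun h => hxa (h.symm'.trans' haa)
    exact ⟨mul_mem (mul_mem (mul_mem (mem_oth hP' e1) (inv_mem (mem_oth hQ' e2)))
      (mem_oth hR' e3)) (mem_oth ha e4), mem_oth ha' e5⟩
  have kp : Same p' p ∨ Same q' p ∨ Same r' p := by
    by_contra hn
    push Not at hn
    obtain ⟨e1, e2, e3⟩ := hn
    obtain ⟨k1, k2⟩ := key p hP hpa e1 e2 e3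
    have e : p = a'⁻¹ * (p' * q'⁻¹ * r' * a) * r⁻¹ * q := by rw [hrel']; group
    have hm : a'⁻¹ * (p' * q'⁻¹ * r' * a) * r⁻¹ * q ∈ Oth H p :=
      mul_mem (mul_mem (mul_mem (inv_mem k2) k1) (inv_mem (mem_oth hR fun h => hpr h.symm')))
        (mem_oth hQ fun h => hpq h.symm')
    rw [← e] at hm
    exact hH.notMem_oth hP hm
  have kq : Same p' q ∨ Same q' q ∨ Same r' q := by
    by_contra hn
    push Not at hn
    obtain ⟨e1, e2, e3⟩ := hn
    obtain ⟨k1, k2⟩ := key q hQ hqa e1 e2 e3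
    have e : q = r * (p' * q'⁻¹ * r' * a)⁻¹ * a' * p := by rw [hrel']; group
    have hm : r * (p' * q'⁻¹ * r' * a)⁻¹ * a' * p ∈ Oth H q :=
      mul_mem (mul_mem (mul_mem (mem_oth hR fun h => hqr h.symm') (inv_mem k1)) k2)
        (mem_oth hP hpq)
    rw [← e] at hm
    exact hH.notMem_oth hQ hm
  have kr : Same p' r ∨ Same q' r ∨ Same r' r := by
    by_contra hn
    push Not at hn
    obtain ⟨e1, e2, e3⟩ := hn
    obtain ⟨k1, k2⟩ := key r hR hra e1 e2 e3
    have e : r = q * p⁻¹ * a'⁻¹ * (p' * q'⁻¹ * r' * a) := by rw [hrel']; group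
    have hm : q * p⁻¹ * a'⁻¹ * (p' * q'⁻¹ * r' * a) ∈ Oth H r :=
      mul_mem (mul_mem (mul_mem (mem_oth hQ hqr) (inv_mem (mem_oth hP hpr))) (inv_mem k2)) k1
    rw [← e] at hm
    exact hH.notMem_oth hR hm
  have cPR' : p' * r' = r' * p' := by
    rw [hp', hr', ← map_mul, ← map_mul, bPR]
  have cQR' : q' * r' = r' * q' := by
    rw [hq', hr', ← map_mul, ← map_mul, bQR]
  have ncPQ : ¬ (p * q = q * p) := not_comm_PQ hi
  -- the third letters have the same colour
  have hrr : Same r' r := by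
    rcases kr with h | h | h
    · -- r ~ p', so p, q ~ q', r'
      exfalso
      have e1 : ¬ Same p' p := fun h' => hpr (h'.symm'.trans' h)
      have e2 : ¬ Same p' q := fun h' => hqr (h'.symm'.trans' h)
      rcases kp with k | k | k
      · exact e1 k
      · rcases kq with l | l | l
        · exact e2 l
        · exact hpq (k.symm'.trans' l)
        · exact ncPQ (comm_of_same cQR' k.symm' l.symm')
      · rcases kq with l | l | l
        · exact e2 l
        · exact ncPQ (comm_of_same cQR'.symm k.symm' l.symm')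
        · exact hpq (k.symm'.trans' l)
    · exfalso
      have e1 : ¬ Same q' p := fun h' => hpr (h'.symm'.trans' h)
      have e2 : ¬ Same q' q := fun h' => hqr (h'.symm'.trans' h)
      rcases kp with k | k | k
      · rcases kq with l | l | l
        · exact hpq (k.symm'.trans' l)
        · exact e2 l
        · exact ncPQ (comm_of_same cPR' k.symm' l.symm')
      · exact e1 k
      · rcases kq with l | l | l
        · exact ncPQ (comm_of_same cPR'.symm k.symm' l.symm')
        · exact e2 l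
        · exact hpq (k.symm'.trans' l)
    · exact h
  have nrp : ¬ Same r' p := fun h => hpr (h.symm'.trans' hrr)
  have nrq : ¬ Same r' q := fun h => hqr (h.symm'.trans' hrr)
  have hsq : (p' * q') ^ 2 = 1 := by
    rw [hp', hq', ← map_mul, ← map_pow, bPQ_sq, map_one]
  have hr2 : ∃ u : Bool, r' = ψ (if u then bR else bR⁻¹) := by
    rcases hrr with h | h
    · exact ⟨true, h⟩
    · exact ⟨false, by rw [h]; simp [hr]⟩
  obtain ⟨u, hu⟩ := hr2
  refine ⟨haa, ?_⟩
  rcases kp with k | k | k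
  · -- p' ~ p, q' ~ q
    have l : Same q' q := by
      rcases kq with l | l | l
      · exact absurd (k.symm'.trans' l) hpq
      · exact l
      · exact absurd l nrq
    have hs : ∃ s : Bool, p' = ψ (if s then bP else bP⁻¹) := by
      rcases k with h | h
      · exact ⟨true, h⟩
      · exact ⟨false, by rw [h]; simp [hp]⟩
    have ht : ∃ t : Bool, q' = ψ (if t then bQ else bQ⁻¹) := by
      rcases l with h | h
      · exact ⟨true, h⟩
      · exact ⟨false, by rw [h]; simp [hq]⟩
    obtain ⟨s, hs⟩ := hs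
    obtain ⟨t, ht⟩ := ht
    have hst : s = t := by
      apply sign_fact
      apply hi
      rw [map_pow, map_mul, ← hs, ← ht, hsq, map_one]
    subst hst
    refine ⟨(if s then bP else bP⁻¹, if s then bQ else bQ⁻¹, if u then bR else bR⁻¹), ?_,
      hs, ht, hu⟩
    cases s <;> cases u <;> simp [cand]
  · -- q' ~ p, p' ~ q
    have l : Same p' q := by
      rcases kq with l | l | l
      · exact l
      · exact absurd (k.symm'.trans' l) hpq
      · exact absurd l nrq
    have hs : ∃ s : Bool, p' = ψ (if s then bQ else bQ⁻¹) := by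
      rcases l with h | h
      · exact ⟨true, h⟩
      · exact ⟨false, by rw [h]; simp [hq]⟩
    have ht : ∃ t : Bool, q' = ψ (if t then bP else bP⁻¹) := by
      rcases k with h | h
      · exact ⟨true, h⟩
      · exact ⟨false, by rw [h]; simp [hp]⟩
    obtain ⟨s, hs⟩ := hs
    obtain ⟨t, ht⟩ := ht
    have hst : s = t := by
      apply sign_fact'
      apply hi
      rw [map_pow, map_mul, ← hs, ← ht, hsq, map_one]
    subst hst
    refine ⟨(if s then bQ else bQ⁻¹, if s then bP else bP⁻¹, if u then bR else bR⁻¹), ?_,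
      hs, ht, hu⟩
    cases s <;> cases u <;> simp [cand]
  · exact absurd k nrp

end cand

section main

variable {G : Type u} [Group G] {H : Set G}

theorem inv_ne_of_cube {G : Type u} [Group G] {a : G} (h3 : a ^ 3 = 1) (h1 : a ≠ 1) (h : a⁻¹ = a) : False := by
  apply h1
  have h2 : a * a = 1 := by
    calc a * a = a⁻¹ * a := by rw [h]
      _ = 1 := by group
  calc a = a ^ 3 * (a * a)⁻¹ := by group
    _ = 1 := by rw [h3, h2]; group

/-- the signs are trivial -/
theorem sign_trivial {G : Type u} [Group G] {a b c x y : G} (h3 : a ^ 3 = 1) (h1 : a ≠ 1) (hx3 : x ^ 3 = 1)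
    (hb : b = a ∨ b = a⁻¹) (hc : c = a ∨ c = a⁻¹) (e1 : y * a = b * x)
    (e2 : y⁻¹ * a = c * x⁻¹) : b = a := by
  rcases hb with hb | hb
  · exact hb
  · exfalso
    subst hb
    have y1 : y = a⁻¹ * x * a⁻¹ := by
      rw [← e1]; group
    rcases hc with hc | hc
    · subst hc
      have y2 : y = c * x * c⁻¹ := by
        have : y = (y⁻¹ * c * c⁻¹)⁻¹ := by group
        rw [this, e2]; group
      rw [y1] at y2
      have y3 : c⁻¹ * x = c * x := mul_right_cancel y2
      exact inv_ne_of_cube h3 h1 (mul_right_cancel y3)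
    · subst hc
      have y2 : y = a * x * a := by
        have : y = (y⁻¹ * a * a⁻¹)⁻¹ := by group
        rw [this, e2]; group
      have h3' : a * a * a = 1 := by rw [← h3, pow_three']
      have ha2 : a * a = a⁻¹ := eq_inv_of_mul_eq_one_left h3'
      have y3 : a * x * a = x := by
        rw [← y2]
        have : y = (a * a) * x * (a * a) := by rw [ha2]; exact y1
        have t : a * (a * x * a) * a = y := by rw [this]; group
        rw [← y2] at t
        -- a * y * a = y and y = a * x * a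
        have t2 : a * y * a = a * x * a := by rw [t, y2]
        exact mul_left_cancel (mul_right_cancel t2)
      have y4 : x⁻¹ * a * x = a⁻¹ := by
        calc x⁻¹ * a * x = x⁻¹ * (a * x * a) * a⁻¹ := by group
          _ = a⁻¹ := by rw [y3]; group
      have y5 : x⁻¹ * a⁻¹ * x = a := by
        calc x⁻¹ * a⁻¹ * x = (x⁻¹ * a * x)⁻¹ := by group
          _ = a := by rw [y4]; group
      have y6 : (x * x * x)⁻¹ * a * (x * x * x) = a⁻¹ := by
        calc (x * x * x)⁻¹ * a * (x * x * x) = x⁻¹ * (x⁻¹ * (x⁻¹ * a * x) * x) * x := by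
              simp only [mul_inv_rev, mul_assoc]
          _ = a⁻¹ := by rw [y4, y5, y4]
      rw [← pow_three', hx3] at y6
      exact inv_ne_of_cube h3 h1 (by rw [← y6]; group)

theorem final_step {ψ : B →* G} (hi : Function.Injective ψ) {a : G} (h3 : a ^ 3 = 1)
    {c d : B × B × B} (hc : c ∈ cand) (hd : d ∈ cand)
    (e1 : a * ψ bz * a⁻¹ = ψ (zof c)) (e2 : a * ψ (zof c) * a⁻¹ = ψ (zof d))
    (e3 : a * ψ (zof d) * a⁻¹ = ψ bz) : c = (bP, bQ, bR) := by
  have h3' : a * a * a = 1 := by rw [← h3, pow_three']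
  -- conjugation inverting an element is impossible
  have hinv : ∀ x : B, ¬ (x * x = 1) → a * ψ x * a⁻¹ ≠ ψ x⁻¹ := by
    intro x hx h
    have h' : a * ψ x⁻¹ * a⁻¹ = ψ x := by
      calc a * ψ x⁻¹ * a⁻¹ = (a * ψ x * a⁻¹)⁻¹ := by rw [map_inv]; group
        _ = ψ x := by rw [h, map_inv, inv_inv]
    have h2 : (a * a * a) * ψ x * (a * a * a)⁻¹ = ψ x⁻¹ := by
      calc (a * a * a) * ψ x * (a * a * a)⁻¹ = a * (a * (a * ψ x * a⁻¹) * a⁻¹) * a⁻¹ := by
            simp only [mul_inv_rev, mul_assoc]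
        _ = ψ x⁻¹ := by rw [h, h', h]
    rw [h3', one_mul, inv_one, mul_one] at h2
    have h4 := hi h2
    apply hx
    nth_rewrite 1 [h4]
    group
  have hconj : ∀ x y x' y' : B, a * ψ x * a⁻¹ = ψ x' → a * ψ y * a⁻¹ = ψ y' →
      (x * y = y * x ↔ x' * y' = y' * x') := by
    intro x y x' y' hx hy
    have k1 : ψ (x' * y') = a * ψ (x * y) * a⁻¹ := by
      rw [map_mul, map_mul, ← hx, ← hy]; group
    have k2 : ψ (y' * x') = a * ψ (y * x) * a⁻¹ := by
      rw [map_mul, map_mul, ← hx, ← hy]; group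
    constructor
    · intro h
      apply hi
      rw [k1, k2, h]
    · intro h
      apply hi
      have : a * ψ (x * y) * a⁻¹ = a * ψ (y * x) * a⁻¹ := by rw [← k1, ← k2, h]
      exact mul_left_cancel (mul_right_cancel this)
  have hfix : ∀ x y z : B, a * ψ x * a⁻¹ = ψ z → a * ψ y * a⁻¹ = ψ z → x = y := by
    intro x y z hx hy
    apply hi
    exact mul_left_cancel (mul_right_cancel (hx.trans hy.symm))
  have hz2 : ¬ (bz * bz = 1) := by decide +kernel
  rcases cand_fact c hc d hd with h | h | h | h | h | h | h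
  · exact h
  · apply cand_inj c hc
    rw [h] at e2
    exact (hfix _ _ _ e1 e2).symm
  · apply cand_inj c hc
    rw [h] at e3
    exact hi (e1.symm.trans e3)
  · exfalso
    rw [h] at e1
    exact hinv _ hz2 e1
  · exfalso
    rw [h] at e2
    exact hinv _ (cand_sq c hc) e2
  · exfalso
    rw [h] at e3
    refine hinv bz⁻¹ ?_ (by rw [e3, inv_inv])
    decide +kernel
  · exfalso
    apply h
    have k1 := hconj _ _ _ _ e1 e2
    have k2 := hconj _ _ _ _ e2 e3
    exact ⟨k1, k1.trans k2⟩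

theorem hom_ext_B {ψ ψ' : B →* G} (hP : ψ' bP = ψ bP) (hQ : ψ' bQ = ψ bQ)
    (hR : ψ' bR = ψ bR) : ∀ g, ψ' g = ψ g := by
  apply B_ind
  · rw [map_one, map_one]
  · intro g hg; rw [map_mul, map_mul, hP, hg]
  · intro g hg; rw [map_mul, map_mul, hQ, hg]
  · intro g hg; rw [map_mul, map_mul, hR, hg]

theorem transport (hH : Indep H) (φ : Fin 3 → B → G)
    (hφ : ∀ k, IsBlock H (φ k))
    (hadj : ∀ k l, k ≠ l → ∀ s ∈ pos, (X G H).Adj (φ k s) (φ l s))
    (hdist : ∀ k l, k ≠ l → ∀ s ∈ pos, ∀ c ∈ nbs, φ k (c * s) ≠ φ l s) :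
    ∃ ψ : B →* G, ∀ k g, φ k g = ψ g * φ k 1 := by
  choose ψ hi hψ hP hQ hR using fun k => (hφ k).rigid hH
  have tri : ∀ s ∈ pos, ∃ b, Ltr H b ∧ b ^ 3 = 1 ∧ b ≠ 1 ∧
      ∀ k : Fin 3, φ (k + 1) s = b * φ k s := by
    intro s hs
    obtain ⟨b, hb, hb3, hb1, e1, e2, e3⟩ := tri_mono hH (hadj 0 1 (by decide) s hs)
      (hadj 1 2 (by decide) s hs) (hadj 2 0 (by decide) s hs)
    refine ⟨b, hb, hb3, hb1, ?_⟩
    intro k
    fin_cases k
    · exact e1
    · exact e2
    · exact e3
  have nsame : ∀ s ∈ pos, ∀ b : G, (∀ k : Fin 3, φ (k + 1) s = b * φ k s) → ∀ k : Fin 3,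
      ∀ c ∈ [bP, bQ, bR], ¬ Same (ψ k c) b := by
    intro s hs b hb k c hc hsame
    have hφm : ∀ c', φ k (c' * s) = ψ k c' * φ k s := by
      intro c'
      rw [hψ k (c' * s), map_mul, mul_assoc, ← hψ k s]
    have hcn : c ∈ nbs := by
      simp only [List.mem_cons, List.not_mem_nil, or_false] at hc
      rcases hc with h | h | h <;> subst h <;> simp [nbs]
    rcases hsame with h | h
    · refine hdist k (k + 1) ?_ s hs c hcn ?_
      · intro h'; revert h'; fin_cases k <;> decide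
      · rw [hφm, h, hb]
    · refine hdist k (k + 2) ?_ s hs c hcn ?_
      · intro h'; revert h'; fin_cases k <;> decide
      · rw [hφm, h]
        have h1 := hb (k + 2)
        have h2 : k + 2 + 1 = k := by fin_cases k <;> decide
        rw [h2] at h1
        rw [h1]; group
  obtain ⟨a, ha, ha3, ha1, hak⟩ := tri 1 (by simp [pos])
  obtain ⟨b, hb, hb3, hb1, hbk⟩ := tri bz (by simp [pos])
  obtain ⟨c, hc, hc3, hc1, hck⟩ := tri bz⁻¹ (by simp [pos])
  have rb : ∀ k : Fin 3, ψ (k + 1) bz * a = b * ψ k bz := by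
    intro k
    have h := hbk k
    rw [hψ (k + 1) bz, hψ k bz, hak k, ← mul_assoc, ← mul_assoc] at h
    exact mul_right_cancel h
  have rc : ∀ k : Fin 3, (ψ (k + 1) bz)⁻¹ * a = c * (ψ k bz)⁻¹ := by
    intro k
    have h := hck k
    rw [hψ (k + 1) bz⁻¹, hψ k bz⁻¹, hak k, ← mul_assoc, ← mul_assoc, map_inv, map_inv] at h
    exact mul_right_cancel h
  have na := nsame 1 (by simp [pos]) a hak
  obtain ⟨hba, c1, hc1m, hP1, hQ1, hR1⟩ := cand_of_rel hH (hi 0) (hi 1) (hP 0) (hQ 0) (hR 0)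
    (hP 1) (hQ 1) (hR 1) ha hb (na 0) (na 1) (rb 0)
  have r2 : ψ 2 bz * a⁻¹ = b⁻¹ * ψ 0 bz := by
    have h : ψ 0 bz * a = b * ψ 2 bz := rb 2
    calc ψ 2 bz * a⁻¹ = b⁻¹ * (b * ψ 2 bz) * a⁻¹ := by group
      _ = b⁻¹ * ψ 0 bz := by rw [← h]; group
  obtain ⟨-, c2, hc2m, hP2, hQ2, hR2⟩ := cand_of_rel hH (hi 0) (hi 2) (hP 0) (hQ 0) (hR 0)
    (hP 2) (hQ 2) (hR 2) ha.inv hb.inv (fun s hs h => na 0 s hs h.inv_right)
    (fun s hs h => na 2 s hs h.inv_right) r2
  -- the colour of c
  have hz_mem : ∀ k, ψ k bz ∈ Oth H a := by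
    intro k
    have e : ψ k bz = ψ k bP * (ψ k bQ)⁻¹ * ψ k bR := by simp only [bz, map_mul, map_inv]
    rw [e]
    exact mul_mem (mul_mem (mem_oth (hP k) (na k _ (by simp)))
      (inv_mem (mem_oth (hQ k) (na k _ (by simp))))) (mem_oth (hR k) (na k _ (by simp)))
  have hca : Same c a := by
    by_contra hn
    have e : a = ψ 1 bz * (c * (ψ 0 bz)⁻¹) := by
      have h : (ψ 1 bz)⁻¹ * a = c * (ψ 0 bz)⁻¹ := rc 0
      rw [← h]; group
    have hm : ψ 1 bz * (c * (ψ 0 bz)⁻¹) ∈ Oth H a :=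
      mul_mem (hz_mem 1) (mul_mem (mem_oth hc hn) (inv_mem (hz_mem 0)))
    rw [← e] at hm
    exact hH.notMem_oth ha hm
  have hz3 : (ψ 0 bz) ^ 3 = 1 := by rw [← map_pow, bz_cube, map_one]
  have hbb : b = a := sign_trivial ha3 ha1 hz3 hba hca (rb 0) (rc 0)
  subst hbb
  have z1 : ψ 1 bz = ψ 0 (zof c1) := by
    simp only [bz, zof, map_mul, map_inv] at *
    rw [hP1, hQ1, hR1]
  have z2 : ψ 2 bz = ψ 0 (zof c2) := by
    simp only [bz, zof, map_mul, map_inv] at *
    rw [hP2, hQ2, hR2]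
  have e1 : b * ψ 0 bz * b⁻¹ = ψ 0 (zof c1) := by
    have h : ψ 1 bz * b = b * ψ 0 bz := rb 0
    rw [← h, ← z1]; group
  have e2 : b * ψ 0 (zof c1) * b⁻¹ = ψ 0 (zof c2) := by
    have h : ψ 2 bz * b = b * ψ 1 bz := rb 1
    rw [← z1, ← h, ← z2]; group
  have e3 : b * ψ 0 (zof c2) * b⁻¹ = ψ 0 bz := by
    have h : ψ 0 bz * b = b * ψ 2 bz := rb 2
    rw [← z2, ← h]; group
  have f1 := final_step (hi 0) hb3 hc1m hc2m e1 e2 e3
  subst f1
  have f2 : c2 = (bP, bQ, bR) := by
    apply cand_inj c2 hc2m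
    apply hi 0
    rw [← e2]
    exact e1
  subst f2
  refine ⟨ψ 0, ?_⟩
  intro k g
  have hk : ∀ g, ψ k g = ψ 0 g := by
    fin_cases k
    · intro g; rfl
    · exact hom_ext_B hP1 hQ1 hR1
    · exact hom_ext_B hP2 hQ2 hR2
  rw [← hk g]
  exact hψ k g

end main

end IrrCay
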