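import Pool.Agent.IrrCay.WalkDefs

/-! # Letters, colours and triangles -/

set_option autoImplicit false

namespace IrrCay

universe u v

section same

variable {G : Type u} [Group G]

theorem Same.symm' {a b : G} (h : Same a b) : Same b a := by
  rcases h with h | h
  · exact Or.inl h.symm
  · exact Or.inr (by rw [h, inv_inv])

theorem Same.trans' {a b c : G} (h : Same a b) (h' : Same b c) : Same a c := by
  rcases h with rfl | rfl
  · exact h'
  · rcases h' with rfl | rfl
    · exact Or.inr rfl
    · exact Or.inl (by rw [inv_inv])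

theorem Ltr.inv {H : Set G} {a : G} (h : Ltr H a) : Ltr H a⁻¹ := by
  rcases h with h | h
  · exact Or.inr (by rwa [inv_inv])
  · exact Or.inl h

theorem Same.inv_right {a b : G} (h : Same a b⁻¹) : Same a b := by
  rcases h with h | h
  · exact Or.inr h
  · exact Or.inl (by rw [h, inv_inv])

/-- a triangle of the Cayley graph carries one letter -/
theorem tri_mono {H : Set G} (hH : Indep H) {x y z : G} (hxy : (X G H).Adj x y)
    (hyz : (X G H).Adj y z) (hzx : (X G H).Adj z x) :
    ∃ a, Ltr H a ∧ a ^ 3 = 1 ∧ a ≠ 1 ∧ y = a * x ∧ z = a * y ∧ x = a * z := by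
  have ha := adj_ltr hxy
  have hb := adj_ltr hyz
  have hc := adj_ltr hzx
  set a := y * x⁻¹ with hadef
  set b := z * y⁻¹ with hbdef
  set c := x * z⁻¹ with hcdef
  have hrel : c * b * a = 1 := by rw [hadef, hbdef, hcdef]; group
  have ea : a = b⁻¹ * c⁻¹ := by
    have : a = (c * b)⁻¹ * (c * b * a) := by group
    rw [this, hrel]; group
  have eb : b = c⁻¹ * a⁻¹ := by
    have : b = c⁻¹ * (c * b * a) * a⁻¹ := by group
    rw [this, hrel]; group
  have ec : c = a⁻¹ * b⁻¹ := by
    have : c = (c * b * a) * a⁻¹ * b⁻¹ := by group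
    rw [this, hrel]; group
  have hab : Same b a := by
    by_contra hba
    have hca : Same c a := by
      by_contra hca
      have h1 : b⁻¹ * c⁻¹ ∈ Oth H a :=
        (Oth H a).mul_mem ((Oth H a).inv_mem (mem_oth hb hba)) ((Oth H a).inv_mem (mem_oth hc hca))
      rw [← ea] at h1
      exact hH.notMem_oth ha h1
    have hcb : ¬ Same c b := fun h => hba (h.symm'.trans' hca)
    have h1 : c⁻¹ * a⁻¹ ∈ Oth H b :=
      (Oth H b).mul_mem ((Oth H b).inv_mem (mem_oth hc hcb))
        ((Oth H b).inv_mem (mem_oth ha fun h => hba h.symm'))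
    rw [← eb] at h1
    exact hH.notMem_oth hb h1
  have hca : Same c a := by
    by_contra hca
    have hcb : ¬ Same b c := fun h => hca (h.symm'.trans' hab)
    have h1 : a⁻¹ * b⁻¹ ∈ Oth H c :=
      (Oth H c).mul_mem ((Oth H c).inv_mem (mem_oth ha fun h => hca h.symm'))
        ((Oth H c).inv_mem (mem_oth hb hcb))
    rw [← ec] at h1
    exact hH.notMem_oth hc h1
  have ha1 : a ≠ 1 := by
    intro h
    rw [hadef, mul_inv_eq_one] at h
    exact hxy.1 h.symm
  have hb1 : b ≠ 1 := by
    intro h
    rw [hbdef, mul_inv_eq_one] at h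
    exact hyz.1 h.symm
  have hc1 : c ≠ 1 := by
    intro h
    rw [hcdef, mul_inv_eq_one] at h
    exact hzx.1 h.symm
  have hba : b = a := by
    rcases hab with h | h
    · exact h
    · exfalso
      apply hc1
      rw [ec, h]; group
  have hcc : c = a := by
    rcases hca with h | h
    · exact h
    · exfalso
      apply hb1
      rw [eb, h]; group
  refine ⟨a, ha, ?_, ha1, ?_, ?_, ?_⟩
  · rw [hba, hcc] at hrel
    rw [← hrel, pow_succ, pow_succ, pow_one]
  · rw [hadef]; group
  · rw [← hba, hbdef]; group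
  · rw [← hcc, hcdef]; group

end same

end IrrCay
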