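import Pool.Agent.IrrCay.WalkRigid
import Pool.Agent.IrrCay.Complete
import Pool.Agent.IrrCay.ThreeTrick

/-! # Universality of the finite embeddable graphs -/

set_option autoImplicit false

namespace IrrCay

universe u v

theorem universality {I : Type} [Finite I] (R : Set (FreeGroup I)) (hR : R.Finite)
    (g : FreeGroup I) (hg : g ∉ Subgroup.normalClosure R) :
    ∃ p : ℕ × List (ℕ × ℕ), Emb.{u} (ofCode p) ∧
      ∀ (G : Type v) [Group G] (H : Set G), Irr G H → Nonempty (ofCode p ↪g X G H) →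
        ∃ f : FreeGroup I →* G, (∀ x ∈ R, f x = 1) ∧ f g ≠ 1 := by
  classical
  have hI : Nonempty I := by
    by_contra hI
    rw [not_nonempty_iff] at hI
    apply hg
    have : g = 1 := Subsingleton.elim _ _
    rw [this]
    exact one_mem _
  let J := I × Fin 4
  have : Nonempty J := ⟨(Classical.arbitrary I, 0)⟩
  let o : J → FreeGroup J := fun q => FreeGroup.of q
  let Θ : FreeGroup I →* FreeGroup J := FreeGroup.lift fun i =>
    com ((o (i, 0))⁻¹ * o (i, 1)) ((o (i, 2))⁻¹ * o (i, 3))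
  have hΘ : ∀ i, Θ (FreeGroup.of i) =
      com ((o (i, 0))⁻¹ * o (i, 1)) ((o (i, 2))⁻¹ * o (i, 3)) := fun i => FreeGroup.lift_apply_of
  let rels : List (List (J × Bool)) := hR.toFinset.toList.map fun ρ => (Θ ρ).toWord
  have hrels : ∀ ρ', ρ' ∈ rels ↔ ∃ ρ ∈ R, (Θ ρ).toWord = ρ' := by
    intro ρ'
    simp only [rels, List.mem_map, Finset.mem_toList, Set.Finite.mem_toFinset]
  have hexp : ExpOK rels := by
    intro ρ' hρ' χ
    obtain ⟨ρ, -, rfl⟩ := (hrels ρ').1 hρ'
    rw [FreeGroup.mk_toWord]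
    have h1 : (FreeGroup.lift χ).comp Θ = 1 := by
      refine FreeGroup.ext_hom _ _ fun g => ?_
      rw [MonoidHom.comp_apply, hΘ, com, map_mul, map_mul, map_mul, map_inv, map_inv]
      rw [mul_comm (FreeGroup.lift χ _) (FreeGroup.lift χ _), mul_inv_cancel_right,
        mul_inv_cancel]
      rfl
    exact DFunLike.congr_fun h1 ρ
  have hw : FreeGroup.mk (Θ g).toWord ∉ NC rels := by
    rw [FreeGroup.mk_toWord]
    intro hmem
    have : (Subgroup.normalClosure R).Normal := Subgroup.normalClosure_normal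
    let π : FreeGroup I →* FreeGroup I ⧸ Subgroup.normalClosure R := QuotientGroup.mk' _
    obtain ⟨Δ', hΔ', j, Q, hj, hQ3, hQ⟩ := three_trick fun i => π (FreeGroup.of i)
    let Ψ : FreeGroup J →* Δ' := FreeGroup.lift Q
    have hΨo : ∀ q, Ψ (o q) = Q q := fun q => FreeGroup.lift_apply_of
    have hcomp : Ψ.comp Θ = j.comp π := by
      refine FreeGroup.ext_hom _ _ fun i => ?_
      rw [MonoidHom.comp_apply, MonoidHom.comp_apply, hΘ, ← hQ i]
      simp only [com, map_mul, map_inv, hΨo]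
    have hker : NC rels ≤ Ψ.ker := by
      refine Subgroup.normalClosure_le_normal ?_
      rintro x (⟨ρ', hρ', rfl⟩ | ⟨q, rfl⟩)
      · obtain ⟨ρ, hρ, rfl⟩ := (hrels ρ').1 hρ'
        rw [SetLike.mem_coe, MonoidHom.mem_ker, FreeGroup.mk_toWord]
        have h1 : Ψ (Θ ρ) = j (π ρ) := DFunLike.congr_fun hcomp ρ
        rw [h1]
        have h2 : π ρ = 1 := (QuotientGroup.eq_one_iff ρ).2 (Subgroup.subset_normalClosure hρ)
        rw [h2, map_one]
      · rw [SetLike.mem_coe, MonoidHom.mem_ker, map_pow]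
        change (Ψ (o q)) ^ 3 = 1
        rw [hΨo, hQ3]
    have h3 := hker hmem
    rw [MonoidHom.mem_ker] at h3
    have h4 : Ψ (Θ g) = j (π g) := DFunLike.congr_fun hcomp g
    rw [h4] at h3
    have h5 : π g = 1 := hj (by rw [h3, map_one])
    exact hg ((QuotientGroup.eq_one_iff g).1 h5)
  obtain ⟨p, hp, hP⟩ := pat_complete.{u} rels _ hexp hw
  refine ⟨p, hp, ?_⟩
  intro G _ H hH hne
  obtain ⟨e⟩ := hne
  obtain ⟨x, hx, hrel, z, hz, hzne⟩ := hP
  obtain ⟨r, hr3, hr⟩ := walk_rigid hH.indep e hx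
  have hq : J := Classical.arbitrary J
  refine ⟨(FreeGroup.lift r).comp Θ, ?_, ?_⟩
  · intro ρ hρ
    have h1 := hr _ _ (hrel _ ((hrels _).2 ⟨ρ, hρ, rfl⟩)) hq
    rw [FreeGroup.mk_toWord] at h1
    rw [MonoidHom.comp_apply]
    exact (mul_eq_right.1 h1.symm)
  · intro h
    have h1 := hr _ _ hz hq
    rw [FreeGroup.mk_toWord, ← MonoidHom.comp_apply, h, one_mul] at h1
    exact hzne hq (e.injective h1)

end IrrCay
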