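import Pool.Agent.IrrCay.Defs
import Pool.Agent.IrrCay.BlockGroup

/-! # Decorated walks in a graph -/

set_option autoImplicit false

namespace IrrCay

universe u v

/-- the six neighbours of the identity in the block -/
def nbs : List B := [bP, bP⁻¹, bQ, bQ⁻¹, bR, bR⁻¹]

/-- the three positions of the connecting triangles -/
def pos : List B := [1, bz, bz⁻¹]

/-- A decorated point: a family of blocks, indexed by `I`, through a common vertex. -/
structure RowOK {I : Type} {V : Type v} (Y : SimpleGraph V) (x : I → B → V) : Prop where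
  inj : ∀ i, Function.Injective (x i)
  adj : ∀ i, ∀ s ∈ [bP, bQ, bR], ∀ g, Y.Adj (x i g) (x i (s * g))
  base : ∀ i i', x i 1 = x i' 1

/-- The decorated triangle `x, y = R_j x, w = R_j² x`. -/
structure TriOK {I : Type} {V : Type v} (Y : SimpleGraph V) (j : I)
    (x y w : I → B → V) : Prop where
  self1 : ∀ g, y j g = x j (g * bR)
  self2 : ∀ g, w j g = x j (g * bR * bR)
  adj : ∀ i, i ≠ j → ∀ s ∈ pos,
    Y.Adj (x i s) (y i s) ∧ Y.Adj (y i s) (w i s) ∧ Y.Adj (w i s) (x i s)
  dist : ∀ i, i ≠ j → ∀ s ∈ pos, ∀ c ∈ nbs,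
    x i (c * s) ≠ y i s ∧ x i (c * s) ≠ w i s ∧ y i (c * s) ≠ x i s ∧
    y i (c * s) ≠ w i s ∧ w i (c * s) ≠ x i s ∧ w i (c * s) ≠ y i s

/-- One step of a decorated walk: the letter `(j, true)` leads from `x` to `R_j x`, the letter
`(j, false)` from `x` to `R_j⁻¹ x`. -/
def StepR {I : Type} {V : Type v} (Y : SimpleGraph V) (x : I → B → V) (a : I × Bool)
    (y : I → B → V) : Prop :=
  ∃ w : I → B → V, RowOK Y w ∧
    ((a.2 = true ∧ TriOK Y a.1 x y w) ∨ (a.2 = false ∧ TriOK Y a.1 y x w))

/-- A decorated walk from `x` reading the word `l` from right to left. -/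
inductive Walk {I : Type} {V : Type v} (Y : SimpleGraph V) (x : I → B → V) :
    List (I × Bool) → (I → B → V) → Prop
  | nil : RowOK Y x → Walk Y x [] x
  | cons {l : List (I × Bool)} {y : I → B → V} {a : I × Bool} {z : I → B → V} :
      Walk Y x l y → RowOK Y z → StepR Y y a z → Walk Y x (a :: l) z

/-- The pattern of a presentation and a word. -/
def Pat {I : Type} {V : Type v} (rels : List (List (I × Bool))) (w : List (I × Bool))
    (Y : SimpleGraph V) : Prop :=
  ∃ x : I → B → V, RowOK Y x ∧ (∀ ρ ∈ rels, Walk Y x ρ x) ∧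
    ∃ z, Walk Y x w z ∧ ∀ i, z i 1 ≠ x i 1

/-- the kernel of the group presented by the relators `rels` and the cubes of the generators -/
def NC {I : Type} (rels : List (List (I × Bool))) : Subgroup (FreeGroup I) :=
  Subgroup.normalClosure
    ({x | ∃ ρ ∈ rels, x = FreeGroup.mk ρ} ∪ {x | ∃ i, x = FreeGroup.of i ^ 3})

/-- all relators have exponent sums divisible by 3 in each generator -/
def ExpOK {I : Type} (rels : List (List (I × Bool))) : Prop :=
  ∀ ρ ∈ rels, ∀ χ : I → Multiplicative (ZMod 3), FreeGroup.lift χ (FreeGroup.mk ρ) = 1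

end IrrCay
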